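import Mathlib

set_option autoImplicit false

/-!
# Definitions: d-separable and D-separable spaces, and the Sigma-product of the Cantor cube
-/

namespace Pool.Agent.H706Z

/-- `X` is d-separable: some union of a sequence of discrete subspaces is dense. -/
def LittleDSeparable (X : Type) [TopologicalSpace X] : Prop :=
  ∃ E : ℕ → Set X, (∀ n, DiscreteTopology (E n)) ∧ Dense (⋃ n, E n)

/-- `X` is D-separable: from every sequence of dense sets one can choose discrete subspaces whose
union is dense. -/
def BigDSeparable (X : Type) [TopologicalSpace X] : Prop :=
  ∀ D : ℕ → Set X, (∀ n, Dense (D n)) →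
    ∃ F : ℕ → Set X, (∀ n, F n ⊆ D n ∧ DiscreteTopology (F n)) ∧ Dense (⋃ n, F n)

/-- The Sigma-product of the Cantor cube with index set `I`: the points of `{0,1}^I` with
countably many nonzero coordinates, as a subspace of the product. -/
abbrev SigmaCube (I : Type) : Type := {x : I → ZMod 2 // {i | x i ≠ 0}.Countable}

end Pool.Agent.H706Z
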