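import Mathlib
import Pool.Agent.H706Z.DSepDefs

set_option autoImplicit false

/-!
# The Sigma-product of the Cantor cube: Frechet, d-separable, and not D-separable when the
index set has as many points as it has countable sequences
-/

namespace Pool.Agent.H706Z.Sigma

open Set Filter Topology Cardinal

theorem exists_rec {S α : Type} (r : S → S → Prop) (hr : WellFounded r)
    (P : (s : S) → ((t : S) → r t s → α) → α → Prop) (h : ∀ s f, ∃ a, P s f a) :
    ∃ g : S → α, ∀ s, P s (fun t _ => g t) (g s) := by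
  choose F hF using h
  refine ⟨hr.fix F, fun s => ?_⟩
  have := hF s (fun t _ => hr.fix F t)
  rwa [← WellFounded.fix_eq hr F s] at this

variable {I : Type}

theorem z2 : ∀ a b : ZMod 2, (a ≠ 0 ↔ b ≠ 0) → a = b := by decide

/-- the cylinder coded by a pair of finite sets -/
def cyl (s : Finset I × Finset I) : Set (I → ZMod 2) := {x | ∀ i ∈ s.1, (x i ≠ 0 ↔ i ∈ s.2)}

theorem isOpen_cyl (s : Finset I × Finset I) : IsOpen (cyl s) := by
  have : cyl s = ⋂ i ∈ s.1, (fun x : I → ZMod 2 => x i) ⁻¹' {a | a ≠ 0 ↔ i ∈ s.2} := by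
    ext x
    simp [cyl]
  rw [this]
  exact isOpen_biInter_finset fun i _ => (isOpen_discrete _).preimage (continuous_apply i)

theorem exists_cyl {U : Set (I → ZMod 2)} (hU : IsOpen U) {b : I → ZMod 2} (hb : b ∈ U) :
    ∃ s, b ∈ cyl s ∧ cyl s ⊆ U := by
  classical
  obtain ⟨F, u, h1, h2⟩ := isOpen_pi_iff.mp hU b hb
  refine ⟨(F, F.filter (fun i => b i ≠ 0)), fun i hi => by simp [show i ∈ F from hi],
    fun x hx => h2 fun i hi => ?_⟩
  have := hx i hi
  simp only [Finset.mem_filter] at this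
  rw [z2 (x i) (b i) (by rw [this]; exact ⟨fun h => h.2, fun h => ⟨hi, h⟩⟩)]
  exact (h1 i hi).2

theorem mem_cyl_congr {s : Finset I × Finset I} {x y : I → ZMod 2} (h : ∀ i ∈ s.1, x i = y i)
    (hx : x ∈ cyl s) : y ∈ cyl s := fun i hi => by rw [← h i hi]; exact hx i hi

theorem exists_cyl_sigma {U : Set (SigmaCube I)} (hU : IsOpen U) {b : SigmaCube I} (hb : b ∈ U) :
    ∃ s, b.1 ∈ cyl s ∧ ∀ y : SigmaCube I, y.1 ∈ cyl s → y ∈ U := by
  obtain ⟨V, hV, rfl⟩ := isOpen_induced_iff.mp hU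
  obtain ⟨s, h1, h2⟩ := exists_cyl hV hb
  exact ⟨s, h1, fun y hy => h2 hy⟩

theorem isOpen_cyl_sigma (s : Finset I × Finset I) :
    IsOpen {y : SigmaCube I | y.1 ∈ cyl s} := (isOpen_cyl s).preimage continuous_subtype_val

theorem exists_exhaust {T : Set I} (hT : T.Countable) :
    ∃ f : ℕ → Finset I, Monotone f ∧ ∀ i ∈ T, ∃ n, i ∈ f n := by
  classical
  obtain ⟨g, hg⟩ := Set.countable_iff_exists_injOn.mp hT
  have hfin : ∀ n : ℕ, {i | i ∈ T ∧ g i ≤ n}.Finite := by
    intro n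
    refine Set.Finite.of_finite_image (f := g) ((Set.finite_le_nat n).subset ?_) ?_
    · rintro _ ⟨i, hi, rfl⟩
      exact hi.2
    · exact hg.mono fun i hi => hi.1
  refine ⟨fun n => (hfin n).toFinset, ?_, fun i hi => ⟨g i, by simp [hi]⟩⟩
  intro m n hmn i hi
  simp only [Set.Finite.mem_toFinset, mem_ofPred_eq] at hi ⊢
  exact ⟨hi.1, hi.2.trans hmn⟩

theorem frechet : FrechetUrysohnSpace (SigmaCube I) := by
  classical
  refine ⟨fun A x hx => ?_⟩
  have hex : ∀ y : SigmaCube I, ∃ f : ℕ → Finset I, Monotone f ∧ ∀ i, y.1 i ≠ 0 → ∃ n, i ∈ f n :=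
    fun y => exists_exhaust y.2
  choose e he1 he2 using hex
  have hA : ∀ S : Finset I, ∃ a ∈ A, ∀ i ∈ S, a.1 i = x.1 i := by
    intro S
    have hx' : x ∈ {y : SigmaCube I | y.1 ∈ cyl (S, S.filter (fun i => x.1 i ≠ 0))} :=
      fun i hi => by simp [show i ∈ S from hi]
    obtain ⟨a, ha1, ha2⟩ := mem_closure_iff.mp hx _ (isOpen_cyl_sigma _) hx'
    refine ⟨a, ha2, fun i hi => z2 _ _ ?_⟩
    rw [ha1 i hi, hx' i hi]
  obtain ⟨a, ha⟩ := exists_rec (S := ℕ) (α := SigmaCube I) (· < ·) wellFounded_lt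
    (fun n f a => a ∈ A ∧ (∀ i ∈ e x n, a.1 i = x.1 i) ∧
      ∀ m (hm : m < n), ∀ i ∈ e (f m hm) n, a.1 i = x.1 i) (by
      intro n f
      obtain ⟨a, h1, h2⟩ := hA (e x n ∪ (Finset.univ : Finset (Fin n)).biUnion
        (fun m => e (f m.1 m.2) n))
      refine ⟨a, h1, fun i hi => h2 i (Finset.mem_union_left _ hi), fun m hm i hi =>
        h2 i (Finset.mem_union_right _ (Finset.mem_biUnion.mpr ⟨⟨m, hm⟩, Finset.mem_univ _, hi⟩))⟩)
  refine ⟨a, fun n => (ha n).1, ?_⟩
  rw [tendsto_subtype_rng, tendsto_pi_nhds]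
  intro i
  refine tendsto_const_nhds.congr' ?_
  by_cases h1 : x.1 i ≠ 0
  · obtain ⟨n, hn⟩ := he2 x i h1
    filter_upwards [eventually_ge_atTop n] with k hk
    exact ((ha k).2.1 i (he1 x hk hn)).symm
  by_cases h2 : ∃ m, (a m).1 i ≠ 0
  · obtain ⟨m, hm⟩ := h2
    obtain ⟨n, hn⟩ := he2 _ i hm
    filter_upwards [eventually_ge_atTop n, eventually_gt_atTop m] with k hk hk'
    exact ((ha k).2.2 m hk' i (he1 _ hk hn)).symm
  · push Not at h1 h2
    exact Eventually.of_forall fun k => by simp only [h1, h2 k]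

/-- the point with a prescribed finite support -/
noncomputable def ind (B : Finset I) : SigmaCube I :=
  ⟨fun i => by classical exact if i ∈ B then 1 else 0, by
    refine B.finite_toSet.countable.mono fun i hi => ?_
    by_contra h
    simp only [Finset.mem_coe] at h
    simp [h] at hi⟩

theorem ind_ne (B : Finset I) (i : I) : (ind B).1 i ≠ 0 ↔ i ∈ B := by
  by_cases h : i ∈ B <;> simp [ind, h]

theorem littleD : LittleDSeparable (SigmaCube I) := by
  classical
  refine ⟨fun n => ind '' {B | B.card = n}, fun n => ?_, ?_⟩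
  · rw [← isDiscrete_iff_discreteTopology, isDiscrete_iff_forall_mem_exists_isOpen]
    rintro _ ⟨B, hB, rfl⟩
    refine ⟨_, isOpen_cyl_sigma (B, B), ?_⟩
    ext y
    constructor
    · rintro ⟨h1, C, hC, rfl⟩
      have hsub : B ⊆ C := fun i hi => (ind_ne C i).mp ((h1 i hi).mpr hi)
      have : B = C := Finset.eq_of_subset_of_card_le hsub (by
        rw [show C.card = n from hC, show B.card = n from hB])
      rw [this]
      rfl
    · rintro rfl
      exact ⟨fun i _ => ind_ne B i, B, hB, rfl⟩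
  · rw [dense_iff_inter_open]
    rintro U hU ⟨b, hb⟩
    obtain ⟨s, h1, h2⟩ := exists_cyl_sigma hU hb
    exact ⟨ind s.2, h2 _ fun i _ => ind_ne _ i, mem_iUnion.mpr ⟨_, s.2, rfl, rfl⟩⟩

/-- countable chain condition: countably many of the given open sets have a union that is dense
in the union of all of them -/
theorem exists_countable_dense_union (C : Set (Set (I → ZMod 2))) (hC : ∀ U ∈ C, IsOpen U) :
    ∃ D ⊆ C, D.Countable ∧ ∀ U ∈ C, U ⊆ closure (⋃₀ D) := by
  let : MeasurableSpace (I → ZMod 2) := borel _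
  have : BorelSpace (I → ZMod 2) := ⟨rfl⟩
  obtain ⟨D, h1, h2, h3⟩ := MeasureTheory.Measure.exists_ae_subset_biUnion_countable
    (MeasureTheory.Measure.addHaar : MeasureTheory.Measure (I → ZMod 2))
    (C := C) (fun U hU => (hC U hU).measurableSet)
  refine ⟨D, h1, h2, fun U hU => ?_⟩
  have hopen : IsOpen (U \ closure (⋃₀ D)) := (hC U hU).sdiff isClosed_closure
  have hnull : (MeasureTheory.Measure.addHaar : MeasureTheory.Measure (I → ZMod 2))
      (U \ closure (⋃₀ D)) = 0 :=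
    MeasureTheory.measure_mono_null (sdiff_subset_sdiff_right subset_closure)
      (MeasureTheory.ae_le_set.mp (h3 U hU))
  exact sdiff_eq_empty.mp (hopen.eq_empty_of_measure_zero hnull)

/-- the points that are generic for a sequence of cylinders -/
def gen (P : ℕ → Finset I × Finset I) : Set (I → ZMod 2) :=
  (⋃ k, cyl (P k)) ∪ (closure (⋃ k, cyl (P k)))ᶜ

theorem isOpen_gen (P : ℕ → Finset I × Finset I) : IsOpen (gen P) :=
  (isOpen_iUnion fun _ => isOpen_cyl _).union isClosed_closure.isOpen_compl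

theorem dense_gen (P : ℕ → Finset I × Finset I) : Dense (gen P) := by
  intro x
  rw [gen, closure_union]
  by_cases h : x ∈ closure (⋃ k, cyl (P k))
  · exact Or.inl h
  · exact Or.inr (subset_closure h)

theorem gen_congr (P : ℕ → Finset I × Finset I) {x y : I → ZMod 2}
    (h : ∀ k, ∀ i ∈ (P k).1, x i = y i) (hx : x ∈ gen P) : y ∈ gen P := by
  classical
  rcases hx with hx | hx
  · obtain ⟨k, hk⟩ := mem_iUnion.mp hx
    exact Or.inl (mem_iUnion.mpr ⟨k, mem_cyl_congr (h k) hk⟩)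
  · refine Or.inr fun hy => hx ?_
    let φ : (I → ZMod 2) → (I → ZMod 2) := fun z i => if ∃ k, i ∈ (P k).1 then z i else x i
    have hφ : Continuous φ := continuous_pi fun i => by
      by_cases hi : ∃ k, i ∈ (P k).1
      · simp only [φ, hi, if_true]
        exact continuous_apply i
      · simp only [φ, hi, if_false]
        exact continuous_const
    have hxy : φ y = x := by
      funext i
      by_cases hi : ∃ k, i ∈ (P k).1
      · obtain ⟨k, hk⟩ := hi
        simp only [φ, if_pos (⟨k, hk⟩ : ∃ k, i ∈ (P k).1)]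
        exact (h k i hk).symm
      · simp only [φ, hi, if_false]
    rw [← hxy]
    refine map_mem_closure hφ hy fun z hz => ?_
    obtain ⟨k, hk⟩ := mem_iUnion.mp hz
    refine mem_iUnion.mpr ⟨k, mem_cyl_congr (fun i hi => ?_) hk⟩
    simp only [φ, if_pos (⟨k, hi⟩ : ∃ k, i ∈ (P k).1)]

theorem dense_generic (code : I → ℕ → ℕ → Finset I × Finset I) :
    Dense {x : SigmaCube I | ∀ a, x.1 a ≠ 0 → ∀ n, x.1 ∈ gen (code a n)} := by
  classical
  rw [dense_iff_inter_open]
  rintro U hU ⟨b, hb⟩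
  obtain ⟨s, h1, h2⟩ := exists_cyl_sigma hU hb
  let J : ℕ → Set I := fun m => Nat.rec (s.1 : Set I)
    (fun _ K => ⋃ a ∈ K, ⋃ n, ⋃ k, ((code a n k).1 : Set I)) m
  have hJ : ∀ m, (J m).Countable := by
    intro m
    induction m with
    | zero => exact s.1.finite_toSet.countable
    | succ m ih =>
      exact ih.biUnion fun a _ => countable_iUnion fun n => countable_iUnion fun k =>
        (code a n k).1.finite_toSet.countable
  have hJc : (⋃ m, J m).Countable := countable_iUnion hJ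
  have hd : Dense (⋂ a ∈ ⋃ m, J m, ⋂ n, gen (code a n)) := by
    refine dense_biInter_of_Gδ (fun a _ => IsGδ.iInter fun n => (isOpen_gen _).isGδ) hJc
      fun a _ => dense_iInter_of_isOpen (fun n => isOpen_gen _) fun n => dense_gen _
  obtain ⟨w, hw1, hw2⟩ := hd.inter_open_nonempty _ (isOpen_cyl s) ⟨_, h1⟩
  let x : SigmaCube I := ⟨fun i => if i ∈ ⋃ m, J m then w i else 0, hJc.mono fun i hi => by
    by_contra h
    simp only [mem_ofPred_eq, if_neg h] at hi
    exact hi rfl⟩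
  have hx : ∀ i ∈ ⋃ m, J m, w i = x.1 i := fun i hi => by simp only [x, if_pos hi]
  refine ⟨x, h2 x (mem_cyl_congr (fun i hi => hx i (mem_iUnion.mpr ⟨0, hi⟩)) hw1), ?_⟩
  intro a ha n
  have haJ : a ∈ ⋃ m, J m := by
    by_contra h
    simp only [x, if_neg h] at ha
    exact ha rfl
  obtain ⟨m, hm⟩ := mem_iUnion.mp haJ
  refine gen_congr _ (fun k i hi => hx i (mem_iUnion.mpr ⟨m + 1, ?_⟩))
    (mem_iInter.mp (mem_iInter₂.mp hw2 a haJ) n)
  exact mem_iUnion₂.mpr ⟨a, hm, mem_iUnion.mpr ⟨n, mem_iUnion.mpr ⟨k, hi⟩⟩⟩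

theorem discrete_trap (F : Set (SigmaCube I)) (hF : DiscreteTopology F) :
    ∃ (P : ℕ → Finset I × Finset I) (C : Set (SigmaCube I)), C.Countable ∧
      ∀ x ∈ F, x.1 ∈ gen P → x ∈ C := by
  rcases F.eq_empty_or_nonempty with rfl | ⟨x₀, hx₀⟩
  · exact ⟨fun _ => (∅, ∅), ∅, countable_empty, fun x hx => hx.elim⟩
  rw [← isDiscrete_iff_discreteTopology, isDiscrete_iff_forall_mem_exists_isOpen] at hF
  have hs : ∀ x : F, ∃ s, x.1.1 ∈ cyl s ∧ ∀ y ∈ F, y.1 ∈ cyl s → y = x.1 := by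
    intro x
    obtain ⟨U, hU, hUF⟩ := hF x.1 x.2
    have hxU : x.1 ∈ U := (hUF.symm.subset rfl).1
    obtain ⟨s, h1, h2⟩ := exists_cyl_sigma hU hxU
    exact ⟨s, h1, fun y hy hys => hUF.subset ⟨h2 y hys, hy⟩⟩
  choose s hs1 hs2 using hs
  obtain ⟨D, hD1, hD2, hD3⟩ := exists_countable_dense_union (range fun x : F => cyl (s x))
    (by rintro _ ⟨x, rfl⟩; exact isOpen_cyl _)
  have hne : D.Nonempty := by
    by_contra h
    rw [not_nonempty_iff_eq_empty] at h
    have := hD3 _ ⟨⟨x₀, hx₀⟩, rfl⟩ (hs1 ⟨x₀, hx₀⟩)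
    simp [h] at this
  obtain ⟨u, hu⟩ := hD2.exists_eq_range hne
  have hv : ∀ k, ∃ x : F, cyl (s x) = u k := fun k => hD1 (hu ▸ mem_range_self k)
  choose v hv using hv
  have hU : (⋃ k, cyl (s (v k))) = ⋃₀ D := by
    rw [hu, sUnion_range]
    exact iUnion_congr hv
  refine ⟨fun k => s (v k), range fun k => (v k).1, countable_range _, fun x hx hg => ?_⟩
  rcases hg with hg | hg
  · obtain ⟨k, hk⟩ := mem_iUnion.mp hg
    exact ⟨k, (hs2 (v k) x hx hk).symm⟩
  · refine absurd ?_ hg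
    rw [hU]
    exact hD3 _ ⟨⟨x, hx⟩, rfl⟩ (hs1 ⟨x, hx⟩)

theorem not_bigD_of_code (code : I → ℕ → ℕ → Finset I × Finset I)
    (hc : Function.Surjective code) (hI : ¬ (univ : Set I).Countable) :
    ¬ BigDSeparable (SigmaCube I) := by
  classical
  intro h
  obtain ⟨F, hF, hd⟩ := h _ (fun _ => dense_generic code)
  choose P C hC hP using fun n => discrete_trap (F n) (hF n).2
  obtain ⟨a, rfl⟩ := hc P
  have hcount : (⋃ n, ⋃ x ∈ C n, {i | x.1 i ≠ 0}).Countable :=
    countable_iUnion fun n => (hC n).biUnion fun x _ => x.2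
  obtain ⟨b, hb⟩ : ∃ b, b ∉ ⋃ n, ⋃ x ∈ C n, {i | x.1 i ≠ 0} := by
    by_contra h
    push Not at h
    exact hI (hcount.mono fun b _ => h b)
  obtain ⟨x, hx1, hx2⟩ := hd.inter_open_nonempty _ (isOpen_cyl_sigma ({a, b}, {a, b}))
    ⟨ind {a, b}, fun i _ => ind_ne _ i⟩
  obtain ⟨n, hn⟩ := mem_iUnion.mp hx2
  have hxa : x.1 a ≠ 0 := (hx1 a (by simp)).mpr (by simp)
  have hxb : x.1 b ≠ 0 := (hx1 b (by simp)).mpr (by simp)
  exact hb (mem_iUnion.mpr ⟨n, mem_iUnion₂.mpr ⟨x, hP n x hn ((hF n).1 hn a hxa n), hxb⟩⟩)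

theorem not_bigD (hI : ℵ₀ ≤ #I) (hpow : #I ^ ℵ₀ = #I) : ¬ BigDSeparable (SigmaCube I) := by
  have : Infinite I := infinite_iff.mpr hI
  have h1 : #(ℕ → ℕ → Finset I × Finset I) = #I := by
    simp only [mk_pi, prod_const, mk_prod, lift_id, mk_finset_of_infinite, mk_nat,
      mul_eq_self hI, hpow]
  obtain ⟨e⟩ := Cardinal.eq.mp h1
  refine not_bigD_of_code e.symm e.symm.surjective fun h => ?_
  rw [countable_univ_iff, ← mk_le_aleph0_iff] at h
  rw [le_antisymm h hI, aleph0_power_aleph0] at hpow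
  exact aleph0_lt_continuum.ne' hpow

theorem not_bigD_real : ¬ BigDSeparable (SigmaCube ℝ) :=
  not_bigD (by rw [mk_real]; exact aleph0_le_continuum) (by rw [mk_real, continuum_power_aleph0])

end Pool.Agent.H706Z.Sigma
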