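import Mathlib
import Pool.Agent.H706Z.Sigma
import Pool.Agent.Helper126.Fact

set_option autoImplicit false

/-!
# Spaces of independent sets of a graph, and Luzin subspaces of them
-/

namespace Pool.Agent.H706Z.Lsq

open Set Filter Topology Cardinal Sigma

variable {I : Type}

/-- the indicator functions of the independent sets of a graph -/
def Ind (E : I → I → Prop) : Set (I → ZMod 2) := {z | ∀ i j, E i j → z i ≠ 0 → z j = 0}

theorem isClosed_Ind (E : I → I → Prop) : IsClosed (Ind E) := by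
  have : Ind E = ⋂ i, ⋂ j, (fun z : I → ZMod 2 => (z i, z j)) ⁻¹'
      {p | E i j → p.1 ≠ 0 → p.2 = 0} := by
    ext z
    simp [Ind]
  rw [this]
  exact isClosed_iInter fun i => isClosed_iInter fun j =>
    (isClosed_discrete _).preimage ((continuous_apply i).prodMk (continuous_apply j))

theorem Ind_mono {E : I → I → Prop} {z w : I → ZMod 2} (hz : z ∈ Ind E)
    (h : ∀ i, w i ≠ 0 → z i ≠ 0) : w ∈ Ind E := fun i j hij hi => by
  by_contra hj
  exact h j hj (hz i j hij (h i hi))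

/-- a point with countable support in countably many given open sets -/
theorem shrink {E : I → I → Prop} {T : Type} [Countable T] (O : T → Set (I → ZMod 2))
    (hO : ∀ t, IsOpen (O t)) {z : I → ZMod 2} (hz : z ∈ Ind E) (hzO : ∀ t, z ∈ O t) :
    ∃ y ∈ Ind E, {i | y i ≠ 0}.Countable ∧ ∀ t, y ∈ O t := by
  classical
  choose s hs1 hs2 using fun t => exists_cyl (hO t) (hzO t)
  have hJ : (⋃ t, ((s t).1 : Set I)).Countable :=
    countable_iUnion fun t => (s t).1.finite_toSet.countable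
  refine ⟨fun i => if i ∈ ⋃ t, ((s t).1 : Set I) then z i else 0, Ind_mono hz fun i hi => ?_,
    hJ.mono fun i hi => ?_, fun t => hs2 t (mem_cyl_congr (fun i hi => ?_) (hs1 t))⟩
  · by_cases h : i ∈ ⋃ t, ((s t).1 : Set I)
    · rwa [if_pos h] at hi
    · rw [if_neg h] at hi
      exact absurd rfl hi
  · by_contra h
    simp only [mem_ofPred_eq, if_neg h] at hi
    exact hi rfl
  · rw [if_pos (mem_iUnion.mpr ⟨t, hi⟩)]

/-- the points that are generic for a sequence of cylinders, relative to a closed set -/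
def genZ (Z : Set (I → ZMod 2)) (P : ℕ → Finset I × Finset I) : Set (I → ZMod 2) :=
  (⋃ k, cyl (P k)) ∪ (closure (Z ∩ ⋃ k, cyl (P k)))ᶜ

theorem isOpen_genZ (Z : Set (I → ZMod 2)) (P : ℕ → Finset I × Finset I) : IsOpen (genZ Z P) :=
  (isOpen_iUnion fun _ => isOpen_cyl _).union isClosed_closure.isOpen_compl

theorem dense_genZ (Z : Set (I → ZMod 2)) (P : ℕ → Finset I × Finset I) :
    Dense ((Subtype.val : Z → I → ZMod 2) ⁻¹' genZ Z P) := by
  rw [dense_iff_inter_open]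
  rintro U hU ⟨z, hz⟩
  obtain ⟨V, hV, rfl⟩ := isOpen_induced_iff.mp hU
  by_cases h : z.1 ∈ closure (Z ∩ ⋃ k, cyl (P k))
  · obtain ⟨w, hw1, hw2, hw3⟩ := mem_closure_iff.mp h V hV hz
    exact ⟨⟨w, hw2⟩, hw1, Or.inl hw3⟩
  · exact ⟨z, hz, Or.inr h⟩

theorem exists_generic (E : I → I → Prop) {T : Type} [Countable T]
    (P : T → ℕ → Finset I × Finset I) (s : Finset I × Finset I) :
    ∃ y ∈ Ind E, {i | y i ≠ 0}.Countable ∧ (∀ t, y ∈ genZ (Ind E) (P t)) ∧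
      ((cyl s ∩ Ind E).Nonempty → y ∈ cyl s) := by
  have : CompactSpace (Ind E) := isCompact_iff_compactSpace.mp (isClosed_Ind E).isCompact
  have hd : Dense (⋂ t, (Subtype.val : Ind E → I → ZMod 2) ⁻¹' genZ (Ind E) (P t)) :=
    dense_iInter_of_isOpen (fun t => (isOpen_genZ _ _).preimage continuous_subtype_val)
      fun t => dense_genZ _ _
  let U : Set (I → ZMod 2) := {y | (cyl s ∩ Ind E).Nonempty → y ∈ cyl s}
  have hU : IsOpen U := by
    by_cases h : (cyl s ∩ Ind E).Nonempty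
    · simpa [U, h] using isOpen_cyl s
    · simp [U, h]
  have hne : ((Subtype.val : Ind E → I → ZMod 2) ⁻¹' U).Nonempty := by
    by_cases h : (cyl s ∩ Ind E).Nonempty
    · obtain ⟨z, h1, h2⟩ := h
      exact ⟨⟨z, h2⟩, fun _ => h1⟩
    · exact ⟨⟨0, fun _ _ _ _ => rfl⟩, fun h' => absurd h' h⟩
  obtain ⟨z, hz1, hz2⟩ := hd.inter_open_nonempty _ (hU.preimage continuous_subtype_val) hne
  obtain ⟨y, h1, h2, h3⟩ := shrink (E := E) (T := Option T)
    (fun t => t.elim U fun t => genZ (Ind E) (P t))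
    (by rintro (_ | t); exacts [hU, isOpen_genZ _ _]) z.2
    (by rintro (_ | t); exacts [hz1, mem_iInter.mp hz2 t])
  exact ⟨y, h1, h2, fun t => h3 (some t), h3 none⟩

/-- the countable chain condition for the traces of the cylinders -/
def Ccc (Z : Set (I → ZMod 2)) : Prop :=
  ∀ T : Set (Finset I × Finset I), (∀ s ∈ T, (cyl s ∩ Z).Nonempty) →
    (T.Pairwise fun s t => Disjoint (cyl s ∩ Z) (cyl t ∩ Z)) → T.Countable

theorem Ccc.dense_union {Z : Set (I → ZMod 2)} (h : Ccc Z) (C : Set (Finset I × Finset I)) :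
    ∃ D ⊆ C, D.Countable ∧ ∀ s ∈ C, cyl s ∩ Z ⊆ closure (Z ∩ ⋃ t ∈ D, cyl t) := by
  obtain ⟨M, hM, hmax⟩ : ∃ M : Set (Finset I × Finset I), Maximal (fun M =>
      (∀ s ∈ M, (cyl s ∩ Z).Nonempty ∧ ∃ t ∈ C, cyl s ⊆ cyl t) ∧
      M.Pairwise fun s t => Disjoint (cyl s ∩ Z) (cyl t ∩ Z)) M := by
    apply zorn_subset
    intro c hc1 hc2
    refine ⟨⋃₀ c, ⟨?_, ?_⟩, fun s hs => subset_sUnion_of_mem hs⟩
    · rintro s ⟨M, hM, hs⟩
      exact (hc1 hM).1 s hs
    · rintro s ⟨M, hM, hs⟩ t ⟨M', hM', ht⟩ hst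
      rcases hc2.total hM hM' with h | h
      · exact (hc1 hM').2 (h hs) ht hst
      · exact (hc1 hM).2 hs (h ht) hst
  have hc := h M (fun s hs => (hM.1 s hs).1) hM.2
  choose! f hf1 hf2 using fun s (hs : s ∈ M) => (hM.1 s hs).2
  refine ⟨f '' M, image_subset_iff.mpr hf1, hc.image f, fun s hs z hz => ?_⟩
  by_contra hcl
  obtain ⟨r, hr1, hr2⟩ := exists_cyl ((isOpen_cyl s).inter isClosed_closure.isOpen_compl)
    (⟨hz.1, hcl⟩ : z ∈ cyl s ∩ (closure (Z ∩ ⋃ t ∈ f '' M, cyl t))ᶜ)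
  have hdis : ∀ t ∈ M, Disjoint (cyl r ∩ Z) (cyl t ∩ Z) := fun t ht =>
    Set.disjoint_left.mpr fun w hw1 hw2 => (hr2 hw1.1).2 (subset_closure
      ⟨hw1.2, mem_iUnion₂.mpr ⟨f t, mem_image_of_mem f ht, hf2 t ht hw2.1⟩⟩)
  have hins : insert r M ⊆ M := by
    refine hmax (y := insert r M) ⟨?_, ?_⟩ (subset_insert _ _)
    · rintro t (rfl | ht)
      · exact ⟨⟨z, hr1, hz.2⟩, s, hs, fun w hw => (hr2 hw).1⟩
      · exact hM.1 t ht
    · exact hM.2.insert fun t ht _ => ⟨hdis t ht, (hdis t ht).symm⟩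
  exact Set.disjoint_left.mp (hdis r (hins (mem_insert _ _))) ⟨hr1, hz.2⟩ ⟨hr1, hz.2⟩

theorem ccc_of_graph {E : I → I → Prop}
    (H : ∀ (T : Set (Finset I × Finset I)) (h : Finset I × Finset I → Finset I), ¬ T.Countable →
      (∀ s ∈ T, ∀ i ∈ h s, ∀ j ∈ h s, ¬ E i j) →
      (∀ s ∈ T, ∀ t ∈ T, s ≠ t → Disjoint (h s) (h t)) →
      ∃ s ∈ T, ∃ t ∈ T, s ≠ t ∧ ∀ i ∈ h s, ∀ j ∈ h t, ¬ E i j ∧ ¬ E j i) : Ccc (Ind E) := by
  classical
  intro T hT hdis
  by_contra hc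
  choose! z hz using hT
  obtain ⟨T1, R, h1, h2, h3, h4⟩ := Helper126.delta_system (fun s : Finset I × Finset I => s.1) T hc
  obtain ⟨v, hv⟩ := Helper126.uncountable_fiber (fun s (i : R) => z s i) T1 h2
  obtain ⟨s, hs, t, ht, hst, hE⟩ := H _ (fun s => s.1.filter fun i => i ∉ R ∧ z s i ≠ 0) hv
    (fun s hs i hi j hj hij => (Finset.mem_filter.mp hj).2.2
      ((hz s (h1 hs.1)).2 i j hij (Finset.mem_filter.mp hi).2.2))
    (fun s hs t ht hst => Finset.disjoint_left.mpr fun i hi hj =>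
      (Finset.mem_filter.mp hi).2.1 (h4 s hs.1 t ht.1 hst i (Finset.mem_filter.mp hi).1
        (Finset.mem_filter.mp hj).1))
  have hR : ∀ i ∈ R, z s i = z t i := fun i hi => congrFun (hs.2.trans ht.2.symm) ⟨i, hi⟩
  let w : I → ZMod 2 := fun i => if i ∈ s.1 then z s i else if i ∈ t.1 then z t i else 0
  have hw1 : ∀ i ∈ s.1, z s i = w i := fun i hi => by simp only [w, if_pos hi]
  have hw2 : ∀ i ∈ t.1, z t i = w i := fun i hi => by
    by_cases h : i ∈ s.1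
    · rw [← hw1 i h, hR i (h4 s hs.1 t ht.1 hst i h hi)]
    · simp only [w, if_neg h, if_pos hi]
  have hw3 : ∀ i, w i ≠ 0 → i ∈ s.1 ∨ i ∈ t.1 := fun i hi => by
    by_contra h
    push Not at h
    simp only [w, if_neg h.1, if_neg h.2] at hi
    exact hi rfl
  have hw4 : ∀ i j, w i ≠ 0 → w j ≠ 0 → i ∈ s.1 → j ∈ t.1 → ¬ E i j ∧ ¬ E j i := by
    intro i j hi hj h5 h6
    by_cases h7 : i ∈ R
    · have h8 := h3 t ht.1 h7
      rw [← hw2 i h8] at hi
      rw [← hw2 j h6] at hj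
      exact ⟨fun h => hj ((hz t (h1 ht.1)).2 i j h hi), fun h => hi ((hz t (h1 ht.1)).2 j i h hj)⟩
    by_cases h8 : j ∈ R
    · have h9 := h3 s hs.1 h8
      rw [← hw1 i h5] at hi
      rw [← hw1 j h9] at hj
      exact ⟨fun h => hj ((hz s (h1 hs.1)).2 i j h hi), fun h => hi ((hz s (h1 hs.1)).2 j i h hj)⟩
    rw [← hw1 i h5] at hi
    rw [← hw2 j h6] at hj
    exact hE i (Finset.mem_filter.mpr ⟨h5, h7, hi⟩) j (Finset.mem_filter.mpr ⟨h6, h8, hj⟩)
  have hw : w ∈ Ind E := by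
    intro i j hij hi
    by_contra hj
    rcases hw3 i hi with h5 | h5 <;> rcases hw3 j hj with h6 | h6
    · rw [← hw1 i h5] at hi
      rw [← hw1 j h6] at hj
      exact hj ((hz s (h1 hs.1)).2 i j hij hi)
    · exact (hw4 i j hi hj h5 h6).1 hij
    · exact (hw4 j i hj hi h6 h5).2 hij
    · rw [← hw2 i h5] at hi
      rw [← hw2 j h6] at hj
      exact hj ((hz t (h1 ht.1)).2 i j hij hi)
  exact Set.disjoint_left.mp (hdis (h1 hs.1) (h1 ht.1) hst)
    ⟨mem_cyl_congr hw1 (hz s (h1 hs.1)).1, hw⟩ ⟨mem_cyl_congr hw2 (hz t (h1 ht.1)).1, hw⟩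

/-- a dense hereditarily Lindelof subspace of points with countable support -/
theorem exists_luzin {Ω : Type} [LinearOrder Ω] (hseg : ∀ a : Ω, (Iic a).Countable)
    (e : Ω → ℕ → Finset I × Finset I) (he : Function.Surjective e) {E : I → I → Prop}
    (hc : Ccc (Ind E)) :
    ∃ X ⊆ Ind E, (∀ x ∈ X, {i | x i ≠ 0}.Countable) ∧
      (∀ s, (cyl s ∩ Ind E).Nonempty → (cyl s ∩ X).Nonempty) ∧ HereditarilyLindelofSpace X := by
  have h : ∀ β : Ω, ∃ y ∈ Ind E, {i | y i ≠ 0}.Countable ∧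
      (∀ γ : Iic β, y ∈ genZ (Ind E) (e γ.1)) ∧
      ((cyl (e β 0) ∩ Ind E).Nonempty → y ∈ cyl (e β 0)) := fun β => by
    have := (hseg β).to_subtype
    exact exists_generic E (fun γ : Iic β => e γ.1) (e β 0)
  choose x hx1 hx2 hx3 hx4 using h
  refine ⟨range x, range_subset_iff.mpr hx1, forall_mem_range.mpr hx2, fun s hs => ?_, ?_⟩
  · obtain ⟨β, hβ⟩ := he fun _ => s
    have h5 : e β 0 = s := congrFun hβ 0
    exact ⟨x β, h5 ▸ hx4 β (h5 ▸ hs), mem_range_self β⟩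
  refine ⟨fun t _ => isLindelof_of_countable_subcover fun {ι} U hU ht => ?_⟩
  rcases t.eq_empty_or_nonempty with rfl | ⟨y₀, hy₀⟩
  · exact ⟨∅, countable_empty, empty_subset _⟩
  have h5 : ∀ y : t, ∃ i s, y.1.1 ∈ cyl s ∧ ∀ w : range x, w.1 ∈ cyl s → w ∈ U i := by
    intro y
    obtain ⟨i, hi⟩ := mem_iUnion.mp (ht y.2)
    obtain ⟨V, hV, h6⟩ := isOpen_induced_iff.mp (hU i)
    obtain ⟨s, h7, h8⟩ := exists_cyl hV (h6.symm.subset hi)
    exact ⟨i, s, h7, fun w hw => h6.subset (h8 hw)⟩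
  choose i s hs1 hs2 using h5
  obtain ⟨D, hD1, hD2, hD3⟩ := hc.dense_union (range s)
  have hmem : ∀ y : range x, y.1 ∈ Ind E := fun y => range_subset_iff.mpr hx1 y.2
  have hne : D.Nonempty := by
    by_contra h
    rw [not_nonempty_iff_eq_empty] at h
    have := hD3 _ ⟨⟨y₀, hy₀⟩, rfl⟩ ⟨hs1 ⟨y₀, hy₀⟩, hmem _⟩
    simp [h] at this
  obtain ⟨u, hu⟩ := hD2.exists_eq_range hne
  have hv : ∀ k, ∃ y : t, s y = u k := fun k => hD1 (hu ▸ mem_range_self k)
  choose v hv using hv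
  obtain ⟨γ, hγ⟩ := he u
  have hcount : {y : t | ∃ β ≤ γ, x β = y.1.1}.Countable := by
    refine Set.Countable.mono ?_ (((hseg γ).image x).preimage
      (Subtype.val_injective.comp Subtype.val_injective))
    rintro y ⟨β, h1, h2⟩
    exact ⟨β, h1, h2⟩
  refine ⟨i '' ({y : t | ∃ β ≤ γ, x β = y.1.1} ∪ range v),
    (hcount.union (countable_range v)).image i, fun y hy => ?_⟩
  obtain ⟨β, hβ⟩ := y.2
  rcases le_total β γ with h | h
  · exact mem_iUnion₂.mpr ⟨i ⟨y, hy⟩, mem_image_of_mem i (Or.inl ⟨β, h, hβ⟩),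
      hs2 ⟨y, hy⟩ y (hs1 ⟨y, hy⟩)⟩
  · have h6 := hx3 β ⟨γ, h⟩
    rw [hβ, hγ] at h6
    rcases h6 with h6 | h6
    · obtain ⟨k, hk⟩ := mem_iUnion.mp h6
      exact mem_iUnion₂.mpr ⟨i (v k), mem_image_of_mem i (Or.inr (mem_range_self k)),
        hs2 (v k) y (by rw [hv k]; exact hk)⟩
    · refine absurd ?_ h6
      have h7 := hD3 _ ⟨⟨y, hy⟩, rfl⟩ ⟨hs1 ⟨y, hy⟩, hmem y⟩
      rwa [hu, biUnion_range] at h7

end Pool.Agent.H706Z.Lsq
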