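import Mathlib

set_option autoImplicit false

/-!
# A well order of type the successor of the continuum, and continuum many disjoint stationary sets
-/

namespace Pool.Agent.H706Z.Ulam

open Set Cardinal

/-- a well order larger than the continuum whose initial segments are not -/
class Big (K : Type) extends LinearOrder K where
  wf : WellFoundedLT K
  large : 𝔠 < #K
  seg : ∀ a : K, #(Iio a) ≤ 𝔠

attribute [instance] Big.wf

theorem exists_big : ∃ K : Type, Nonempty (Big K) := by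
  obtain ⟨_, _, h⟩ := exists_ord_eq_type_lt (Order.succ (𝔠 : Cardinal.{0})).out
  refine ⟨(Order.succ (𝔠 : Cardinal.{0})).out, ⟨{ wf := inferInstance, large := ?_, seg := ?_ }⟩⟩
  · rw [mk_out]
    exact Order.lt_succ _
  · intro a
    have := mk_Iio_lt a h
    rwa [mk_out, Order.lt_succ_iff] at this

variable {K : Type} [Big K]

theorem mk_Iic_le (a : K) : #(Iic a) ≤ 𝔠 := by
  rw [← Iio_insert]
  refine mk_insert_le.trans ?_
  exact (add_le_add (Big.seg a) (one_le_aleph0.trans aleph0_le_continuum)).trans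
    (add_eq_self aleph0_le_continuum).le

theorem bdd {ι : Type} (hι : #ι ≤ 𝔠) (f : ι → K) : ∃ a, ∀ i, f i < a := by
  by_contra h
  push Not at h
  have h1 : (univ : Set K) ⊆ ⋃ i, Iic (f i) := fun a _ => mem_iUnion.mpr (h a)
  have h2 := (mk_le_mk_of_subset h1).trans (mk_iUnion_le _)
  rw [mk_univ] at h2
  have h3 := h2.trans (mul_le_mul' hι (ciSup_le' fun i => mk_Iic_le (f i)))
  rw [continuum_mul_self] at h3
  exact absurd h3 (not_le.mpr Big.large)

theorem bdd_set {ι : Type} {S : Set ι} (hS : #S ≤ 𝔠) (f : ι → K) : ∃ a, ∀ i ∈ S, f i < a := by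
  obtain ⟨a, ha⟩ := bdd hS fun i : S => f i.1
  exact ⟨a, fun i hi => ha ⟨i, hi⟩⟩

theorem bdd_countable {ι : Type} {S : Set ι} (hS : S.Countable) (f : ι → K) :
    ∃ a, ∀ i ∈ S, f i < a :=
  bdd_set (hS.le_aleph0.trans aleph0_le_continuum) f

theorem exists_two (a b : K) : ∃ c, a < c ∧ b < c := by
  obtain ⟨c, hc⟩ := bdd_countable (Set.toFinite ({a, b} : Set K)).countable id
  exact ⟨c, hc a (by simp), hc b (by simp)⟩

theorem exists_lub (u : ℕ → K) : ∃ δ, IsLUB (range u) δ := by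
  obtain ⟨a, ha⟩ := bdd (mk_le_aleph0.trans aleph0_le_continuum) u
  obtain ⟨δ, h1, h2⟩ := (wellFounded_lt (α := K)).has_min (upperBounds (range u))
    ⟨a, by rintro _ ⟨n, rfl⟩; exact (ha n).le⟩
  exact ⟨δ, h1, fun b hb => not_lt.mp (h2 b hb)⟩

/-- `S` contains, for every function, a closure point of countable cofinality -/
def Pos (S : Set K) : Prop :=
  ∀ F : K → K, ∃ δ ∈ S, ∃ u : ℕ → K, (∀ n, u n < δ) ∧ IsLUB (range u) δ ∧ ∀ γ < δ, F γ < δ

theorem Pos.mono {S T : Set K} (h : Pos S) (hST : S ⊆ T) : Pos T := fun F =>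
  let ⟨δ, h1, h2⟩ := h F
  ⟨δ, hST h1, h2⟩

theorem pos_Ioi (a : K) : Pos (Ioi a) := by
  intro F
  have h : ∀ γ : K, ∃ c, γ < c ∧ ∀ β ≤ γ, F β < c := by
    intro γ
    obtain ⟨c, hc⟩ := bdd_set (mk_Iic_le γ) F
    obtain ⟨d, h1, h2⟩ := exists_two γ c
    exact ⟨d, h1, fun β hβ => (hc β hβ).trans h2⟩
  choose G hG1 hG2 using h
  let u : ℕ → K := fun n => G^[n] a
  have hu : ∀ n, u (n + 1) = G (u n) := fun n => Function.iterate_succ_apply' G n a
  obtain ⟨δ, hδ⟩ := exists_lub u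
  have hlt : ∀ n, u n < δ := fun n =>
    (hG1 (u n)).trans_le (by rw [← hu]; exact hδ.1 (mem_range_self _))
  refine ⟨δ, hlt 0, u, hlt, hδ, fun γ hγ => ?_⟩
  obtain ⟨_, ⟨n, rfl⟩, h2, _⟩ := hδ.exists_between hγ
  exact (hG2 (u n) γ h2.le).trans (by rw [← hu]; exact hlt _)

theorem Pos.of_iUnion {ι : Type} (hι : #ι ≤ 𝔠) {S : ι → Set K} (h : Pos (⋃ i, S i)) :
    ∃ i, Pos (S i) := by
  by_contra hne
  simp only [Pos, not_exists, not_forall] at hne
  choose F hF using hne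
  choose G hG using fun γ => bdd hι fun i => F i γ
  obtain ⟨δ, h1, u, h2, h3, h4⟩ := h G
  obtain ⟨i, hi⟩ := mem_iUnion.mp h1
  exact hF i δ ⟨hi, u, h2, h3, fun γ hγ => (hG γ i).trans (h4 γ hγ)⟩

theorem exists_label {Y : Type} [Nonempty Y] (S : Set Y) (hS : #S ≤ 𝔠) :
    ∃ Λ : K → Y, ∀ y ∈ S, Pos {δ | Λ δ = y} := by
  classical
  have hf : ∀ β : K, ∃ f : K → ℝ, InjOn f (Iio β) := by
    intro β
    obtain ⟨e⟩ := (le_def _ _).mp ((Big.seg β).trans mk_real.ge)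
    refine ⟨fun a => if h : a ∈ Iio β then e ⟨a, h⟩ else 0, fun a ha b hb hab => ?_⟩
    simp only [dif_pos ha, dif_pos hb] at hab
    exact congrArg Subtype.val (e.injective hab)
  choose f hf using hf
  have hi : ∀ a : K, ∃ i : ℝ, Pos {β | a < β ∧ f β a = i} := fun a =>
    Pos.of_iUnion mk_real.le ((pos_Ioi a).mono fun β hβ => mem_iUnion.mpr ⟨f β a, hβ, rfl⟩)
  choose i hi using hi
  obtain ⟨r, hr⟩ := infinite_pigeonhole_card_lt i (by rw [mk_real]; exact Big.large)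
    (aleph0_le_continuum.trans Big.large.le)
  rw [mk_real] at hr
  obtain ⟨j⟩ := (le_def _ _).mp (hS.trans hr.le)
  refine ⟨fun δ => if h : ∃ y : S, (j y).1 < δ ∧ f δ (j y).1 = r then h.choose.1
    else Classical.arbitrary Y, fun y hy => (hi (j ⟨y, hy⟩).1).mono fun δ hδ => ?_⟩
  have h1 : (j ⟨y, hy⟩).1 < δ ∧ f δ (j ⟨y, hy⟩).1 = r := ⟨hδ.1, hδ.2.trans (j ⟨y, hy⟩).2⟩
  have h2 : ∃ y : S, (j y).1 < δ ∧ f δ (j y).1 = r := ⟨_, h1⟩
  simp only [mem_ofPred_eq, dif_pos h2]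
  have h3 := hf δ h2.choose_spec.1 h1.1 (h2.choose_spec.2.trans h1.2.symm)
  exact congrArg Subtype.val (j.injective (Subtype.ext h3))

theorem mk_labels : #{y : Set (Set ℝ) | y.Countable ∧ ∀ t ∈ y, t.Countable} ≤ 𝔠 := by
  have h1 : #{t : Set ℝ // #t ≤ ℵ₀} ≤ 𝔠 := by
    refine (mk_bounded_set_le ℝ ℵ₀).trans ?_
    rw [mk_real, max_eq_left aleph0_le_continuum, continuum_power_aleph0]
  have h2 : #{y : Set {t : Set ℝ // #t ≤ ℵ₀} // #y ≤ ℵ₀} ≤ 𝔠 := by
    refine (mk_bounded_set_le _ ℵ₀).trans ?_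
    refine (power_le_power_right (max_le h1 aleph0_le_continuum)).trans ?_
    rw [continuum_power_aleph0]
  refine le_trans ?_ h2
  refine mk_le_of_injective (f := fun y => ⟨Subtype.val ⁻¹' y.1,
    (y.2.1.preimage Subtype.val_injective).le_aleph0⟩) ?_
  intro y z hyz
  have h3 : (Subtype.val ⁻¹' y.1 : Set {t : Set ℝ // #t ≤ ℵ₀}) = Subtype.val ⁻¹' z.1 :=
    congrArg Subtype.val hyz
  refine Subtype.ext (Set.ext fun t => ⟨fun ht => ?_, fun ht => ?_⟩)
  · exact (h3.subset (show (⟨t, (y.2.2 t ht).le_aleph0⟩ : {t : Set ℝ // #t ≤ ℵ₀}) ∈ _ from ht) :)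
  · exact (h3.symm.subset
      (show (⟨t, (z.2.2 t ht).le_aleph0⟩ : {t : Set ℝ // #t ≤ ℵ₀}) ∈ _ from ht) :)

end Pool.Agent.H706Z.Ulam
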