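import Mathlib
import Pool.Agent.H706Z.Ulam

set_option autoImplicit false

/-!
# The tree of labelled closed countable sequences
-/

namespace Pool.Agent.H706Z.Tr

open Set Cardinal Ulam

/-- formal nodes -/
inductive Nd (K : Type) : Type
  | root (a : K) : Nd K
  | succ (p : Nd K) (b : ℝ) (a : K) : Nd K
  | lim (f : ℕ → Nd K) (a : K) : Nd K

variable {K : Type}

/-- the last ordinal -/
def top : Nd K → K
  | .root a => a
  | .succ _ _ a => a
  | .lim _ a => a

/-- strict predecessors -/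
def below : Nd K → Set (Nd K)
  | .root _ => ∅
  | .succ p _ _ => insert p (below p)
  | .lim f _ => ⋃ n, insert (f n) (below (f n))

/-- predecessors -/
def pred (q : Nd K) : Set (Nd K) := insert q (below q)

/-- letters used -/
def letters : Nd K → Set ℝ
  | .root _ => ∅
  | .succ p b _ => insert b (letters p)
  | .lim f _ => ⋃ n, letters (f n)

theorem self_mem (q : Nd K) : q ∈ pred q := mem_insert _ _

theorem below_sub (q : Nd K) : below q ⊆ pred q := subset_insert _ _

theorem below_succ (p : Nd K) (b : ℝ) (a : K) : below (.succ p b a) = pred p := rfl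

theorem below_lim (f : ℕ → Nd K) (a : K) : below (.lim f a) = ⋃ n, pred (f n) := rfl

theorem below_trans {q : Nd K} : ∀ r ∈ below q, pred r ⊆ below q := by
  induction q with
  | root a => exact fun r hr => hr.elim
  | succ p b a ih =>
    rintro r (rfl | hr)
    · exact subset_rfl
    · exact (ih r hr).trans (below_sub p)
  | lim f a ih =>
    intro r hr
    obtain ⟨n, rfl | hn⟩ := mem_iUnion.mp hr
    · exact subset_iUnion (fun n => pred (f n)) n
    · exact ((ih n r hn).trans (below_sub _)).trans (subset_iUnion (fun n => pred (f n)) n)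

theorem pred_trans {s r q : Nd K} (h1 : s ∈ pred r) (h2 : r ∈ pred q) : s ∈ pred q := by
  rcases h2 with rfl | h2
  · exact h1
  · exact below_sub q (below_trans r h2 h1)

theorem countable_below (q : Nd K) : (below q).Countable := by
  induction q with
  | root a => exact countable_empty
  | succ p b a ih => exact ih.insert p
  | lim f a ih => exact countable_iUnion fun n => (ih n).insert _

theorem countable_pred (q : Nd K) : (pred q).Countable := (countable_below q).insert q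

theorem countable_letters (q : Nd K) : (letters q).Countable := by
  induction q with
  | root a => exact countable_empty
  | succ p b a ih => exact ih.insert b
  | lim f a ih => exact countable_iUnion ih

theorem letters_below {q : Nd K} : ∀ s ∈ below q, letters s ⊆ letters q := by
  induction q with
  | root a => exact fun r hr => hr.elim
  | succ p b a ih =>
    rintro r (rfl | hr)
    · exact subset_insert _ _
    · exact (ih r hr).trans (subset_insert _ _)
  | lim f a ih =>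
    intro r hr
    obtain ⟨n, rfl | hn⟩ := mem_iUnion.mp hr
    · exact subset_iUnion (fun n => letters (f n)) n
    · exact (ih n r hn).trans (subset_iUnion (fun n => letters (f n)) n)

theorem letters_mono {s q : Nd K} (h : s ∈ pred q) : letters s ⊆ letters q := by
  rcases h with rfl | h
  · exact subset_rfl
  · exact letters_below s h

theorem pred_mono_seq {f : ℕ → Nd K} (h : ∀ n, f n ∈ below (f (n + 1))) :
    Monotone fun n => pred (f n) :=
  monotone_nat_of_le_succ fun n => (below_trans _ (h n)).trans (below_sub _)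

variable [Big K] (Λ : K → Set (Set ℝ))

/-- admissible nodes -/
def Valid : Nd K → Prop
  | .root _ => True
  | .succ p _ a => Valid p ∧ top p < a
  | .lim f a => (∀ n, Valid (f n)) ∧ (∀ n, f n ∈ below (f (n + 1))) ∧
      IsLUB (range fun n => top (f n)) a ∧ Λ a = letters '' (⋃ n, pred (f n))

variable {Λ}

theorem valid_below {q : Nd K} : Valid Λ q → ∀ s ∈ below q, Valid Λ s ∧ top s < top q := by
  induction q with
  | root a => exact fun _ r hr => hr.elim
  | succ p b a ih =>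
    rintro ⟨h1, h2⟩ r (rfl | hr)
    · exact ⟨h1, h2⟩
    · exact ⟨(ih h1 r hr).1, (ih h1 r hr).2.trans h2⟩
  | lim f a ih =>
    rintro ⟨h1, h2, h3, -⟩ r hr
    obtain ⟨n, hn⟩ := mem_iUnion.mp hr
    have h4 := ih (n + 1) (h1 _) r (below_trans _ (h2 n) hn)
    exact ⟨h4.1, h4.2.trans_le (h3.1 ⟨n + 1, rfl⟩)⟩

theorem valid_pred {q s : Nd K} (hq : Valid Λ q) (hs : s ∈ pred q) : Valid Λ s := by
  rcases hs with rfl | hs
  · exact hq
  · exact (valid_below hq s hs).1

theorem top_le {q s : Nd K} (hq : Valid Λ q) (hs : s ∈ pred q) : top s ≤ top q := by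
  rcases hs with rfl | hs
  · exact le_rfl
  · exact (valid_below hq s hs).2.le

theorem chain {q : Nd K} : Valid Λ q → ∀ s ∈ pred q, ∀ r ∈ pred q, s ∈ pred r ∨ r ∈ pred s := by
  have key : ∀ q : Nd K, (∀ s ∈ below q, ∀ r ∈ below q, s ∈ pred r ∨ r ∈ pred s) →
      ∀ s ∈ pred q, ∀ r ∈ pred q, s ∈ pred r ∨ r ∈ pred s := by
    rintro q h s (rfl | hs) r hr
    · exact Or.inr hr
    · rcases hr with rfl | hr
      · exact Or.inl (below_sub _ hs)
      · exact h s hs r hr
  induction q with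
  | root a => exact fun _ => key _ fun r hr => hr.elim
  | succ p b a ih => exact fun h => key _ (ih h.1)
  | lim f a ih =>
    rintro ⟨h1, h2, -⟩
    refine key _ fun s hs r hr => ?_
    obtain ⟨n, hn⟩ := mem_iUnion.mp hs
    obtain ⟨m, hm⟩ := mem_iUnion.mp hr
    exact ih (max n m) (h1 _) s (pred_mono_seq h2 (le_max_left n m) hn) r
      (pred_mono_seq h2 (le_max_right n m) hm)

theorem le_of_top_le {q s r : Nd K} (hq : Valid Λ q) (hs : s ∈ pred q) (hr : r ∈ pred q)
    (h : top s ≤ top r) : s ∈ pred r := by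
  rcases chain hq s hs r hr with h1 | rfl | h1
  · exact h1
  · exact self_mem _
  · exact absurd (valid_below (valid_pred hq hs) r h1).2 (not_lt.mpr h)

theorem lt_of_top_lt {q s r : Nd K} (hq : Valid Λ q) (hs : s ∈ pred q) (hr : r ∈ pred q)
    (h : top s < top r) : s ∈ below r := by
  rcases le_of_top_le hq hs hr h.le with rfl | h1
  · exact absurd h (lt_irrefl _)
  · exact h1

theorem eq_of_top_eq {q s r : Nd K} (hq : Valid Λ q) (hs : s ∈ pred q) (hr : r ∈ pred q)
    (h : top s = top r) : s = r := by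
  rcases le_of_top_le hq hs hr h.le with h1 | h1
  · exact h1
  · exact absurd (valid_below (valid_pred hq hr) s h1).2 (not_lt.mpr h.ge)

theorem closed {q : Nd K} : Valid Λ q → ∀ (s : ℕ → Nd K) (δ : K), (∀ n, s n ∈ pred q) →
    (∀ n, top (s n) < top (s (n + 1))) → IsLUB (range fun n => top (s n)) δ →
    Λ δ = letters '' {r | r ∈ pred q ∧ top r < δ} := by
  have key : ∀ q : Nd K, Valid Λ q → ∀ s : ℕ → Nd K, (∀ n, s n ∈ pred q) →
      (∀ n, top (s n) < top (s (n + 1))) → ∀ n, s n ∈ below q := fun q hq s h1 h2 n =>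
    lt_of_top_lt hq (h1 n) (self_mem q) ((h2 n).trans_le (top_le hq (h1 _)))
  have key2 : ∀ q p : Nd K, Valid Λ q → p ∈ pred q → ∀ δ, δ ≤ top p →
      {r | r ∈ pred p ∧ top r < δ} = {r | r ∈ pred q ∧ top r < δ} := by
    intro q p hq hp δ hδ
    ext r
    exact ⟨fun h => ⟨pred_trans h.1 hp, h.2⟩,
      fun h => ⟨le_of_top_le hq h.1 hp (h.2.le.trans hδ), h.2⟩⟩
  induction q with
  | root a => exact fun h s δ h1 h2 _ => (key _ h s h1 h2 0).elim
  | succ p b a ih =>
    intro h s δ h1 h2 h3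
    have h4 := key _ h s h1 h2
    rw [ih h.1 s δ h4 h2 h3, key2 _ p h (below_sub _ (self_mem p)) δ
      (h3.2 (by rintro _ ⟨n, rfl⟩; exact top_le h.1 (h4 n)))]
  | lim f a ih =>
    intro h s δ h1 h2 h3
    have h4 := key _ h s h1 h2
    have hf : ∀ n, f n ∈ below (.lim f a) := fun n => mem_iUnion.mpr ⟨n, self_mem _⟩
    by_cases h5 : ∃ n, ∀ j, s j ∈ pred (f n)
    · obtain ⟨n, hn⟩ := h5
      rw [ih n (h.1 n) s δ hn h2 h3, key2 _ (f n) h (below_sub _ (hf n)) δ
        (h3.2 (by rintro _ ⟨j, rfl⟩; exact top_le (h.1 n) (hn j)))]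
    · push Not at h5
      have h6 : δ = a := by
        apply le_antisymm
        · exact h3.2 (by rintro _ ⟨j, rfl⟩; exact top_le h (h1 j))
        · refine h.2.2.1.2 ?_
          rintro _ ⟨n, rfl⟩
          obtain ⟨j, hj⟩ := h5 n
          refine le_trans ?_ (h3.1 ⟨j, rfl⟩)
          by_contra h7
          exact hj (le_of_top_le h (h1 j) (below_sub _ (hf n)) (not_le.mp h7).le)
      rw [h6, h.2.2.2]
      congr 1
      ext r
      constructor
      · intro hr
        exact ⟨below_sub _ hr, (valid_below h r hr).2⟩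
      · rintro ⟨h7, h8⟩
        exact lt_of_top_lt h h7 (self_mem _) h8

/-- the admissible nodes as a type -/
def Sp (Λ : K → Set (Set ℝ)) : Type := {q : Nd K // Valid Λ q}

theorem exists_ext (p : Sp Λ) (a : K) :
    ∃ q : Sp Λ, p.1 ∈ below q.1 ∧ a < top q.1 := by
  obtain ⟨c, h1, h2⟩ := exists_two (top p.1) a
  exact ⟨⟨.succ p.1 0 c, p.2, h1⟩, self_mem _, h2⟩

section distributive

variable (D : ℕ → Set (Sp Λ))

/-- plays that obey the bound `φ` and have label `y` -/
def Play (φ : Sp Λ → K) (y : Set (Set ℝ)) (g : ℕ → Sp Λ) : Prop :=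
  (∀ n, (g n).1 ∈ below (g (n + 1)).1) ∧ (∀ k, ∃ n, g n ∈ D k) ∧
    (∀ n, φ (g n) < top (g (n + 1)).1) ∧ letters '' (⋃ n, pred (g n).1) = y

/-- winning positions -/
def Win (y : Set (Set ℝ)) (p : Sp Λ) : Prop := ∀ φ : Sp Λ → K, ∃ g, g 0 = p ∧ Play D φ y g

variable {D}

theorem exists_win (hd : ∀ k (p : Sp Λ), ∃ q ∈ D k, p.1 ∈ pred q.1) (p : Sp Λ) :
    ∃ y : Set (Set ℝ), (y.Countable ∧ ∀ t ∈ y, t.Countable) ∧ Win D y p := by
  by_contra h
  have h1 : ∀ y : {y : Set (Set ℝ) | y.Countable ∧ ∀ t ∈ y, t.Countable},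
      ∃ φ : Sp Λ → K, ∀ g, g 0 = p → ¬ Play D φ y.1 g := by
    intro y
    by_contra h2
    push Not at h2
    exact h ⟨y.1, y.2, h2⟩
  choose φ hφ using h1
  choose ψ hψ using fun s : Sp Λ => bdd mk_labels fun y => φ y s
  have hstep : ∀ (n : ℕ) (q : Sp Λ), ∃ r ∈ D n, q.1 ∈ below r.1 ∧ ψ q < top r.1 := by
    intro n q
    obtain ⟨r, h2, h3⟩ := exists_ext q (ψ q)
    obtain ⟨r', h4, h5⟩ := hd n r
    refine ⟨r', h4, ?_, h3.trans_le (top_le r'.2 h5)⟩
    exact lt_of_top_lt r'.2 (pred_trans (below_sub _ h2) h5) (self_mem _)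
      ((valid_below r.2 _ h2).2.trans_le (top_le r'.2 h5))
  choose G hG1 hG2 hG3 using hstep
  let g : ℕ → Sp Λ := fun n => Nat.rec p (fun n q => G n q) n
  refine hφ ⟨letters '' (⋃ n, pred (g n).1), (countable_iUnion fun n => countable_pred _).image _,
    ?_⟩ g rfl ⟨fun n => hG2 n (g n), fun k => ⟨k + 1, hG1 k (g k)⟩,
      fun n => (hψ _ _).trans (hG3 n (g n)), rfl⟩
  rintro _ ⟨s, _, rfl⟩
  exact countable_letters s

theorem Win.sub {y : Set (Set ℝ)} {p : Sp Λ} (h : Win D y p) : letters '' pred p.1 ⊆ y := by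
  obtain ⟨g, h1, -, -, -, h2⟩ := h fun _ => top p.1
  rw [← h2, ← h1]
  exact image_mono (subset_iUnion (fun n => pred (g n).1) 0)

theorem Win.step (ho : ∀ k (p q : Sp Λ), p ∈ D k → p.1 ∈ pred q.1 → q ∈ D k) {y : Set (Set ℝ)}
    {p : Sp Λ} (h : Win D y p) (k : ℕ) (a : K) {t : Set ℝ} (ht : t ∈ y) :
    ∃ q : Sp Λ, Win D y q ∧ p.1 ∈ below q.1 ∧ q ∈ D k ∧ a < top q.1 ∧ t ∈ letters '' pred q.1 := by
  by_contra hne
  have h1 : ∀ q : Sp Λ, ∃ φ : Sp Λ → K, (p.1 ∈ below q.1 ∧ q ∈ D k ∧ a < top q.1 ∧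
      t ∈ letters '' pred q.1) → ∀ g, g 0 = q → ¬ Play D φ y g := by
    intro q
    by_cases h2 : Win D y q
    · exact ⟨fun _ => a, fun h3 => (hne ⟨q, h2, h3⟩).elim⟩
    · simp only [Win, not_forall, not_exists, not_and] at h2
      obtain ⟨φ, hφ⟩ := h2
      exact ⟨φ, fun _ => hφ⟩
  choose φ hφ using h1
  have h2 : ∀ s : Sp Λ, ∃ c, a < c ∧ ∀ q : Sp Λ, q.1 ∈ pred s.1 → φ q s < c := by
    intro s
    obtain ⟨c, hc⟩ := bdd_countable ((countable_pred s.1).preimage
      (Subtype.val_injective (p := Valid Λ))) fun q => φ q s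
    obtain ⟨d, h3, h4⟩ := exists_two a c
    exact ⟨d, h3, fun q hq => (hc q hq).trans h4⟩
  choose ψ hψ1 hψ2 using h2
  obtain ⟨g, hg0, hg1, hg2, hg3, hg4⟩ := h ψ
  have hmono := pred_mono_seq (f := fun n => (g n).1) hg1
  obtain ⟨n₁, hn₁⟩ := hg2 k
  obtain ⟨s, hs, hst⟩ := hg4.symm.subset ht
  obtain ⟨n₂, hn₂⟩ := mem_iUnion.mp hs
  set n := max n₁ n₂ with hn
  have hp : p.1 ∈ below (g (n + 1)).1 := by
    rw [← hg0]
    exact below_trans _ (hg1 n) (hmono (Nat.zero_le n) (self_mem _))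
  refine hφ (g (n + 1)) ⟨hp, ho k _ _ hn₁ (hmono (by omega) (self_mem _)),
    (hψ1 _).trans (hg3 n), s, hmono (by omega) hn₂, hst⟩ (fun j => g (n + 1 + j)) rfl
    ⟨fun j => hg1 (n + 1 + j), fun k' => ?_, fun j => ?_, ?_⟩
  · obtain ⟨m, hm⟩ := hg2 k'
    exact ⟨m, ho k' _ _ hm (hmono (by omega) (self_mem _))⟩
  · exact (hψ2 _ _ (hmono (by omega) (self_mem _))).trans (hg3 (n + 1 + j))
  · rw [← hg4]
    congr 1
    apply Subset.antisymm
    · exact iUnion_subset fun j => subset_iUnion (fun n => pred (g n).1) (n + 1 + j)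
    · exact iUnion_subset fun j => (hmono (show j ≤ n + 1 + j by omega)).trans
        (subset_iUnion (fun j => pred (g (n + 1 + j)).1) j)

theorem distributive
    (hΛ : ∀ y : Set (Set ℝ), (y.Countable ∧ ∀ t ∈ y, t.Countable) → Pos {δ | Λ δ = y})
    (ho : ∀ k (p q : Sp Λ), p ∈ D k → p.1 ∈ pred q.1 → q ∈ D k)
    (hd : ∀ k (p : Sp Λ), ∃ q ∈ D k, p.1 ∈ pred q.1) (p : Sp Λ) : ∃ r : Sp Λ, ∀ k, r ∈ D k := by
  obtain ⟨y, hy, hp⟩ := exists_win hd p
  obtain ⟨t, ht⟩ := hy.1.exists_eq_range ⟨_, hp.sub ⟨_, self_mem _, rfl⟩⟩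
  have hstep : ∀ (q : {q : Sp Λ // Win D y q}) (k : ℕ) (a : K), ∃ r : {q : Sp Λ // Win D y q},
      q.1.1 ∈ below r.1.1 ∧ r.1 ∈ D k ∧ a < top r.1.1 ∧ t k ∈ letters '' pred r.1.1 := by
    intro q k a
    obtain ⟨r, h1, h2⟩ := q.2.step ho k a (t := t k) (ht ▸ mem_range_self k)
    exact ⟨⟨r, h1⟩, h2⟩
  choose G hG1 hG2 hG3 hG4 using hstep
  let reach : List K → {q : Sp Λ // Win D y q} := fun l =>
    List.rec ⟨p, hp⟩ (fun a l q => G q l.length a) l
  have hF : ∀ γ : K, ∃ c, ∀ l : List K, (∀ a ∈ l, a ≤ γ) → top (reach l).1.1 < c := by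
    intro γ
    obtain ⟨c, hc⟩ := bdd ((mk_list_le_max (Iic γ)).trans
      (max_le aleph0_le_continuum (mk_Iic_le γ))) fun l => top (reach (l.map Subtype.val)).1.1
    refine ⟨c, fun l hl => ?_⟩
    have := hc (l.pmap Subtype.mk hl)
    rwa [List.map_pmap, List.pmap_eq_map, List.map_id'] at this
  choose F hF using hF
  obtain ⟨δ, hδ, u, hu1, hu2, hu3⟩ := hΛ y hy F
  let l : ℕ → List K := fun n => Nat.rec [] (fun n l => u n :: l) n
  have hlen : ∀ n, (l n).length = n := by
    intro n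
    induction n with
    | zero => rfl
    | succ n ih => exact congrArg (· + 1) ih
  have hbd : ∀ n, ∃ γ < δ, ∀ a ∈ l n, a ≤ γ := by
    intro n
    induction n with
    | zero => exact ⟨u 0, hu1 0, fun a ha => by simp [l] at ha⟩
    | succ n ih =>
      obtain ⟨γ, h1, h2⟩ := ih
      refine ⟨max γ (u n), max_lt h1 (hu1 n), fun a ha => ?_⟩
      rcases List.mem_cons.mp ha with rfl | ha
      · exact le_max_right _ _
      · exact (h2 a ha).trans (le_max_left _ _)
  let g : ℕ → {q : Sp Λ // Win D y q} := fun n => reach (l n)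
  have hg : ∀ n, g (n + 1) = G (g n) n (u n) := fun n => by
    conv_rhs => rw [← hlen n]
    rw [hlen n]
    change G (g n) (l n).length (u n) = _
    rw [hlen n]
  have h1 : ∀ n, (g n).1.1 ∈ below (g (n + 1)).1.1 := fun n => by rw [hg]; exact hG1 _ _ _
  refine ⟨⟨.lim (fun n => (g n).1.1) δ, fun n => (g n).1.2, h1, ⟨?_, fun c hc => hu2.2 ?_⟩, ?_⟩,
    fun k => ho k (g (k + 1)).1 _ (by rw [hg]; exact hG2 _ _ _)
      (below_sub _ (mem_iUnion.mpr ⟨k + 1, self_mem _⟩))⟩
  · rintro _ ⟨n, rfl⟩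
    obtain ⟨γ, h2, h3⟩ := hbd n
    exact ((hF γ _ h3).trans (hu3 γ h2)).le
  · rintro _ ⟨n, rfl⟩
    refine le_trans ?_ (hc ⟨n + 1, rfl⟩)
    simp only [hg]
    exact (hG3 _ _ _).le
  · rw [show Λ δ = y from hδ]
    apply Subset.antisymm
    · intro x hx
      obtain ⟨k, rfl⟩ := ht.subset hx
      have := hG4 (g k) k (u k)
      rw [← hg] at this
      exact image_mono (subset_iUnion (fun n => pred (g n).1.1) (k + 1)) this
    · rintro _ ⟨s, hs, rfl⟩
      obtain ⟨n, hn⟩ := mem_iUnion.mp hs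
      exact (g n).2.sub ⟨s, hn, rfl⟩

end distributive

end Pool.Agent.H706Z.Tr
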