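import Mathlib
import Pool.Agent.H706Z.Tree
import Pool.Agent.H706Z.DSepDefs

set_option autoImplicit false

/-!
# The tree space is not d-separable, and its square is D-separable
-/

namespace Pool.Agent.H706Z.Tr

open Set Cardinal Ulam Topology

theorem bigD_of_piBase {X : Type} [TopologicalSpace X] (B : ℕ → Set (Set X))
    (h1 : ∀ n, (B n).PairwiseDisjoint id) (h2 : ∀ n, ∀ U ∈ B n, IsOpen U ∧ U.Nonempty)
    (h3 : ∀ V : Set X, IsOpen V → V.Nonempty → ∃ n, ∃ U ∈ B n, U ⊆ V) : BigDSeparable X := by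
  intro D hD
  have h : ∀ n, ∀ U : B n, ∃ x, x ∈ U.1 ∩ D n := fun n U =>
    (hD n).inter_open_nonempty _ (h2 n _ U.2).1 (h2 n _ U.2).2
  choose x hx using h
  refine ⟨fun n => range (x n), fun n => ⟨?_, ?_⟩, ?_⟩
  · rintro _ ⟨U, rfl⟩
    exact (hx n U).2
  · rw [← isDiscrete_iff_discreteTopology, isDiscrete_iff_forall_mem_exists_isOpen]
    rintro _ ⟨U, rfl⟩
    refine ⟨U.1, (h2 n _ U.2).1, ?_⟩
    ext z
    constructor
    · rintro ⟨h4, V, rfl⟩
      by_cases hUV : U = V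
      · rw [hUV]; rfl
      · exact absurd (hx n V).1 (Set.disjoint_left.mp
          (h1 n U.2 V.2 fun h => hUV (Subtype.ext h)) h4)
    · rintro rfl
      exact ⟨(hx n U).1, mem_range_self U⟩
  · rw [dense_iff_inter_open]
    intro V hV hne
    obtain ⟨n, U, hU, hUV⟩ := h3 V hV hne
    exact ⟨x n ⟨U, hU⟩, hUV (hx n ⟨U, hU⟩).1, mem_iUnion.mpr ⟨n, mem_range_self _⟩⟩

variable {K : Type} [Big K] {Λ : K → Set (Set ℝ)}

open Classical in
/-- a node as the indicator function of its set of predecessors -/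
noncomputable def emb (q : Sp Λ) : Nd K → Bool := fun s => decide (s ∈ pred q.1)

noncomputable instance : TopologicalSpace (Sp Λ) := TopologicalSpace.induced emb inferInstance

theorem emb_injective : Function.Injective (emb (Λ := Λ)) := by
  intro p q h
  have h1 : ∀ s, s ∈ pred p.1 ↔ s ∈ pred q.1 := fun s => by
    have := congrFun h s
    simpa [emb] using this
  refine Subtype.ext (eq_of_top_eq q.2 ((h1 _).mp (self_mem _)) (self_mem _) ?_)
  exact le_antisymm (top_le q.2 ((h1 _).mp (self_mem _))) (top_le p.2 ((h1 _).mpr (self_mem _)))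

theorem t35 : T35Space (Sp Λ) :=
  (show IsEmbedding (emb (Λ := Λ)) from ⟨⟨rfl⟩, emb_injective⟩).t35Space

/-- the cone above a node -/
def cone (p : Sp Λ) : Set (Sp Λ) := {q | p.1 ∈ pred q.1}

theorem isOpen_cone (p : Sp Λ) : IsOpen (cone p) := by
  have : cone p = emb ⁻¹' ((fun f : Nd K → Bool => f p.1) ⁻¹' {true}) := by
    ext q
    simp [cone, emb]
  rw [this]
  exact isOpen_induced ((isOpen_discrete _).preimage (continuous_apply _))

theorem exists_letter {T : Set ℝ} (hT : T.Countable) : ∃ b, b ∉ T := by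
  by_contra h
  push Not at h
  exact not_countable_real (hT.mono fun b _ => h b)

theorem exists_cone {U : Set (Sp Λ)} (hU : IsOpen U) {q : Sp Λ} (hq : q ∈ U) :
    ∃ r : Sp Λ, q.1 ∈ below r.1 ∧ cone r ⊆ U := by
  obtain ⟨V, hV, rfl⟩ := isOpen_induced_iff.mp hU
  obtain ⟨S, u, h1, h2⟩ := isOpen_pi_iff.mp hV _ hq
  obtain ⟨b, hb⟩ := exists_letter (S.finite_toSet.countable.biUnion
    fun s _ => countable_letters s)
  obtain ⟨a, ha, -⟩ := exists_two (top q.1) (top q.1)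
  refine ⟨⟨.succ q.1 b a, q.2, ha⟩, self_mem _, fun r hr => h2 fun s hs => ?_⟩
  have hbs : b ∉ letters s := fun h => hb (mem_biUnion hs h)
  have : emb r s = emb q s := by
    simp only [emb, decide_eq_decide]
    constructor
    · intro h
      rcases chain r.2 s h _ hr with (rfl | h3) | h3
      · exact absurd (mem_insert _ _) hbs
      · exact h3
      · exact absurd (letters_mono h3 (mem_insert _ _)) hbs
    · exact fun h => pred_trans (below_sub (.succ q.1 b a) h) hr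
  rw [this]
  exact (h1 s hs).2

theorem not_littleD
    (hΛ : ∀ y : Set (Set ℝ), (y.Countable ∧ ∀ t ∈ y, t.Countable) → Pos {δ | Λ δ = y}) :
    ¬ LittleDSeparable (Sp Λ) := by
  rintro ⟨E, hE, hd⟩
  obtain ⟨a⟩ : Nonempty K := mk_ne_zero_iff.mp (continuum_pos.trans Big.large).ne'
  obtain ⟨r, hr⟩ := distributive (D := fun k => {p : Sp Λ | Disjoint (cone p) (E k)}) hΛ
    (fun k p q hp hpq => Disjoint.mono_left (fun r hr => pred_trans hpq hr) hp)
    (fun k p => by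
      by_cases h : Disjoint (cone p) (E k)
      · exact ⟨p, h, self_mem _⟩
      obtain ⟨q, hq1, hq2⟩ := Set.not_disjoint_iff.mp h
      obtain ⟨U, hU, hUE⟩ := isDiscrete_iff_forall_mem_exists_isOpen.mp
        (isDiscrete_iff_discreteTopology.mpr (hE k)) q hq2
      obtain ⟨r, h1, h2⟩ := exists_cone hU (hUE.symm.subset rfl).1
      refine ⟨r, Set.disjoint_left.mpr fun s hs hsE => ?_, pred_trans hq1 (below_sub _ h1)⟩
      have : s = q := hUE.subset ⟨h2 hs, hsE⟩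
      subst this
      exact absurd (valid_below r.2 _ h1).2 (not_lt.mpr (top_le s.2 hs)))
    ⟨.root a, trivial⟩
  obtain ⟨s, hs1, hs2⟩ := hd.inter_open_nonempty _ (isOpen_cone r) ⟨r, self_mem _⟩
  obtain ⟨k, hk⟩ := mem_iUnion.mp hs2
  exact Set.disjoint_left.mp (hr k) hs1 hk

/-- pairs of nodes above which the labels never agree -/
def Sep (p p' : Sp Λ) : Prop :=
  ∀ (q q' : Sp Λ) (δ : K), p.1 ∈ pred q.1 → p'.1 ∈ pred q'.1 → top p.1 < δ → top p'.1 < δ →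
    letters '' {r | r ∈ pred q.1 ∧ top r < δ} ≠ letters '' {r | r ∈ pred q'.1 ∧ top r < δ}

/-- alternation points -/
def Spec (x : Sp Λ × Sp Λ) : Prop :=
  top x.1.1 < top x.2.1 ∧ (∀ s ∈ below x.2.1, top s ≤ top x.1.1) ∧
    (∃ s' ∈ below x.2.1, top s' < top x.1.1 ∧ ∀ s ∈ below x.1.1, top s < top s') ∧ Sep x.1 x.2

/-- alternation points below a pair -/
def Alt (y : Sp Λ × Sp Λ) : Set (Sp Λ × Sp Λ) :=
  {x | Spec x ∧ x.1.1 ∈ pred y.1.1 ∧ x.2.1 ∈ pred y.2.1}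

theorem alt_le {y x z : Sp Λ × Sp Λ} (hx : x ∈ Alt y) (hz : z ∈ Alt y)
    (h : top x.1.1 ≤ top z.1.1) : x.1.1 ∈ pred z.1.1 ∧ x.2.1 ∈ pred z.2.1 := by
  refine ⟨le_of_top_le y.1.2 hx.2.1 hz.2.1 h, le_of_top_le y.2.2 hx.2.2 hz.2.2 ?_⟩
  by_contra h1
  have h2 := hx.1.2.1 _ (lt_of_top_lt y.2.2 hz.2.2 hx.2.2 (not_le.mp h1))
  exact absurd (hz.1.1.trans_le (h2.trans h)) (lt_irrefl _)

theorem alt_inj {y x z : Sp Λ × Sp Λ} (hx : x ∈ Alt y) (hz : z ∈ Alt y)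
    (h : top x.1.1 = top z.1.1) : x = z := by
  refine Prod.ext (Subtype.ext (eq_of_top_eq y.1.2 hx.2.1 hz.2.1 h))
    (Subtype.ext (eq_of_top_eq y.2.2 hx.2.2 hz.2.2 (le_antisymm ?_ ?_)))
  · exact top_le z.2.2 (alt_le hx hz h.le).2
  · exact top_le x.2.2 (alt_le hz hx h.ge).2

theorem alt_lt {y x z : Sp Λ × Sp Λ} (hx : x ∈ Alt y) (hz : z ∈ Alt y)
    (h : top x.1.1 < top z.1.1) : top x.2.1 < top z.1.1 := by
  obtain ⟨s', h1, h2, h3⟩ := hz.1.2.2.1
  have h4 := h3 _ (lt_of_top_lt y.1.2 hx.2.1 hz.2.1 h)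
  refine lt_of_le_of_lt ?_ h2
  by_contra h5
  have h6 := hx.1.2.1 _ (lt_of_top_lt y.2.2 (pred_trans (below_sub _ h1) hz.2.2) hx.2.2
    (not_le.mp h5))
  exact absurd h4 (not_lt.mpr h6)

theorem alt_finite (y : Sp Λ × Sp Λ) : (Alt y).Finite := by
  by_contra h
  have h1 : ((fun x : Sp Λ × Sp Λ => top x.1.1) '' Alt y).Infinite :=
    Set.Infinite.image (fun x hx z hz hxz => alt_inj hx hz hxz) h
  have := h1.to_subtype
  obtain ⟨f, hf | hf⟩ := Infinite.exists_strictMono_or_strictAnti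
    ((fun x : Sp Λ × Sp Λ => top x.1.1) '' Alt y)
  swap
  · exact not_strictAnti_of_wellFoundedLT f hf
  choose x hx1 hx2 using fun n => (f n).2
  have h2 : ∀ n, top (x n).1.1 < top (x (n + 1)).1.1 := fun n => by
    have h3 : (f n).1 < (f (n + 1)).1 := hf (Nat.lt_succ_self n)
    rwa [← hx2, ← hx2] at h3
  have h3 : ∀ n, top (x n).2.1 < top (x (n + 1)).1.1 := fun n => alt_lt (hx1 _) (hx1 _) (h2 n)
  have h4 : ∀ n, top (x n).1.1 < top (x n).2.1 := fun n => (hx1 n).1.1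
  obtain ⟨δ, hδ⟩ := exists_lub fun n => top (x n).1.1
  have hδ' : IsLUB (range fun n => top (x n).2.1) δ := by
    constructor
    · rintro _ ⟨n, rfl⟩
      exact (h3 n).le.trans (hδ.1 ⟨n + 1, rfl⟩)
    · refine fun c hc => hδ.2 ?_
      rintro _ ⟨n, rfl⟩
      exact (h4 n).le.trans (hc ⟨n, rfl⟩)
  have e1 := closed y.1.2 (fun n => (x n).1.1) δ (fun n => (hx1 n).2.1) h2 hδ
  have e2 := closed y.2.2 (fun n => (x n).2.1) δ (fun n => (hx1 n).2.2)
    (fun n => (h3 n).trans (h4 _)) hδ'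
  exact (hx1 0).1.2.2.2 y.1 y.2 δ (hx1 0).2.1 (hx1 0).2.2 ((h2 0).trans_le (hδ.1 ⟨1, rfl⟩))
    ((h3 0).trans_le (hδ.1 ⟨1, rfl⟩)) (e1.symm.trans e2)

theorem alt_eq {y x z : Sp Λ × Sp Λ} (hx : x ∈ Alt y) (hz : z ∈ Alt y)
    (h : top x.1.1 ≤ top z.1.1) (hc : (Alt x).ncard = (Alt z).ncard) : x = z := by
  obtain ⟨h1, h2⟩ := alt_le hx hz h
  have h3 : Alt x = Alt z := eq_of_subset_of_ncard_le
    (fun w hw => ⟨hw.1, pred_trans hw.2.1 h1, pred_trans hw.2.2 h2⟩) hc.ge (alt_finite z)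
  have h4 : z ∈ Alt x := h3.symm.subset ⟨hz.1, self_mem _, self_mem _⟩
  exact alt_inj hx hz (le_antisymm h (top_le x.1.2 h4.2.1))

theorem exists_spec (p p' : Sp Λ) :
    ∃ x : Sp Λ × Sp Λ, Spec x ∧ p.1 ∈ pred x.1.1 ∧ p'.1 ∈ pred x.2.1 := by
  obtain ⟨b, hb⟩ := exists_letter (countable_letters p'.1)
  obtain ⟨b', hb'⟩ := exists_letter ((countable_letters p.1).insert b)
  obtain ⟨a, ha, -⟩ := exists_two (top p.1) (top p.1)
  obtain ⟨a', ha1, ha2⟩ := exists_two (top p'.1) a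
  obtain ⟨c, hc, -⟩ := exists_two a' a'
  obtain ⟨c', hc', -⟩ := exists_two c c
  let s : Sp Λ := ⟨.succ p.1 b a, p.2, ha⟩
  let s' : Sp Λ := ⟨.succ p'.1 b' a', p'.2, ha1⟩
  let r : Sp Λ := ⟨.succ s.1 0 c, s.2, ha2.trans hc⟩
  let r' : Sp Λ := ⟨.succ s'.1 0 c', s'.2, hc.trans hc'⟩
  refine ⟨(r, r'), ⟨hc', fun w hw => (top_le s'.2 hw).trans hc.le,
    ⟨s'.1, self_mem _, hc, fun w hw => (top_le s.2 hw).trans_lt ha2⟩, ?_⟩,
    below_sub _ (below_sub _ (self_mem _)), below_sub _ (below_sub _ (self_mem _))⟩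
  intro q q' δ h1 h2 h3 _ h
  have hs : s.1 ∈ pred q.1 := pred_trans (below_sub _ (self_mem _)) h1
  have hs' : s'.1 ∈ pred q'.1 := pred_trans (below_sub _ (self_mem _)) h2
  obtain ⟨w, hw1, hw2⟩ := h.subset ⟨s.1, ⟨hs, (ha2.trans hc).trans h3⟩, rfl⟩
  have hw3 : b' ∉ letters w := by rw [hw2]; exact hb'
  rcases chain q'.2 w hw1.1 _ hs' with (rfl | h5) | h5
  · exact hw3 (mem_insert _ _)
  · exact hb (letters_mono h5 (by rw [hw2]; exact mem_insert _ _))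
  · exact hw3 (letters_mono h5 (mem_insert _ _))

theorem bigD_square : BigDSeparable (Sp Λ × Sp Λ) := by
  refine bigD_of_piBase
    (fun n => (fun x : Sp Λ × Sp Λ => cone x.1 ×ˢ cone x.2) '' {x | Spec x ∧ (Alt x).ncard = n})
    ?_ ?_ ?_
  · rintro n _ ⟨x, hx, rfl⟩ _ ⟨z, hz, rfl⟩ hne
    refine Set.disjoint_left.mpr fun y hy1 hy2 => hne ?_
    have h1 : x ∈ Alt y := ⟨hx.1, hy1.1, hy1.2⟩
    have h2 : z ∈ Alt y := ⟨hz.1, hy2.1, hy2.2⟩
    rcases le_total (top x.1.1) (top z.1.1) with h | h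
    · rw [alt_eq h1 h2 h (hx.2.trans hz.2.symm)]
    · rw [alt_eq h2 h1 h (hz.2.trans hx.2.symm)]
  · rintro n _ ⟨x, -, rfl⟩
    exact ⟨(isOpen_cone _).prod (isOpen_cone _), x, self_mem _, self_mem _⟩
  · rintro V hV ⟨y, hy⟩
    obtain ⟨U, U', hU, hU', h1, h2, h3⟩ := isOpen_prod_iff.mp hV y.1 y.2 hy
    obtain ⟨p, -, hp⟩ := exists_cone hU h1
    obtain ⟨p', -, hp'⟩ := exists_cone hU' h2
    obtain ⟨x, h4, h5, h6⟩ := exists_spec p p'
    exact ⟨_, _, ⟨x, ⟨h4, rfl⟩, rfl⟩, fun w hw =>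
      h3 ⟨hp (pred_trans h5 hw.1), hp' (pred_trans h6 hw.2)⟩⟩

theorem main : ∃ (X : Type) (_ : TopologicalSpace X), T35Space X ∧ ¬ LittleDSeparable X ∧
    BigDSeparable (X × X) := by
  obtain ⟨K, ⟨_⟩⟩ := exists_big
  obtain ⟨Λ, hΛ⟩ := exists_label (K := K) _ mk_labels
  exact ⟨Sp Λ, inferInstance, t35, not_littleD hΛ, bigD_square⟩

end Pool.Agent.H706Z.Tr
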