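import Mathlib
import Pool.Agent.H706Z.LsqA
import Pool.Agent.H706Z.Square

set_option autoImplicit false

/-!
# Under CH, an L-space whose square has a base of countably many disjoint layers
-/

namespace Pool.Agent.H706Z.Lsq

open Set Filter Topology Cardinal Pool.Agent.H706Z.Sigma

theorem diag {Ω T : Type} [Countable T] (A : T → ℕ → Finset Ω) (N : T → Set ℕ)
    (i : T → ZMod 2) : ∃ g : Ω → ZMod 2, ∀ t, Pairwise (fun m n => Disjoint (A t m) (A t n)) →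
      (N t).Infinite → {n ∈ N t | ∀ x ∈ A t n, g x = i t}.Infinite := by
  classical
  let O : T × ℕ → Set (Ω → ZMod 2) := fun p => {g |
    Pairwise (fun m n => Disjoint (A p.1 m) (A p.1 n)) → (N p.1).Infinite →
      ∃ n ∈ N p.1, p.2 < n ∧ ∀ x ∈ A p.1 n, g x = i p.1}
  have hO : ∀ p, IsOpen (O p) := by
    intro p
    rw [isOpen_iff_mem_nhds]
    intro g hg
    by_cases h : Pairwise (fun m n => Disjoint (A p.1 m) (A p.1 n)) ∧ (N p.1).Infinite
    · obtain ⟨n, h1, h2, h3⟩ := hg h.1 h.2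
      have : ∀ᶠ w in 𝓝 g, ∀ x ∈ A p.1 n, w x = g x := by
        rw [eventually_all_finset]
        intro x _
        exact ((isOpen_discrete {g x}).preimage
          (continuous_apply x : Continuous fun w : Ω → ZMod 2 => w x)).mem_nhds rfl
      filter_upwards [this] with w hw _ _
      exact ⟨n, h1, h2, fun x hx => (hw x hx).trans (h3 x hx)⟩
    · exact univ_mem' fun w h1 h2 => absurd ⟨h1, h2⟩ h
  have hD : ∀ p, Dense (O p) := by
    intro p
    rw [dense_iff_inter_open]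
    rintro U hU ⟨b, hb⟩
    by_cases h : Pairwise (fun m n => Disjoint (A p.1 m) (A p.1 n)) ∧ (N p.1).Infinite
    swap
    · exact ⟨b, hb, fun h1 h2 => absurd ⟨h1, h2⟩ h⟩
    obtain ⟨s, h1, h2⟩ := exists_cyl hU hb
    have hfin : (⋃ x ∈ s.1, {n | x ∈ A p.1 n}).Finite :=
      s.1.finite_toSet.biUnion fun x _ => Set.Subsingleton.finite fun m hm n hn => by
        by_contra hmn
        exact Finset.disjoint_left.mp (h.1 hmn) hm hn
    obtain ⟨n, hn1, hn2⟩ := (h.2.sdiff (hfin.union (finite_le_nat p.2))).nonempty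
    refine ⟨fun x => if x ∈ A p.1 n then i p.1 else b x, h2 (mem_cyl_congr (fun x hx => ?_) h1),
      fun _ _ => ⟨n, hn1, not_le.mp fun h3 => hn2 (Or.inr h3), fun x hx => if_pos hx⟩⟩
    exact (if_neg fun h3 => hn2 (Or.inl (mem_iUnion₂.mpr ⟨x, hx, h3⟩))).symm
  obtain ⟨g, hg⟩ := (dense_iInter_of_isOpen hO hD).nonempty
  refine ⟨g, fun t h1 h2 => Set.infinite_of_forall_exists_gt fun k => ?_⟩
  obtain ⟨n, h3, h4, h5⟩ := mem_iInter.mp hg (t, k) h1 h2
  exact ⟨n, ⟨h3, h5⟩, h4⟩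

variable {Ω : Type} [LinearOrder Ω] [WellFoundedLT Ω]

theorem galvin (hseg : ∀ a : Ω, (Iic a).Countable) (e : Ω → ℕ → Finset Ω) :
    ∃ c : Ω → Ω → ZMod 2, ∀ γ, Pairwise (fun m n => Disjoint (e γ m) (e γ n)) →
      ∀ (σ : Ω → ZMod 2) (F : Finset Ω), (∀ β ∈ F, γ < β) →
        {n | ∀ β ∈ F, ∀ x ∈ e γ n, c β x = σ β}.Infinite := by
  classical
  obtain ⟨c, hc⟩ := exists_rec (S := Ω) (α := Ω → ZMod 2) (· < ·) wellFounded_lt
    (fun α f g => ∀ t : Iio α × Finset (Iio α × ZMod 2) × ZMod 2,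
      Pairwise (fun m n => Disjoint (e t.1.1 m) (e t.1.1 n)) →
      {n | ∀ p ∈ t.2.1, ∀ x ∈ e t.1.1 n, f p.1.1 p.1.2 x = p.2}.Infinite →
      {n ∈ {n | ∀ p ∈ t.2.1, ∀ x ∈ e t.1.1 n, f p.1.1 p.1.2 x = p.2} |
        ∀ x ∈ e t.1.1 n, g x = t.2.2}.Infinite) (by
      intro α f
      have : Countable (Iio α) := ((hseg α).mono Iio_subset_Iic_self).to_subtype
      exact diag _ _ _)
  refine ⟨c, fun γ hγ σ F => ?_⟩
  induction F using Finset.induction_on_max with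
  | empty => exact fun _ => by simpa using infinite_univ
  | insert α F hF ih =>
    intro h
    have h1 := ih fun β hβ => h β (Finset.mem_insert_of_mem hβ)
    have h2 := hc α (⟨γ, h α (Finset.mem_insert_self _ _)⟩,
      F.attach.image (fun β => (⟨β.1, hF β.1 β.2⟩, σ β.1)), σ α) hγ (h1.mono fun n hn p hp => by
        obtain ⟨β, -, rfl⟩ := Finset.mem_image.mp hp
        exact hn β.1 β.2)
    refine h2.mono fun n hn β hβ => ?_
    rcases Finset.mem_insert.mp hβ with rfl | hβ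
    · exact hn.2
    · exact hn.1 (⟨β, hF β hβ⟩, σ β)
        (Finset.mem_image.mpr ⟨⟨β, hβ⟩, Finset.mem_attach _ _, rfl⟩)

/-- the conflict graph of a colouring and a partition -/
def Edge (c : Ω → Ω → ZMod 2) (π : Ω → ℕ) (p q : Ω × ZMod 2) : Prop :=
  π p.1 = π q.1 ∧ (p.2 ≠ q.2 ∨ (p.1 < q.1 ∧ c q.1 p.1 ≠ p.2))

theorem bdd (hseg : ∀ a : Ω, (Iic a).Countable) (hunc : ¬ (univ : Set Ω).Countable)
    {D : Set Ω} (hD : D.Countable) : ∃ b, ∀ x ∈ D, x < b := by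
  by_contra h
  push Not at h
  refine hunc ((hD.biUnion fun x _ => hseg x).mono fun b _ => ?_)
  obtain ⟨x, h1, h2⟩ := h b
  exact mem_iUnion₂.mpr ⟨x, h1, h2⟩

theorem ccc_edge (hseg : ∀ a : Ω, (Iic a).Countable) (hunc : ¬ (univ : Set Ω).Countable)
    {e : Ω → ℕ → Finset Ω} (he : Function.Surjective e) {c : Ω → Ω → ZMod 2}
    (hc : ∀ γ, Pairwise (fun m n => Disjoint (e γ m) (e γ n)) →
      ∀ (σ : Ω → ZMod 2) (F : Finset Ω), (∀ β ∈ F, γ < β) →
        {n | ∀ β ∈ F, ∀ x ∈ e γ n, c β x = σ β}.Infinite) (π : Ω → ℕ) :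
    Ccc (Ind (Edge c π)) := by
  classical
  refine ccc_of_graph fun T h hT h1 h2 => ?_
  obtain ⟨Q, hQ⟩ := Helper126.uncountable_fiber
    (fun s => (h s).image fun p => (π p.1, p.2)) T hT
  set T' := {s ∈ T | ((h s).image fun p => (π p.1, p.2)) = Q} with hT'
  have hfun : ∀ s ∈ T', ∀ t ∈ T', ∀ p ∈ h s, ∀ q ∈ h t, π p.1 = π q.1 → p.2 = q.2 := by
    intro s hs t ht p hp q hq hpq
    have h3 : (π q.1, q.2) ∈ (h s).image fun p => (π p.1, p.2) := by
      rw [hs.2, ← ht.2]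
      exact Finset.mem_image_of_mem _ hq
    obtain ⟨r, hr1, hr2⟩ := Finset.mem_image.mp h3
    by_contra hne
    refine h1 s hs.1 p hp r hr1 ⟨hpq.trans (congrArg Prod.fst hr2).symm, Or.inl ?_⟩
    rwa [show r.2 = q.2 from (Prod.ext_iff.mp hr2).2]
  have hinf : T'.Infinite := fun h => hQ h.countable
  let u := hinf.natEmbedding
  obtain ⟨γ, hγ⟩ := he fun n => (h (u n).1).image Prod.fst
  have hpw : Pairwise (fun m n => Disjoint (e γ m) (e γ n)) := by
    intro m n hmn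
    rw [hγ]
    refine Finset.disjoint_left.mpr fun x h3 h4 => ?_
    obtain ⟨p, hp, rfl⟩ := Finset.mem_image.mp h3
    obtain ⟨q, hq, h5⟩ := Finset.mem_image.mp h4
    have h6 : q = p := Prod.ext h5 (hfun _ (u n).2 _ (u m).2 q hq p hp (congrArg π h5))
    refine Finset.disjoint_left.mp (h2 _ (u m).2.1 _ (u n).2.1 fun h7 => ?_) hp (h6 ▸ hq)
    exact hmn (u.injective (Subtype.ext h7))
  obtain ⟨δ, hδ⟩ := bdd hseg hunc (D := insert γ (⋃ n, (e γ n : Set Ω)))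
    ((countable_iUnion fun n => (e γ n).finite_toSet.countable).insert γ)
  have hbad : (⋃ p ∈ Iic δ ×ˢ (univ : Set (ZMod 2)), {s ∈ T | p ∈ h s}).Countable :=
    ((hseg δ).prod countable_univ).biUnion fun p _ => Set.Subsingleton.countable
      fun s hs t ht => by
        by_contra hst
        exact Finset.disjoint_left.mp (h2 s hs.1 t ht.1 hst) hs.2 ht.2
  obtain ⟨t, ht1, ht2⟩ : ∃ t ∈ T', t ∉ (⋃ p ∈ Iic δ ×ˢ (univ : Set (ZMod 2)), {s ∈ T | p ∈ h s}) ∪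
      range fun n => (u n).1 := by
    by_contra h3
    push Not at h3
    exact hQ ((hbad.union (countable_range _)).mono h3)
  have hgt : ∀ q ∈ h t, δ < q.1 := fun q hq => not_le.mp fun h3 =>
    ht2 (Or.inl (mem_iUnion₂.mpr ⟨q, ⟨h3, mem_univ _⟩, ht1.1, hq⟩))
  obtain ⟨n, hn⟩ := (hc γ hpw (fun β => if (β, 1) ∈ h t then 1 else 0) ((h t).image Prod.fst)
    (fun β hβ => by
      obtain ⟨q, hq, rfl⟩ := Finset.mem_image.mp hβ
      exact (hδ γ (mem_insert _ _)).trans (hgt q hq))).nonempty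
  refine ⟨(u n).1, (u n).2.1, t, ht1.1, fun h3 => ht2 (Or.inr ⟨n, h3⟩), fun p hp q hq => ?_⟩
  have h4 : p.1 ∈ e γ n := by
    rw [hγ]
    exact Finset.mem_image_of_mem _ hp
  have h5 : p.1 < q.1 :=
    (hδ p.1 (Or.inr (mem_iUnion.mpr ⟨n, h4⟩))).trans (hgt q hq)
  constructor
  · rintro ⟨h6, h7 | h7⟩
    · exact h7 (hfun _ (u n).2 _ ht1 p hp q hq h6)
    · refine h7.2 ?_
      rw [hn q.1 (Finset.mem_image_of_mem _ hq) p.1 h4, hfun _ (u n).2 _ ht1 p hp q hq h6]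
      by_cases h8 : (q.1, 1) ∈ h t
      · simp only [if_pos h8]
        exact hfun _ ht1 _ ht1 _ h8 q hq rfl
      · simp only [if_neg h8]
        have h9 : q.2 ≠ 1 := fun h9 => h8 (h9 ▸ hq)
        revert h9
        generalize q.2 = a
        revert a
        decide
  · rintro ⟨h6, h7 | h7⟩
    · exact h7 (hfun _ ht1 _ (u n).2 q hq p hp h6)
    · exact absurd h5 h7.1.not_gt

theorem extend {c : Ω → Ω → ZMod 2} {π : Ω → ℕ} {s : Finset (Ω × ZMod 2) × Finset (Ω × ZMod 2)}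
    {z : Ω × ZMod 2 → ZMod 2} (h1 : z ∈ cyl s) (h2 : z ∈ Ind (Edge c π)) (p : Ω × ZMod 2)
    (hp : ∀ q ∈ s.1, π q.1 ≠ π p.1) : ∃ w ∈ cyl s, w ∈ Ind (Edge c π) ∧ w p ≠ 0 := by
  classical
  have hps : p ∉ s.1 := fun h => hp p h rfl
  let w : Ω × ZMod 2 → ZMod 2 := fun q => if q ∈ s.1 then z q else if q = p then 1 else 0
  have hw : ∀ q, w q ≠ 0 → (q ∈ s.1 ∧ z q ≠ 0) ∨ q = p := by
    intro q hq
    by_cases h : q ∈ s.1
    · simp only [w, if_pos h] at hq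
      exact Or.inl ⟨h, hq⟩
    · by_contra h3
      push Not at h3
      simp only [w, if_neg h, if_neg h3.2] at hq
      exact hq rfl
  refine ⟨w, mem_cyl_congr (fun q hq => by simp only [w, if_pos hq]) h1, ?_, by simp [w, hps]⟩
  intro i j hij hi
  by_contra hj
  rcases hw i hi with h3 | rfl <;> rcases hw j hj with h4 | h4
  · exact h4.2 (h2 i j hij h3.2)
  · exact hp i h3.1 (h4 ▸ hij.1)
  · exact hp j h4.1 hij.1.symm
  · subst h4
    rcases hij.2 with h | h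
    · exact h rfl
    · exact lt_irrefl _ h.1

theorem main_of_surj (hseg : ∀ a : Ω, (Iic a).Countable) (hunc : ¬ (univ : Set Ω).Countable)
    (e : Ω → ℕ → Finset Ω) (he : Function.Surjective e)
    (e' : Ω → ℕ → Finset (Ω × ZMod 2) × Finset (Ω × ZMod 2)) (he' : Function.Surjective e')
    (ρ : Ω → ℕ × (Finset (Ω × ZMod 2) × Finset (Ω × ZMod 2)) ×
      (Finset (Ω × ZMod 2) × Finset (Ω × ZMod 2))) (hρ : Function.Surjective ρ) :
    ∃ (X : Type) (_ : TopologicalSpace X), T35Space X ∧ HereditarilyLindelofSpace X ∧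
      ¬ TopologicalSpace.SeparableSpace X ∧ BigDSeparable (X × X) := by
  classical
  obtain ⟨c, hc⟩ := galvin hseg e
  let π : Ω → ℕ := fun a => (ρ a).1
  obtain ⟨X, hX1, hX2, hX3, hX4⟩ := exists_luzin hseg e' he' (ccc_edge hseg hunc he hc π)
  have hdense : ∀ U : Set (Ω × ZMod 2 → ZMod 2), IsOpen U → ∀ z ∈ U, z ∈ Ind (Edge c π) →
      ∃ x : X, x.1 ∈ U := by
    intro U hU z h1 h2
    obtain ⟨s, h3, h4⟩ := exists_cyl hU h1
    obtain ⟨x, h5, h6⟩ := hX3 s ⟨z, h3, h2⟩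
    exact ⟨⟨x, h6⟩, h4 h5⟩
  have hopen : ∀ p : Ω × ZMod 2, IsOpen {z : Ω × ZMod 2 → ZMod 2 | z p ≠ 0} := fun p =>
    (isOpen_discrete {a : ZMod 2 | a ≠ 0}).preimage
      (continuous_apply p : Continuous fun w : Ω × ZMod 2 → ZMod 2 => w p)
  refine ⟨X, inferInstance, inferInstance, hX4, fun hsep => ?_, ?_⟩
  · obtain ⟨D, hD1, hD2⟩ := hsep.exists_countable_dense
    obtain ⟨a, ha⟩ := bdd hseg hunc ((hD1.biUnion fun x _ => hX2 x.1 x.2).image Prod.fst)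
    obtain ⟨w, -, h1, h2⟩ := extend (c := c) (π := π) (s := (∅, ∅)) (z := 0)
      (fun _ h => absurd h (Finset.notMem_empty _)) (fun _ _ _ _ => rfl) (a, 0)
      (fun _ h => absurd h (Finset.notMem_empty _))
    obtain ⟨x, hx1, hx2⟩ := hD2.inter_open_nonempty _
      ((hopen (a, 0)).preimage continuous_subtype_val) (hdense _ (hopen (a, 0)) w h2 h1)
    exact lt_irrefl a (ha a ⟨(a, 0), mem_iUnion₂.mpr ⟨x, hx2, hx1⟩, rfl⟩)
  let box : Ω → Set (X × X) := fun a =>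
    (Subtype.val ⁻¹' (cyl (ρ a).2.1 ∩ {z | z (a, 0) ≠ 0})) ×ˢ
      (Subtype.val ⁻¹' (cyl (ρ a).2.2 ∩ {z | z (a, 1) ≠ 0}))
  have hlt : ∀ a b, π a = π b → a < b → Disjoint (box a) (box b) := by
    intro a b h1 h2
    refine Set.disjoint_left.mpr fun y h3 h4 => ?_
    by_cases h : c b a = 0
    · refine h4.2.2 (hX1 y.2.2 (a, 1) (b, 1) ⟨h1, Or.inr ⟨h2, ?_⟩⟩ h3.2.2)
      rw [h]
      exact zero_ne_one
    · exact h4.1.2 (hX1 y.1.2 (a, 0) (b, 0) ⟨h1, Or.inr ⟨h2, h⟩⟩ h3.1.2)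
  refine Tr.bigD_of_piBase (fun m => box '' {a | π a = m ∧ (box a).Nonempty}) ?_ ?_ ?_
  · rintro m _ ⟨a, ha, rfl⟩ _ ⟨b, hb, rfl⟩ hne
    rcases lt_trichotomy a b with h | h | h
    · exact hlt a b (ha.1.trans hb.1.symm) h
    · exact absurd (congrArg box h) hne
    · exact (hlt b a (hb.1.trans ha.1.symm) h).symm
  · rintro m _ ⟨a, ha, rfl⟩
    exact ⟨(((isOpen_cyl _).inter (hopen _)).preimage continuous_subtype_val).prod
      (((isOpen_cyl _).inter (hopen _)).preimage continuous_subtype_val), ha.2⟩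
  · rintro V hV ⟨y, hy⟩
    obtain ⟨U, U', hU, hU', h1, h2, h3⟩ := isOpen_prod_iff.mp hV y.1 y.2 hy
    obtain ⟨W, hW, rfl⟩ := isOpen_induced_iff.mp hU
    obtain ⟨W', hW', rfl⟩ := isOpen_induced_iff.mp hU'
    obtain ⟨s, hs1, hs2⟩ := exists_cyl hW h1
    obtain ⟨t, ht1, ht2⟩ := exists_cyl hW' h2
    obtain ⟨m, hm⟩ := Infinite.exists_notMem_finset ((s.1 ∪ t.1).image fun q => π q.1)
    obtain ⟨a, ha⟩ := hρ (m, s, t)
    have hπ : π a = m := congrArg Prod.fst ha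
    have hs : (ρ a).2.1 = s := by rw [ha]
    have ht : (ρ a).2.2 = t := by rw [ha]
    obtain ⟨w, hw1, hw2, hw3⟩ := extend hs1 (hX1 y.1.2) (a, 0) fun q hq h => hm
      (Finset.mem_image.mpr ⟨q, Finset.mem_union_left _ hq, h.trans hπ⟩)
    obtain ⟨w', hw1', hw2', hw3'⟩ := extend ht1 (hX1 y.2.2) (a, 1) fun q hq h => hm
      (Finset.mem_image.mpr ⟨q, Finset.mem_union_right _ hq, h.trans hπ⟩)
    obtain ⟨x, hx⟩ := hdense _ ((isOpen_cyl s).inter (hopen (a, 0))) w ⟨hw1, hw3⟩ hw2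
    obtain ⟨x', hx'⟩ := hdense _ ((isOpen_cyl t).inter (hopen (a, 1))) w' ⟨hw1', hw3'⟩ hw2'
    refine ⟨m, box a, ⟨a, ⟨hπ, (x, x'), ?_⟩, rfl⟩, fun v hv => h3 ⟨hs2 ?_, ht2 ?_⟩⟩
    · exact ⟨⟨hs ▸ hx.1, hx.2⟩, ⟨ht ▸ hx'.1, hx'.2⟩⟩
    · exact hs ▸ hv.1.1
    · exact ht ▸ hv.2.1

theorem main (hCH : aleph.{0} 1 = continuum) :
    ∃ (X : Type) (_ : TopologicalSpace X), T35Space X ∧ HereditarilyLindelofSpace X ∧
      ¬ TopologicalSpace.SeparableSpace X ∧ BigDSeparable (X × X) := by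
  let Om : Type := (ℵ₁ : Cardinal.{0}).ord.ToType
  have hmk : #Om = ℵ₁ := mk_ord_toType _
  have hc : #Om = 𝔠 := hmk.trans hCH
  have hinf : ℵ₀ ≤ #Om := hc ▸ aleph0_le_continuum
  have : Infinite Om := infinite_iff.mpr hinf
  have hseg : ∀ a : Om, (Iic a).Countable := by
    intro a
    have h1 : #(Iio a) < #Om := mk_Iio_lt a (by simp [Om])
    rw [hmk] at h1
    rw [← Iio_insert]
    exact ((countable_iff_lt_aleph_one _).mpr h1).insert a
  have hunc : ¬ (univ : Set Om).Countable := by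
    rw [countable_iff_lt_aleph_one, mk_univ, hmk]
    exact lt_irrefl _
  have h1 : #(Om × ZMod 2) = 𝔠 := by
    rw [mk_prod, lift_id, lift_id, hc, mk_fintype]
    simp
  have : Infinite (Om × ZMod 2) := inferInstance
  have h2 : #(Finset (Om × ZMod 2) × Finset (Om × ZMod 2)) = 𝔠 := by
    rw [mk_prod, lift_id, mk_finset_of_infinite, h1, continuum_mul_self]
  obtain ⟨e⟩ := Cardinal.eq.mp (show #Om = #(ℕ → Finset Om) by
    simp only [mk_pi, prod_const, lift_id, mk_finset_of_infinite, mk_nat, hc,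
      continuum_power_aleph0])
  obtain ⟨e'⟩ := Cardinal.eq.mp
    (show #Om = #(ℕ → Finset (Om × ZMod 2) × Finset (Om × ZMod 2)) by
      simp only [mk_pi, prod_const, lift_id, mk_nat, hc, h2, continuum_power_aleph0])
  obtain ⟨ρ⟩ := Cardinal.eq.mp (show #Om = #(ℕ × (Finset (Om × ZMod 2) × Finset (Om × ZMod 2)) ×
      (Finset (Om × ZMod 2) × Finset (Om × ZMod 2))) by
    rw [mk_prod, mk_prod (Finset (Om × ZMod 2) × Finset (Om × ZMod 2)), h2, hc]
    simp)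
  exact main_of_surj hseg hunc e e.surjective e' e'.surjective ρ ρ.surjective

end Pool.Agent.H706Z.Lsq
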