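import Mathlib
import Pool.Agent.H706Z.LsqB

set_option autoImplicit false

/-!
# A compact space built from an almost disjoint family of clopen subsets of a sum of convergent
sequences, and its continuous two-valued functions
-/

namespace Pool.Agent.H706Z.Cpt

open Set Filter Topology Pool.Agent.H706Z.Sigma

/-- an almost disjoint family of clopen subsets of a sum of convergent sequences -/
structure Fam (N P : Type) where
  a : P → N × Option ℕ → ZMod 2
  conv : ∀ p σ, ∀ᶠ j in atTop, a p (σ, some j) = a p (σ, none)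
  ad : ∀ p q, p ≠ q → ∃ S : Set N, S.Finite ∧ ∀ l, l.1 ∉ S → a p l = 0 ∨ a q l = 0

variable {N P : Type} (A : Fam N P)

/-- the points of the space -/
def X (_A : Fam N P) : Type := Option ((N × Option ℕ) ⊕ P)

/-- the point at infinity -/
def inf : X A := none

/-- a point of the sum of convergent sequences -/
def pl (l : N × Option ℕ) : X A := some (Sum.inl l)

/-- a point attached to a member of the family -/
def pp (p : P) : X A := some (Sum.inr p)

theorem cases (x : X A) : x = inf A ∨ (∃ l, x = pl A l) ∨ ∃ p, x = pp A p := by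
  rcases x with _ | l | p
  exacts [Or.inl rfl, Or.inr (Or.inl ⟨l, rfl⟩), Or.inr (Or.inr ⟨p, rfl⟩)]

open Classical in
/-- the generating functions -/
noncomputable def gen : (N × Option ℕ) ⊕ P → X A → ZMod 2
  | _, none => 0
  | Sum.inl l, some (Sum.inl m) => if m.1 = l.1 ∧ (l.2 = none ∨ m.2 = l.2) then 1 else 0
  | Sum.inl _, some (Sum.inr _) => 0
  | Sum.inr p, some (Sum.inl m) => A.a p m
  | Sum.inr p, some (Sum.inr q) => if q = p then 1 else 0

@[simp] theorem gen_inf (c : (N × Option ℕ) ⊕ P) : gen A c (inf A) = 0 := by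
  rcases c with l | p <;> rfl

@[simp] theorem gen_lp (l : N × Option ℕ) (q : P) : gen A (Sum.inl l) (pp A q) = 0 := rfl

@[simp] theorem gen_pl (p : P) (m : N × Option ℕ) : gen A (Sum.inr p) (pl A m) = A.a p m := rfl

theorem gen_ll (l m : N × Option ℕ) :
    gen A (Sum.inl l) (pl A m) ≠ 0 ↔ m.1 = l.1 ∧ (l.2 = none ∨ m.2 = l.2) := by
  simp only [gen, pl]
  split_ifs with h <;> simp [h]

theorem gen_pp (p q : P) : gen A (Sum.inr p) (pp A q) ≠ 0 ↔ q = p := by
  simp only [gen, pp]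
  split_ifs with h <;> simp [h]

noncomputable instance : TopologicalSpace (X A) :=
  TopologicalSpace.induced (fun x c => gen A c x) inferInstance

theorem inducing : IsInducing (fun (x : X A) c => gen A c x) := ⟨rfl⟩

theorem cont_gen (c : (N × Option ℕ) ⊕ P) : Continuous (gen A c) :=
  (continuous_apply c).comp (inducing A).continuous

theorem ev_gen (c : (N × Option ℕ) ⊕ P) (x : X A) : ∀ᶠ y in 𝓝 x, gen A c y = gen A c x :=
  ((isOpen_discrete {gen A c x}).preimage (cont_gen A c)).mem_nhds rfl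

theorem basic {U : Set (X A)} {x : X A} (hU : U ∈ 𝓝 x) :
    ∃ J : Finset ((N × Option ℕ) ⊕ P), ∀ y, (∀ c ∈ J, gen A c y = gen A c x) → y ∈ U := by
  obtain ⟨V, hV1, hV2, hV3⟩ := mem_nhds_iff.mp hU
  obtain ⟨W, hW, rfl⟩ := isOpen_induced_iff.mp hV2
  obtain ⟨s, h1, h2⟩ := exists_cyl hW hV3
  exact ⟨s.1, fun y hy => hV1 (h2 (mem_cyl_congr (fun c hc => (hy c hc).symm) h1))⟩

theorem injective : Function.Injective (fun (x : X A) c => gen A c x) := by
  intro x y h
  have h1 : ∀ c, gen A c x = gen A c y := congrFun h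
  have hl : ∀ l : N × Option ℕ, gen A (Sum.inl l) (pl A l) ≠ 0 := fun l =>
    (gen_ll A l l).mpr ⟨rfl, Or.inr rfl⟩
  have hp : ∀ p : P, gen A (Sum.inr p) (pp A p) ≠ 0 := fun p => (gen_pp A p p).mpr rfl
  rcases cases A x with rfl | ⟨l, rfl⟩ | ⟨p, rfl⟩ <;>
    rcases cases A y with rfl | ⟨m, rfl⟩ | ⟨q, rfl⟩
  · rfl
  · exact absurd ((h1 _).symm.trans (gen_inf A _)) (hl m)
  · exact absurd ((h1 _).symm.trans (gen_inf A _)) (hp q)
  · exact absurd ((h1 _).trans (gen_inf A _)) (hl l)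
  · have h2 := (gen_ll A l m).mp (h1 _ ▸ hl l)
    have h3 := (gen_ll A m l).mp ((h1 _).symm ▸ hl m)
    refine congrArg (pl A) (Prod.ext h3.1 ?_)
    rcases h2.2 with h4 | h4
    · rcases h3.2 with h5 | h5
      · rw [h4, h5]
      · exact h5
    · exact h4.symm
  · exact absurd (h1 _) (hl l)
  · exact absurd ((h1 _).trans (gen_inf A _)) (hp p)
  · exact absurd (h1 _).symm (hl m)
  · rw [(gen_pp A p q).mp (h1 _ ▸ hp p)]

theorem embedding : IsEmbedding (fun (x : X A) c => gen A c x) := ⟨inducing A, injective A⟩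

instance : T2Space (X A) := (embedding A).t2Space

instance : TotallyDisconnectedSpace (X A) :=
  ⟨isTotallyDisconnected_of_image (inducing A).continuous.continuousOn (injective A)
    (isTotallyDisconnected_of_totallyDisconnectedSpace _)⟩

theorem isClopen_ne (c : (N × Option ℕ) ⊕ P) : IsClopen {x | gen A c x ≠ 0} :=
  (isClopen_discrete {a : ZMod 2 | a ≠ 0}).preimage (cont_gen A c)

theorem compact_of {K : Set (X A)} (hK : IsClosed K) (z : X A)
    (h : ∀ c, ∃ C, IsCompact C ∧ ∀ y ∈ K, gen A c y ≠ gen A c z → y ∈ C) : IsCompact K := by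
  choose C hC1 hC2 using h
  refine isCompact_iff_ultrafilter_le_nhds'.mpr fun f hf => ?_
  have key : ∀ x, ↑f ≤ 𝓝 x → x ∈ K := fun x hx =>
    hK.closure_subset (mem_closure_iff_ultrafilter.mpr ⟨f, hf, hx⟩)
  by_cases hz : ↑f ≤ 𝓝 z
  · exact ⟨z, key z hz, hz⟩
  obtain ⟨U, hU1, hU2⟩ := Filter.not_le.mp hz
  obtain ⟨J, hJ⟩ := basic A hU1
  have h1 : (⋃ c ∈ J, C c) ∈ f := by
    filter_upwards [hf, Ultrafilter.compl_mem_iff_notMem.mpr hU2] with y hy1 hy2
    by_contra h2
    refine hy2 (hJ y fun c hc => ?_)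
    by_contra h3
    exact h2 (mem_iUnion₂.mpr ⟨c, hc, hC2 c y hy1 h3⟩)
  obtain ⟨x, -, hx⟩ := isCompact_iff_ultrafilter_le_nhds'.mp
    (J.isCompact_biUnion fun c _ => hC1 c) f h1
  exact ⟨x, key x hx, hx⟩

/-- a column -/
def col (σ : N) : Set (X A) := {x | gen A (Sum.inl (σ, none)) x ≠ 0}

theorem mem_col (σ : N) (l : N × Option ℕ) : pl A l ∈ col A σ ↔ l.1 = σ := by
  simp [col, gen_ll]

theorem inf_col (σ : N) : inf A ∉ col A σ := by simp [col]

theorem pp_col (σ : N) (p : P) : pp A p ∉ col A σ := by simp [col]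

theorem gen_conv (c : (N × Option ℕ) ⊕ P) (σ : N) :
    ∀ᶠ j in atTop, gen A c (pl A (σ, some j)) = gen A c (pl A (σ, none)) := by
  rcases c with ⟨τ, _ | i⟩ | p
  · exact Eventually.of_forall fun j => z2 _ _ (by simp [gen_ll])
  · filter_upwards [eventually_gt_atTop i] with j hj
    exact z2 _ _ (by simp [gen_ll, hj.ne'])
  · exact A.conv p σ

theorem tendsto_top (σ : N) :
    Tendsto (fun j => pl A (σ, some j)) atTop (𝓝 (pl A (σ, none))) := by
  rw [(inducing A).tendsto_nhds_iff, tendsto_pi_nhds]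
  exact fun c => tendsto_const_nhds.congr' ((gen_conv A c σ).mono fun j hj => hj.symm)

theorem compact_col (σ : N) : IsCompact (col A σ) := by
  refine (tendsto_top A σ).isCompact_insert_range.of_isClosed_subset (isClopen_ne A _).1 ?_
  intro x hx
  rcases cases A x with rfl | ⟨⟨τ, o⟩, rfl⟩ | ⟨p, rfl⟩
  · exact absurd hx (inf_col A σ)
  · obtain rfl : τ = σ := (mem_col A σ _).mp hx
    rcases o with _ | j
    exacts [Or.inl rfl, Or.inr ⟨j, rfl⟩]
  · exact absurd hx (pp_col A σ p)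

theorem sub_col {l : N × Option ℕ} {y : X A} (h : gen A (Sum.inl l) y ≠ 0) : y ∈ col A l.1 := by
  rcases cases A y with rfl | ⟨m, rfl⟩ | ⟨p, rfl⟩
  · simp at h
  · exact (mem_col A _ _).mpr ((gen_ll A l m).mp h).1
  · simp at h

theorem compact_hat (p : P) : IsCompact {x | gen A (Sum.inr p) x ≠ 0} := by
  refine compact_of A (isClopen_ne A _).1 (pp A p) ?_
  rintro (l | q)
  · exact ⟨_, compact_col A l.1, fun y _ h => sub_col A h⟩
  by_cases hq : q = p
  · subst hq
    exact ⟨∅, isCompact_empty, fun y h1 h2 => h2 (z2 _ _ (by simpa [gen_pp] using h1))⟩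
  obtain ⟨S, hS1, hS2⟩ := A.ad p q (Ne.symm hq)
  refine ⟨⋃ σ ∈ S, col A σ, hS1.isCompact_biUnion fun σ _ => compact_col A σ, fun y h1 h2 => ?_⟩
  have h3 : gen A (Sum.inr q) (pp A p) = 0 := by
    by_contra h
    exact hq ((gen_pp A q p).mp h).symm
  rw [h3] at h2
  rcases cases A y with rfl | ⟨m, rfl⟩ | ⟨r, rfl⟩
  · simp at h2
  · refine mem_iUnion₂.mpr ⟨m.1, ?_, (mem_col A _ _).mpr rfl⟩
    by_contra h
    rcases hS2 m h with h4 | h4
    exacts [h1 h4, h2 h4]
  · exact absurd (((gen_pp A q r).mp h2).symm.trans ((gen_pp A p r).mp h1)) hq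

instance : CompactSpace (X A) := by
  refine ⟨compact_of A isClosed_univ (inf A) ?_⟩
  rintro (l | q)
  · exact ⟨_, compact_col A l.1, fun y _ h => sub_col A (by simpa using h)⟩
  · exact ⟨_, compact_hat A q, fun y _ h => by simpa using h⟩

/-- the compact open subsets of the sum of convergent sequences -/
def H (N : Type) : AddSubgroup (N × Option ℕ → ZMod 2) where
  carrier := {h | (∀ σ, ∀ᶠ j in atTop, h (σ, some j) = h (σ, none)) ∧
    ∃ S : Set N, S.Finite ∧ ∀ l, l.1 ∉ S → h l = 0}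
  zero_mem' := ⟨fun _ => Eventually.of_forall fun _ => rfl, ∅, finite_empty, fun _ _ => rfl⟩
  add_mem' := by
    rintro g h ⟨h1, S, h2, h3⟩ ⟨h4, T, h5, h6⟩
    refine ⟨fun σ => ?_, S ∪ T, h2.union h5, fun l hl => ?_⟩
    · filter_upwards [h1 σ, h4 σ] with j e1 e2
      simp [e1, e2]
    · simp [h3 l fun h => hl (Or.inl h), h6 l fun h => hl (Or.inr h)]
  neg_mem' := by
    rintro g ⟨h1, S, h2, h3⟩
    refine ⟨fun σ => ?_, S, h2, fun l hl => by simp [h3 l hl]⟩
    filter_upwards [h1 σ] with j e1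
    simp [e1]

theorem finite_bad {h : N × Option ℕ → ZMod 2} (hh : h ∈ H N) (σ : N) :
    {j | h (σ, some j) ≠ h (σ, none)}.Finite := by
  have := hh.1 σ
  rwa [← Nat.cofinite_eq_atTop, eventually_cofinite] at this

theorem countable_H [Countable N] : (H N : Set (N × Option ℕ → ZMod 2)).Countable := by
  let φ : (N × Option ℕ → ZMod 2) → Set N × Set (N × ℕ) :=
    fun h => ({σ | h (σ, none) ≠ 0}, {l | h (l.1, some l.2) ≠ h (l.1, none)})
  refine MapsTo.countable_of_injOn (f := φ) (t := {s | s.Finite} ×ˢ {s | s.Finite}) ?_ ?_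
    (Set.Countable.prod Set.Countable.ofPred_finite Set.Countable.ofPred_finite)
  · rintro h hh
    obtain ⟨S, h2, h3⟩ := hh.2
    refine ⟨h2.subset fun σ hσ => by by_contra h; exact hσ (h3 _ h), ?_⟩
    refine (h2.biUnion fun σ _ => (finite_bad hh σ).image (Prod.mk σ)).subset ?_
    rintro ⟨σ, j⟩ hl
    refine mem_iUnion₂.mpr ⟨σ, ?_, j, hl, rfl⟩
    by_contra h
    exact hl ((h3 _ h).trans (h3 _ h).symm)
  · intro g _ h _ hgh
    have h1 : ∀ σ, g (σ, none) = h (σ, none) := fun σ =>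
      z2 _ _ (Set.ext_iff.mp (congrArg Prod.fst hgh) σ)
    funext ⟨σ, o⟩
    rcases o with _ | j
    · exact h1 σ
    · have h2 : g (σ, some j) ≠ g (σ, none) ↔ h (σ, some j) ≠ h (σ, none) :=
        Set.ext_iff.mp (congrArg Prod.snd hgh) (σ, j)
      rw [h1 σ] at h2
      revert h2
      generalize g (σ, some j) = u, h (σ, some j) = v, h (σ, none) = w
      revert u v w
      decide

/-- extension by zero -/
def ext (h : N × Option ℕ → ZMod 2) : X A → ZMod 2
  | some (Sum.inl l) => h l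
  | _ => 0

@[simp] theorem ext_inf (h : N × Option ℕ → ZMod 2) : ext A h (inf A) = 0 := rfl

@[simp] theorem ext_pp (h : N × Option ℕ → ZMod 2) (p : P) : ext A h (pp A p) = 0 := rfl

@[simp] theorem ext_pl (h : N × Option ℕ → ZMod 2) (l : N × Option ℕ) :
    ext A h (pl A l) = h l := rfl

theorem cont_ext {h : N × Option ℕ → ZMod 2} (hh : h ∈ H N) : Continuous (ext A h) := by
  obtain ⟨S, h2, h3⟩ := hh.2
  have key : ∀ x, (∀ σ, x ∉ col A σ) → ∀ᶠ y in 𝓝 x, ext A h y = 0 := by
    intro x hx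
    have : ∀ᶠ y in 𝓝 x, ∀ σ ∈ S, y ∉ col A σ := (eventually_all_finite h2).mpr fun σ _ =>
      (isClopen_ne A _).1.isOpen_compl.mem_nhds (hx σ)
    filter_upwards [this] with y hy
    rcases cases A y with rfl | ⟨m, rfl⟩ | ⟨r, rfl⟩
    · rfl
    · exact h3 m fun hm => hy _ hm ((mem_col A _ _).mpr rfl)
    · rfl
  refine continuous_iff_continuousAt.mpr fun x => continuousAt_const.congr (f := fun _ =>
    ext A h x) (EventuallyEq.symm ?_)
  rcases cases A x with rfl | ⟨⟨σ, _ | j⟩, rfl⟩ | ⟨p, rfl⟩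
  · exact key _ (inf_col A)
  · have e1 : ∀ᶠ y in 𝓝 (pl A (σ, none)), ∀ j ∈ {j | h (σ, some j) ≠ h (σ, none)},
        gen A (Sum.inl (σ, some j)) y = gen A (Sum.inl (σ, some j)) (pl A (σ, none)) :=
      (eventually_all_finite (finite_bad hh σ)).mpr fun j _ => ev_gen A _ _
    filter_upwards [e1, (isClopen_ne A (Sum.inl (σ, none))).2.mem_nhds
      ((mem_col A σ (σ, none)).mpr rfl)] with y h4 h5
    rcases cases A y with rfl | ⟨⟨τ, o⟩, rfl⟩ | ⟨p, rfl⟩
    · exact absurd h5 (inf_col A σ)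
    · obtain rfl : τ = σ := (mem_col A σ _).mp h5
      rcases o with _ | j
      · rfl
      · by_contra h6
        have h7 := (gen_ll A (τ, some j) (τ, some j)).mpr ⟨rfl, Or.inr rfl⟩
        rw [h4 j h6, gen_ll] at h7
        simp at h7
    · exact absurd h5 (pp_col A σ p)
  · filter_upwards [(isClopen_ne A (Sum.inl (σ, some j))).2.mem_nhds
      ((gen_ll A _ (σ, some j)).mpr ⟨rfl, Or.inr rfl⟩)] with y h5
    rcases cases A y with rfl | ⟨⟨τ, o⟩, rfl⟩ | ⟨p, rfl⟩
    · simp at h5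
    · have h6 := (gen_ll A _ _).mp h5
      simp only [reduceCtorEq, false_or] at h6
      obtain ⟨rfl, rfl⟩ := h6
      rfl
    · simp at h5
  · exact key _ fun σ => pp_col A σ p

theorem res_mem {f : X A → ZMod 2} (hf : Continuous f) (h1 : f (inf A) = 0)
    (h2 : ∀ p, f (pp A p) = 0) : (fun l => f (pl A l)) ∈ H N := by
  refine ⟨fun σ => ?_, ?_⟩
  · exact ((hf.tendsto _).comp (tendsto_top A σ)).eventually
      ((isOpen_discrete {f (pl A (σ, none))}).mem_nhds rfl)
  · obtain ⟨S, hS⟩ := ((isClosed_discrete {a : ZMod 2 | a ≠ 0}).preimage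
      hf).isCompact.elim_finite_subcover (col A) (fun σ => (isClopen_ne A _).2) (by
        intro x hx
        rcases cases A x with rfl | ⟨l, rfl⟩ | ⟨p, rfl⟩
        · exact absurd h1 hx
        · exact mem_iUnion.mpr ⟨l.1, (mem_col A _ _).mpr rfl⟩
        · exact absurd (h2 p) hx)
    refine ⟨S, S.finite_toSet, fun l hl => ?_⟩
    by_contra h
    obtain ⟨σ, h3, h4⟩ := mem_iUnion₂.mp (hS (show pl A l ∈ f ⁻¹' {a | a ≠ 0} from h))
    exact hl ((mem_col A _ _).mp h4 ▸ h3)

theorem finite_supp {f : X A → ZMod 2} (hf : Continuous f) :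
    {p | f (pp A p) ≠ f (inf A)}.Finite := by
  obtain ⟨J, hJ⟩ := basic A (((isOpen_discrete {f (inf A)}).preimage hf).mem_nhds rfl)
  refine (J.finite_toSet.preimage Sum.inr_injective.injOn).subset fun p hp => ?_
  by_contra h
  refine hp (hJ _ ?_)
  rintro (l | q) hc
  · simp
  · rw [gen_inf]
    by_contra h1
    exact h ((gen_pp A q p).mp h1 ▸ hc)

theorem sum_pp (F : Finset P) (q : P) [Decidable (q ∈ F)] :
    (∑ p ∈ F, gen A (Sum.inr p)) (pp A q) = if q ∈ F then 1 else 0 := by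
  classical
  rw [Finset.sum_apply]
  have : ∀ p, gen A (Sum.inr p) (pp A q) = if q = p then 1 else 0 := fun p => by
    simp only [gen, pp]
  simp only [this, Finset.sum_ite_eq]
  congr

theorem exists_interp (J : Finset (X A)) (v : X A → ZMod 2) :
    ∃ f : X A → ZMod 2, Continuous f ∧ ∀ x ∈ J, f x = v x := by
  classical
  have h : ∀ x : X A, ∃ C, IsClopen C ∧ x ∈ C ∧ C ⊆ ((J.erase x : Finset (X A)) : Set (X A))ᶜ :=
    fun x => compact_exists_isClopen_in_isOpen (J.erase x).finite_toSet.isClosed.isOpen_compl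
      (by simp)
  choose C hC1 hC2 hC3 using h
  refine ⟨fun y => ∑ x ∈ J, (C x).indicator (fun _ => v x) y, continuous_finsetSum _ fun x _ =>
    (hC1 x).continuous_indicator continuous_const, fun y hy => ?_⟩
  beta_reduce
  rw [Finset.sum_eq_single_of_mem y hy, indicator_of_mem (hC2 y)]
  intro x _ hxy
  exact indicator_of_notMem (fun h => hC3 x h (Finset.mem_erase.mpr ⟨hxy.symm, hy⟩)) _

end Pool.Agent.H706Z.Cpt
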