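import Mathlib
import Pool.Agent.H706Z.CptA

set_option autoImplicit false

/-!
# The space of continuous two-valued functions is Lindelof and its square is not normal
-/

namespace Pool.Agent.H706Z.Cpt

open Set Filter Topology Pool.Agent.H706Z.Sigma

variable {N Ω : Type} (A : Fam N (Ω × Bool))

/-- the continuous two-valued functions -/
abbrev G : Type := {f : X A → ZMod 2 // Continuous f}

theorem basicG {U : Set (G A)} (hU : IsOpen U) {g : G A} (hg : g ∈ U) :
    ∃ J : Finset (X A), ∀ f : G A, (∀ x ∈ J, f.1 x = g.1 x) → f ∈ U := by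
  obtain ⟨W, hW, rfl⟩ := isOpen_induced_iff.mp hU
  obtain ⟨s, h1, h2⟩ := exists_cyl hW hg
  exact ⟨s.1, fun y hy => h2 (mem_cyl_congr (fun c hc => (hy c hc).symm) h1)⟩

theorem cont_sum (F : Finset (Ω × Bool)) : Continuous (∑ p ∈ F, gen A (Sum.inr p)) := by
  have := continuous_finsetSum F fun p _ => cont_gen A (Sum.inr p)
  convert this using 1
  funext x
  exact Finset.sum_apply _ _ _

theorem sum_inf (F : Finset (Ω × Bool)) : (∑ p ∈ F, gen A (Sum.inr p)) (inf A) = 0 := by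
  simp [Finset.sum_apply]

theorem sum_pl (F : Finset (Ω × Bool)) (l : N × Option ℕ) :
    (∑ p ∈ F, gen A (Sum.inr p)) (pl A l) = (∑ p ∈ F, A.a p) l := by
  simp [Finset.sum_apply]

theorem z2' : ∀ a b : ZMod 2, a ≠ b → a - 1 = b := by decide

variable [LinearOrder Ω]

/-- the functions supported below a given index -/
def Low (δ : Ω) : Set (G A) := {g | ∀ p : Ω × Bool, δ ≤ p.1 → g.1 (pp A p) = g.1 (inf A)}

theorem countable_Low [Countable N] (hseg : ∀ a : Ω, (Iic a).Countable) (δ : Ω) :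
    (Low A δ).Countable := by
  classical
  let F : G A → Finset (Ω × Bool) := fun g => (finite_supp A g.2).toFinset
  let k : G A → X A → ZMod 2 := fun g => g.1 - (fun _ => g.1 (inf A)) - ∑ p ∈ F g, gen A (Sum.inr p)
  have hk1 : ∀ g, k g (inf A) = 0 := fun g => by simp [k, sum_inf]
  have hk2 : ∀ g p, k g (pp A p) = 0 := fun g p => by
    simp only [k, Pi.sub_apply, sum_pp, F, Finite.mem_toFinset, mem_ofPred_eq]
    split_ifs with h
    · rw [sub_right_comm, z2' _ _ h, sub_self]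
    · rw [not_not.mp h, sub_self, sub_zero]
  let φ : G A → ZMod 2 × Set (Ω × Bool) × (N × Option ℕ → ZMod 2) :=
    fun g => (g.1 (inf A), F g, fun l => k g (pl A l))
  refine MapsTo.countable_of_injOn (f := φ)
    (t := univ ×ˢ {s | s.Finite ∧ s ⊆ Iic δ ×ˢ univ} ×ˢ (H N : Set _)) ?_ ?_
    (countable_univ.prod ((countable_ofPred_finite_subset ((hseg δ).prod countable_univ)).prod
      countable_H))
  · intro g hg
    refine ⟨mem_univ _, ⟨(F g).finite_toSet, fun p hp => ⟨?_, mem_univ _⟩⟩,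
      res_mem A ((g.2.sub continuous_const).sub (cont_sum A _)) (hk1 g) (hk2 g)⟩
    by_contra h
    exact (Finite.mem_toFinset _).mp hp (hg p (not_le.mp h).le)
  · intro f _ g _ hfg
    have h1 : f.1 (inf A) = g.1 (inf A) := congrArg Prod.fst hfg
    have h2 : F f = F g := Finset.coe_injective (congrArg (fun x => x.2.1) hfg)
    have h3 : k f = k g := by
      funext x
      rcases cases A x with rfl | ⟨l, rfl⟩ | ⟨p, rfl⟩
      · rw [hk1, hk1]
      · exact congrFun (congrArg (fun x => x.2.2) hfg) l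
      · rw [hk2, hk2]
    simp only [k, h1, h2] at h3
    exact Subtype.ext (sub_left_injective (sub_left_injective h3))

/-- strong concentration -/
def SC : Prop := ∀ W : Set (N × Option ℕ → ZMod 2), IsOpen W → (H N : Set _) ⊆ W →
  ∃ δ, ∀ F : Finset (Ω × Bool), (∀ p ∈ F, δ ≤ p.1) → ∑ p ∈ F, A.a p ∈ W

theorem conc [WellFoundedLT Ω] [Countable N] (hseg : ∀ a : Ω, (Iic a).Countable)
    (hunc : ¬ (univ : Set Ω).Countable) (hSC : SC A) (δ : Ω) {U : Set (G A)} (hU : IsOpen U)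
    (hsub : Low A δ ⊆ U) : ∃ δ', δ ≤ δ' ∧ ∀ f : G A,
      (∀ p : Ω × Bool, δ ≤ p.1 → p.1 < δ' → f.1 (pp A p) = f.1 (inf A)) → f ∈ U := by
  classical
  choose! J hJ using fun g (hg : g ∈ Low A δ) => basicG A hU (hsub hg)
  let ad : G A → H N → G A := fun g h => ⟨g.1 + ext A h.1, g.2.add (cont_ext A h.2)⟩
  let W : G A → Set (N × Option ℕ → ZMod 2) := fun g =>
    ⋃ h : H N, ⋂ x ∈ J (ad g h), ⋂ l ∈ {l | pl A l = x}, (fun y => y l) ⁻¹' {h.1 l}
  have hW : ∀ g, ∃ δ, ∀ F : Finset (Ω × Bool), (∀ p ∈ F, δ ≤ p.1) → ∑ p ∈ F, A.a p ∈ W g := by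
    intro g
    refine hSC _ (isOpen_iUnion fun h => isOpen_biInter_finset fun x _ =>
      Set.Finite.isOpen_biInter (Set.Subsingleton.finite fun l hl m hm => ?_) fun l _ =>
        (isOpen_discrete _).preimage (continuous_apply l)) fun h hh =>
      mem_iUnion.mpr ⟨⟨h, hh⟩, mem_iInter₂.mpr fun x _ => mem_iInter₂.mpr fun l _ => rfl⟩
    exact Sum.inl.inj (Option.some.inj (hl.trans hm.symm))
  choose d hd using hW
  have hc := countable_Low A hseg δ
  have hc2 : (⋃ g ∈ Low A δ, Prod.fst '' {p | pp A p ∈ J g}).Countable :=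
    hc.biUnion fun g _ => ((J g).finite_toSet.countable.preimage
      (f := pp A) fun p q h => Sum.inr.inj (Option.some.inj h)).image _
  obtain ⟨δ', hδ'⟩ := Lsq.bdd hseg hunc (((hc.image d).union hc2).insert δ)
  refine ⟨δ', (hδ' δ (mem_insert _ _)).le, fun f hf => ?_⟩
  let F : Finset (Ω × Bool) := (finite_supp A f.2).toFinset.filter fun p => δ' ≤ p.1
  let g : G A := ⟨f.1 - ∑ p ∈ F, gen A (Sum.inr p), f.2.sub (cont_sum A F)⟩
  have hg : g ∈ Low A δ := by
    intro p hp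
    simp only [g, Pi.sub_apply, sum_pp, sum_inf, sub_zero, F, Finset.mem_filter,
      Finite.mem_toFinset, mem_ofPred_eq]
    split_ifs with h
    · exact z2' _ _ h.1
    · rw [sub_zero]
      by_contra h1
      exact h1 (hf p hp (not_le.mp fun h2 => h ⟨h1, h2⟩))
  obtain ⟨h, hh⟩ := mem_iUnion.mp (hd g F fun p hp =>
    (hδ' _ (Or.inr (Or.inl (mem_image_of_mem d hg)))).le.trans (Finset.mem_filter.mp hp).2)
  have hg' : ad g h ∈ Low A δ := fun p hp => by simpa [ad] using hg p hp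
  refine hJ _ hg' f fun x hx => ?_
  simp only [ad, g, Pi.add_apply, Pi.sub_apply]
  rcases cases A x with rfl | ⟨l, rfl⟩ | ⟨p, rfl⟩
  · simp [sum_inf]
  · have := mem_iInter₂.mp (mem_iInter₂.mp hh _ hx) l rfl
    rw [sum_pl, ext_pl, show (∑ p ∈ F, A.a p) l = h.1 l from this, sub_add_cancel]
  · rw [sum_pp, if_neg, ext_pp, sub_zero, add_zero]
    intro h1
    exact absurd (hδ' p.1 (Or.inr (Or.inr (mem_iUnion₂.mpr ⟨_, hg', p, hx, rfl⟩))))
      (not_lt.mpr (Finset.mem_filter.mp h1).2)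

theorem lindelof [WellFoundedLT Ω] [Countable N] (hseg : ∀ a : Ω, (Iic a).Countable)
    (hunc : ¬ (univ : Set Ω).Countable) (hSC : SC A) : LindelofSpace (G A) := by
  refine ⟨isLindelof_of_countable_subcover fun {ι} U hU hc => ?_⟩
  have h : ∀ δ : Ω, ∃ (r : Set ι) (δ' : Ω), r.Countable ∧ δ ≤ δ' ∧ ∀ f : G A,
      (∀ p : Ω × Bool, δ ≤ p.1 → p.1 < δ' → f.1 (pp A p) = f.1 (inf A)) → f ∈ ⋃ i ∈ r, U i := by
    intro δ
    obtain ⟨r, hr1, hr2⟩ := (countable_Low A hseg δ).isLindelof.elim_countable_subcover U hU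
      ((subset_univ _).trans hc)
    obtain ⟨δ', h1, h2⟩ := conc A hseg hunc hSC δ (isOpen_biUnion fun i _ => hU i) hr2
    exact ⟨r, δ', hr1, h1, h2⟩
  choose r nx h1 h2 h3 using h
  obtain ⟨δ₀, -⟩ := Lsq.bdd hseg hunc countable_empty
  let u : ℕ → Ω := fun n => nx^[n] δ₀
  have hu : ∀ n, u (n + 1) = nx (u n) := fun n => Function.iterate_succ_apply' nx n δ₀
  have hmono : Monotone u := monotone_nat_of_le_succ fun n => by rw [hu]; exact h2 _
  refine ⟨⋃ n, r (u n), countable_iUnion fun n => h1 _, fun f _ => ?_⟩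
  have hfin : (⋃ p ∈ {p | f.1 (pp A p) ≠ f.1 (inf A)},
      {n | u n ≤ p.1 ∧ p.1 < u (n + 1)}).Finite :=
    (finite_supp A f.2).biUnion fun p _ => Set.Subsingleton.finite fun m hm n hn => by
      rcases lt_trichotomy m n with h | h | h
      · exact absurd ((hmono h).trans hn.1) (not_le.mpr hm.2)
      · exact h
      · exact absurd ((hmono h).trans hm.1) (not_le.mpr hn.2)
  obtain ⟨n, hn⟩ := hfin.exists_notMem
  obtain ⟨i, h4, h5⟩ := mem_iUnion₂.mp (h3 (u n) f fun p e1 e2 => by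
    by_contra h
    exact hn (mem_iUnion₂.mpr ⟨p, h, e1, hu n ▸ e2⟩))
  exact mem_iUnion₂.mpr ⟨i, mem_iUnion.mpr ⟨n, h4⟩, h5⟩

omit [LinearOrder Ω] in
theorem split (hunc : ¬ (univ : Set Ω).Countable) {T : Type} [Countable T] (E : T → Set Ω) :
    ∃ S : Set Ω, ¬ S.Countable ∧ ∀ t, ¬ (E t).Countable → ¬ (E t \ S).Countable := by
  have : Infinite Ω := by
    by_contra h
    rw [not_infinite_iff_finite] at h
    exact hunc (Set.toFinite _).countable
  obtain ⟨e⟩ : Nonempty (Ω ≃ Ω × Ω) := Cardinal.eq.mp (by simp)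
  let S : Ω → Set Ω := fun ξ => {a | (e a).1 = ξ}
  have hbad : (⋃ t, {ξ | ¬ (E t).Countable ∧ (E t \ S ξ).Countable}).Countable :=
    countable_iUnion fun t => Set.Subsingleton.countable fun ξ h1 η h2 => by
      by_contra h
      refine h1.1 ((h1.2.union h2.2).mono fun a ha => ?_)
      by_cases h3 : (e a).1 = ξ
      · exact Or.inr ⟨ha, fun h4 => h (h3.symm.trans h4)⟩
      · exact Or.inl ⟨ha, h3⟩
  obtain ⟨ξ, hξ⟩ : ∃ ξ, ξ ∉ ⋃ t, {ξ | ¬ (E t).Countable ∧ (E t \ S ξ).Countable} := by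
    by_contra h
    push Not at h
    exact hunc (hbad.mono fun a _ => h a)
  refine ⟨S ξ, fun h => hunc ((h.image fun a => (e a).2).mono fun b _ => ?_),
    fun t h1 h2 => hξ (mem_iUnion.mpr ⟨t, h1, h2⟩)⟩
  exact ⟨e.symm (ξ, b), by simp [S], by simp⟩

/-- the distinguished pairs -/
noncomputable def dd (α : Ω) : G A × G A :=
  (⟨gen A (Sum.inr (α, false)), cont_gen A _⟩, ⟨gen A (Sum.inr (α, true)), cont_gen A _⟩)

omit [LinearOrder Ω] in
theorem closed_dd {𝓕 : Set ((N × Option ℕ → ZMod 2) × (N × Option ℕ → ZMod 2))}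
    (h1 : IsClosed 𝓕) (h2 : ∀ s ∈ H N, ∀ t ∈ H N, (s, t) ∉ 𝓕)
    (h3 : ∀ α, (A.a (α, false), A.a (α, true)) ∈ 𝓕) (T : Set Ω) : IsClosed (dd A '' T) := by
  refine isClosed_of_closure_subset fun y hy => ?_
  have c1 : ∀ x, Continuous fun y : G A × G A => y.1.1 x := fun x =>
    (continuous_apply x).comp (continuous_subtype_val.comp continuous_fst)
  have c2 : ∀ x, Continuous fun y : G A × G A => y.2.1 x := fun x =>
    (continuous_apply x).comp (continuous_subtype_val.comp continuous_snd)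
  by_cases h : ∃ p, y.1.1 (pp A p) ≠ 0 ∨ y.2.1 (pp A p) ≠ 0
  · obtain ⟨p, hp⟩ := h
    have hO : IsOpen {y : G A × G A | y.1.1 (pp A p) ≠ 0 ∨ y.2.1 (pp A p) ≠ 0} :=
      ((isOpen_discrete {a : ZMod 2 | a ≠ 0}).preimage (c1 _)).union
        ((isOpen_discrete {a : ZMod 2 | a ≠ 0}).preimage (c2 _))
    have h4 := hO.inter_closure ⟨hp, hy⟩
    have h5 : {y : G A × G A | y.1.1 (pp A p) ≠ 0 ∨ y.2.1 (pp A p) ≠ 0} ∩ dd A '' T ⊆
        dd A '' (T ∩ {p.1}) := by
      rintro _ ⟨h6, α, h7, rfl⟩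
      refine ⟨α, ⟨h7, ?_⟩, rfl⟩
      rcases h6 with h6 | h6 <;> exact (congrArg Prod.fst ((gen_pp A _ _).mp h6)).symm
    exact image_mono inter_subset_left (closure_minimal h5
      (((finite_singleton _).subset inter_subset_right).image _).isClosed h4)
  push Not at h
  have h4 : y.1.1 (inf A) = 0 ∧ y.2.1 (inf A) = 0 :=
    closure_minimal (t := {y : G A × G A | y.1.1 (inf A) = 0 ∧ y.2.1 (inf A) = 0})
      (by rintro _ ⟨α, -, rfl⟩; exact ⟨rfl, rfl⟩)
      ((isClosed_eq (c1 _) continuous_const).inter (isClosed_eq (c2 _) continuous_const)) hy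
  refine absurd ?_ (h2 _ (res_mem A y.1.2 h4.1 fun p => (h p).1) _
    (res_mem A y.2.2 h4.2 fun p => (h p).2))
  exact closure_minimal (t := (fun y : G A × G A =>
      ((fun l => y.1.1 (pl A l)), fun l => y.2.1 (pl A l))) ⁻¹' 𝓕)
    (by rintro _ ⟨α, -, rfl⟩; exact h3 α)
    (h1.preimage ((continuous_pi fun l => c1 _).prodMk (continuous_pi fun l => c2 _))) hy

omit [LinearOrder Ω] in
theorem not_normal [Countable N] (hunc : ¬ (univ : Set Ω).Countable)
    {𝓕 : Set ((N × Option ℕ → ZMod 2) × (N × Option ℕ → ZMod 2))}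
    (h1 : IsClosed 𝓕) (h2 : ∀ s ∈ H N, ∀ t ∈ H N, (s, t) ∉ 𝓕)
    (h3 : ∀ α, (A.a (α, false), A.a (α, true)) ∈ 𝓕) : ¬ NormalSpace (G A × G A) := by
  classical
  intro hn
  let E : Finset (N × Option ℕ) × Finset (N × Option ℕ) × Finset (N × Option ℕ) → Set Ω :=
    fun t => {α | ∀ l ∈ t.1, (A.a (α, false) l ≠ 0 ↔ l ∈ t.2.1) ∧
      (A.a (α, true) l ≠ 0 ↔ l ∈ t.2.2)}
  obtain ⟨S, hS1, hS2⟩ := split hunc E
  have hinj : Function.Injective (dd A) := fun α β h => by
    have h4 : gen A (Sum.inr (α, false)) (pp A (α, false)) =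
        gen A (Sum.inr (β, false)) (pp A (α, false)) :=
      congrFun (congrArg (fun y : G A × G A => y.1.1) h) (pp A (α, false))
    exact congrArg Prod.fst ((gen_pp A _ _).mp (h4 ▸ (gen_pp A _ _).mpr rfl))
  obtain ⟨U, V, hU, hV, h4, h5, hUV⟩ := normal_separation (closed_dd A h1 h2 h3 S)
    (closed_dd A h1 h2 h3 Sᶜ) ((disjoint_image_iff hinj).mpr disjoint_compl_right)
  have key : ∀ W : Set (G A × G A), IsOpen W → ∀ α, ∃ J : Finset (X A), dd A α ∈ W →
      ∀ y : G A × G A, (∀ x ∈ J, y.1.1 x = (dd A α).1.1 x ∧ y.2.1 x = (dd A α).2.1 x) →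
        y ∈ W := by
    intro W hW α
    by_cases h : dd A α ∈ W
    · obtain ⟨W1, W2, e1, e2, e3, e4, e5⟩ := isOpen_prod_iff.mp hW _ _ h
      obtain ⟨J1, e6⟩ := basicG A e1 e3
      obtain ⟨J2, e7⟩ := basicG A e2 e4
      exact ⟨J1 ∪ J2, fun _ y hy => e5 ⟨e6 _ fun x hx => (hy x (Finset.mem_union_left _ hx)).1,
        e7 _ fun x hx => (hy x (Finset.mem_union_right _ hx)).2⟩⟩
    · exact ⟨∅, fun h' => absurd h' h⟩
  choose J hJ using key U hU
  choose K hK using key V hV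
  have hpl : Function.Injective (pl A) := fun l m h => Sum.inl.inj (Option.some.inj h)
  have hpp : Function.Injective (pp A) := fun l m h => Sum.inr.inj (Option.some.inj h)
  let L : Ω → Finset (N × Option ℕ) := fun α => (J α).preimage (pl A) hpl.injOn
  obtain ⟨t, ht⟩ := Helper126.uncountable_fiber (fun α => (L α,
    (L α).filter (fun l => A.a (α, false) l ≠ 0), (L α).filter fun l => A.a (α, true) l ≠ 0)) S hS1
  have hE : ∀ α ∈ {α ∈ S | (L α, (L α).filter (fun l => A.a (α, false) l ≠ 0),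
      (L α).filter fun l => A.a (α, true) l ≠ 0) = t}, α ∈ E t := by
    rintro α ⟨-, rfl⟩ l hl
    simp [show l ∈ L α from hl]
  obtain ⟨T, hT1, hT3, hT2⟩ := Set.Infinite.exists_subset_countable_infinite
    (fun h => ht (Set.Finite.countable h))
  have hc : (⋃ α ∈ T, Prod.fst '' {p | pp A p ∈ J α}).Countable :=
    hT3.biUnion fun α _ => ((J α).finite_toSet.countable.preimage hpp).image _
  obtain ⟨β, hβ1, hβ2⟩ : ∃ β ∈ E t \ S, β ∉ ⋃ α ∈ T, Prod.fst '' {p | pp A p ∈ J α} := by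
    by_contra h
    push Not at h
    exact hS2 t (fun h6 => ht (h6.mono hE)) (hc.mono h)
  obtain ⟨α, hα1, hα2⟩ := hT2.exists_notMem_finite
    (((K β).finite_toSet.preimage hpp.injOn).image Prod.fst)
  have hcomp : ∀ (b : Bool), ∀ x ∈ J α, x ∈ K β →
      gen A (Sum.inr (α, b)) x = gen A (Sum.inr (β, b)) x := by
    intro b x e1 e2
    rcases cases A x with rfl | ⟨l, rfl⟩ | ⟨p, rfl⟩
    · simp
    · have e3 : l ∈ t.1 := by
        rw [← (hT1 hα1).2]
        exact (Finset.mem_preimage (hf := hpl.injOn)).mpr e1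
      have e4 := hE α (hT1 hα1) l e3
      have e5 := hβ1.1 l e3
      cases b
      · exact z2 _ _ (e4.1.trans e5.1.symm)
      · exact z2 _ _ (e4.2.trans e5.2.symm)
    · refine z2 _ _ ?_
      rw [gen_pp, gen_pp]
      refine iff_of_false ?_ ?_
      · rintro rfl
        exact hα2 ⟨_, e2, rfl⟩
      · rintro rfl
        exact hβ2 (mem_iUnion₂.mpr ⟨α, hα1, _, e1, rfl⟩)
  have hex : ∀ b : Bool, ∃ f : G A, (∀ x ∈ J α, f.1 x = gen A (Sum.inr (α, b)) x) ∧
      ∀ x ∈ K β, f.1 x = gen A (Sum.inr (β, b)) x := by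
    intro b
    obtain ⟨f, e1, e2⟩ := exists_interp A (J α ∪ K β) fun x =>
      if x ∈ J α then gen A (Sum.inr (α, b)) x else gen A (Sum.inr (β, b)) x
    refine ⟨⟨f, e1⟩, fun x hx => ?_, fun x hx => ?_⟩
    · exact (e2 x (Finset.mem_union_left _ hx)).trans (if_pos hx)
    · refine (e2 x (Finset.mem_union_right _ hx)).trans ?_
      split_ifs with h
      exacts [hcomp b x h hx, rfl]
  obtain ⟨f, e1, e2⟩ := hex false
  obtain ⟨g, e3, e4⟩ := hex true
  exact Set.disjoint_left.mp hUV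
    (hJ α (h4 (mem_image_of_mem _ (hT1 hα1).1)) (f, g) fun x hx => ⟨e1 x hx, e3 x hx⟩)
    (hK β (h5 (mem_image_of_mem _ hβ1.2)) (f, g) fun x hx => ⟨e2 x hx, e4 x hx⟩)

end Pool.Agent.H706Z.Cpt
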