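import Mathlib
import Pool.Agent.H706Z.CptB

set_option autoImplicit false

/-!
# The construction of the family under CH
-/

namespace Pool.Agent.H706Z.Cpt

open Set Filter Topology Cardinal Pool.Agent.H706Z.Sigma

/-- the node of a branch at a level -/
def nd (x : ℕ → Bool) (m : ℕ) : List Bool := List.ofFn fun i : Fin m => x i

@[simp] theorem nd_length (x : ℕ → Bool) (m : ℕ) : (nd x m).length = m := by simp [nd]

/-- a function living on a branch -/
def lift (x : ℕ → Bool) (B : ℕ → Option ℕ → ZMod 2) (l : List Bool × Option ℕ) : ZMod 2 :=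
  if l.1 = nd x l.1.length then B l.1.length l.2 else 0

theorem lift_nd (x : ℕ → Bool) (B : ℕ → Option ℕ → ZMod 2) (m : ℕ) (o : Option ℕ) :
    lift x B (nd x m, o) = B m o := by simp [lift]

theorem lift_conv (x : ℕ → Bool) {B : ℕ → Option ℕ → ZMod 2}
    (h : ∀ m, ∀ᶠ j in atTop, B m (some j) = B m none) (σ : List Bool) :
    ∀ᶠ j in atTop, lift x B (σ, some j) = lift x B (σ, none) := by
  filter_upwards [h σ.length] with j hj
  simp only [lift, hj]

theorem lift_mem (x : ℕ → Bool) {B : ℕ → Option ℕ → ZMod 2}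
    (h : ∀ m, ∀ᶠ j in atTop, B m (some j) = B m none) (k : ℕ) (hk : ∀ m, k < m → ∀ o, B m o = 0) :
    lift x B ∈ H (List Bool) := by
  refine ⟨lift_conv x h, _, List.finite_length_le Bool k, fun l hl => ?_⟩
  simp only [lift, hk _ (not_le.mp hl), ite_self]

theorem lift_ad {x y : ℕ → Bool} (h : x ≠ y) (B C : ℕ → Option ℕ → ZMod 2) :
    ∃ S : Set (List Bool), S.Finite ∧ ∀ l, l.1 ∉ S → lift x B l = 0 ∨ lift y C l = 0 := by
  obtain ⟨i, hi⟩ := Function.ne_iff.mp h
  refine ⟨_, List.finite_length_le Bool i, fun l hl => ?_⟩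
  by_contra h1
  push Not at h1
  have h2 : l.1 = nd x l.1.length := by
    by_contra h3
    exact h1.1 (if_neg h3)
  have h3 : l.1 = nd y l.1.length := by
    by_contra h3
    exact h1.2 (if_neg h3)
  exact hi (congrFun (List.ofFn_injective (h2.symm.trans h3)) ⟨i, not_le.mp hl⟩)

/-- pairs of disjoint clopen subsets of a convergent sequence -/
def Col : Type := {c : (Option ℕ → ZMod 2) × (Option ℕ → ZMod 2) //
  (∀ᶠ j in atTop, c.1 (some j) = c.1 none) ∧ (∀ᶠ j in atTop, c.2 (some j) = c.2 none) ∧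
    ∀ o, c.1 o = 0 ∨ c.2 o = 0}

instance : TopologicalSpace Col := ⊥

instance : DiscreteTopology Col := ⟨rfl⟩

/-- the admissible sequences of pairs -/
def Sp : Set (ℕ → Col) := {s | ∀ m, ∃ n ≤ m,
  (n = m ∧ ((s n).1.1 (some 0) ≠ 0 ∨ (s n).1.2 (some 0) ≠ 0)) ∨
    ((s n).1.1 (some (2 * m)) ≠ 0 ∧ (s n).1.2 (some (2 * m + 1)) ≠ 0)}

theorem isClosed_Sp : IsClosed Sp := by
  have : Sp = ⋂ m, ⋃ n ∈ Iic m, (fun s : ℕ → Col => s n) ⁻¹'
      {c | (n = m ∧ (c.1.1 (some 0) ≠ 0 ∨ c.1.2 (some 0) ≠ 0)) ∨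
        (c.1.1 (some (2 * m)) ≠ 0 ∧ c.1.2 (some (2 * m + 1)) ≠ 0)} := by
    ext s
    simp [Sp]
  rw [this]
  exact isClosed_iInter fun m => (finite_Iic m).isClosed_biUnion fun n _ =>
    (isClosed_discrete _).preimage (continuous_apply n)

/-- linear combinations along a branch -/
def comb (x : ℕ → Bool) (u v : ZMod 2) (s : ℕ → Col) : List Bool × Option ℕ → ZMod 2 :=
  lift x fun m o => u * (s m).1.1 o + v * (s m).1.2 o

theorem cont_comb (x : ℕ → Bool) (u v : ZMod 2) : Continuous (comb x u v) :=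
  continuous_pi fun l => (continuous_of_discreteTopology (f := fun c : Col =>
    if l.1 = nd x l.1.length then u * c.1.1 l.2 + v * c.1.2 l.2 else 0)).comp
      (continuous_apply l.1.length)

theorem comb_conv (u v : ZMod 2) (s : ℕ → Col) (m : ℕ) : ∀ᶠ j in atTop,
    u * (s m).1.1 (some j) + v * (s m).1.2 (some j) = u * (s m).1.1 none + v * (s m).1.2 none := by
  filter_upwards [(s m).2.1, (s m).2.2.1] with j h1 h2
  rw [h1, h2]

/-- one point -/
def dot : Option ℕ → ZMod 2 := fun o => if o = some 0 then 1 else 0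

theorem dot_conv : ∀ᶠ j in atTop, dot (some j) = dot none := by
  filter_upwards [eventually_gt_atTop 0] with j hj
  simp [dot, hj.ne']

/-- a point in the first set -/
def dotA : Col := ⟨(dot, 0), dot_conv, Eventually.of_forall fun _ => rfl, fun _ => Or.inr rfl⟩

/-- a point in the second set -/
def dotB : Col := ⟨(0, dot), Eventually.of_forall fun _ => rfl, dot_conv, fun _ => Or.inl rfl⟩

/-- two empty sets -/
def zer : Col := ⟨(0, 0), Eventually.of_forall fun _ => rfl, Eventually.of_forall fun _ => rfl,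
  fun _ => Or.inl rfl⟩

/-- the odd numbers up to a bound -/
def od (M : ℕ) : Option ℕ → ZMod 2
  | none => 0
  | some j => if j ≤ 2 * M + 1 ∧ j % 2 = 1 then 1 else 0

theorem od_conv (M : ℕ) : ∀ᶠ j in atTop, od M (some j) = od M none := by
  filter_upwards [eventually_gt_atTop (2 * M + 1)] with j hj
  simp [od, not_le.mpr hj]

theorem z3 : ∀ a : ZMod 2, 1 - a = 0 ∨ a = 0 := by decide

/-- an oscillating pair -/
def osc (M : ℕ) : Col := ⟨(fun o => 1 - od M o, od M),
  (od_conv M).mono fun j hj => by simp only [hj], od_conv M, fun _ => z3 _⟩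

theorem glue_mem {s : ℕ → Col} (hs : s ∈ Sp) (k : ℕ) (t : ℕ → Col)
    (ht : ∀ m, k ≤ m → ∃ n ≤ m, k ≤ n ∧
      ((n = m ∧ ((t n).1.1 (some 0) ≠ 0 ∨ (t n).1.2 (some 0) ≠ 0)) ∨
        ((t n).1.1 (some (2 * m)) ≠ 0 ∧ (t n).1.2 (some (2 * m + 1)) ≠ 0))) :
    (fun n => if n < k then s n else t n) ∈ Sp := by
  intro m
  rcases lt_or_ge m k with h | h
  · obtain ⟨n, h1, h2⟩ := hs m
    exact ⟨n, h1, by simpa only [if_pos (h1.trans_lt h)] using h2⟩
  · obtain ⟨n, h1, h2, h3⟩ := ht m h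
    exact ⟨n, h1, by simpa only [if_neg (not_lt.mpr h2)] using h3⟩

theorem step (x : ℕ → Bool) (u v : ZMod 2) {O : Set (List Bool × Option ℕ → ZMod 2)}
    (hO : IsOpen O) (hH : (H (List Bool) : Set _) ⊆ O) {s : ℕ → Col} (hs : s ∈ Sp) (k : ℕ) :
    ∃ t ∈ Sp, (∀ n < k, t n = s n) ∧ comb x u v t ∈ O := by
  by_cases hv : v = 0
  · refine ⟨_, glue_mem hs k (fun _ => dotB) fun m hm => ⟨m, le_rfl, hm, Or.inl ⟨rfl, Or.inr ?_⟩⟩,
      fun n hn => if_pos hn, hH (lift_mem x (comb_conv u v _) k fun m hm o => ?_)⟩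
    · simp [dotB, dot]
    · simp [hv, not_lt.mpr hm.le, dotB]
  by_cases hu : u = 0
  · refine ⟨_, glue_mem hs k (fun _ => dotA) fun m hm => ⟨m, le_rfl, hm, Or.inl ⟨rfl, Or.inl ?_⟩⟩,
      fun n hn => if_pos hn, hH (lift_mem x (comb_conv u v _) k fun m hm o => ?_)⟩
    · simp [dotA, dot]
    · simp [hu, not_lt.mpr hm.le, dotA]
  obtain rfl : u = 1 := z2 _ _ (by simpa using hu)
  obtain rfl : v = 1 := z2 _ _ (by simpa using hv)
  let t : ℕ → ℕ → Col := fun M n => if n = k then osc M else if n ≤ M then zer else dotB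
  let w : ℕ → Col := fun n => if n < k then s n else if n = k then osc 0 else zer
  have hw : comb x 1 1 w ∈ O := hH (lift_mem x (comb_conv 1 1 _) k fun m hm o => by
    simp [w, not_lt.mpr hm.le, hm.ne', zer])
  have hlim : Tendsto (fun M => comb x 1 1 fun n => if n < k then s n else t M n) atTop
      (𝓝 (comb x 1 1 w)) := by
    refine tendsto_pi_nhds.mpr fun l => tendsto_const_nhds.congr' ?_
    filter_upwards [eventually_ge_atTop l.1.length] with M hM
    simp only [comb, lift, w, t]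
    split_ifs <;> simp [osc]
  obtain ⟨M, hM⟩ := (hlim.eventually (hO.mem_nhds hw)).exists
  refine ⟨_, glue_mem hs k (t M) fun m hm => ?_, fun n hn => if_pos hn, hM⟩
  by_cases h1 : m ≤ M
  · refine ⟨k, hm, le_rfl, Or.inr ?_⟩
    have h2 : 2 * m + 1 ≤ 2 * M + 1 := by omega
    simp [t, osc, od, h2]
  · refine ⟨m, le_rfl, hm, Or.inl ⟨rfl, ?_⟩⟩
    by_cases h2 : m = k
    · simp [t, h2, osc, od]
    · simp [t, h1, h2, dotB, dot]

theorem fusion (x : ℕ → Bool) {T : Type} [Countable T]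
    (O : T → Set (List Bool × Option ℕ → ZMod 2)) (hO : ∀ t, IsOpen (O t))
    (hH : ∀ t, (H (List Bool) : Set _) ⊆ O t) : ∃ s ∈ Sp, ∀ t u v, comb x u v s ∈ O t := by
  have := isClosed_Sp.isCompletelyMetrizableSpace
  have : Nonempty Sp := ⟨⟨fun _ => dotB, fun m => ⟨m, le_rfl, Or.inl ⟨rfl, Or.inr (by
    simp [dotB, dot])⟩⟩⟩⟩
  have hd : Dense (⋂ p : T × ZMod 2 × ZMod 2, {s : Sp | comb x p.2.1 p.2.2 s.1 ∈ O p.1}) := by
    refine dense_iInter_of_isOpen (fun p => (hO p.1).preimage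
      ((cont_comb x _ _).comp continuous_subtype_val)) fun p => dense_iff_inter_open.mpr ?_
    rintro U hU ⟨s, hs⟩
    obtain ⟨V, hV, rfl⟩ := isOpen_induced_iff.mp hU
    obtain ⟨I, w, h1, h2⟩ := isOpen_pi_iff.mp hV s.1 hs
    obtain ⟨t, h3, h4, h5⟩ := step x p.2.1 p.2.2 (hO p.1) (hH p.1) s.2 (I.sup id + 1)
    refine ⟨⟨t, h3⟩, h2 fun i hi => ?_, h5⟩
    have : t i = s.1 i := h4 i (Nat.lt_succ_of_le (Finset.le_sup (f := id) hi))
    show t i ∈ w i
    rw [this]
    exact (h1 i hi).2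
  obtain ⟨s, hs⟩ := hd.nonempty
  exact ⟨s.1, s.2, fun t u v => mem_iInter.mp hs (t, u, v)⟩

/-- the closed set of active pairs -/
def FF : Set ((List Bool × Option ℕ → ZMod 2) × (List Bool × Option ℕ → ZMod 2)) :=
  {y | (∀ l, y.1 l = 0 ∨ y.2 l = 0) ∧ ∀ m, ∃ σ : List Bool, σ.length ≤ m ∧
    ((σ.length = m ∧ (y.1 (σ, some 0) ≠ 0 ∨ y.2 (σ, some 0) ≠ 0)) ∨
      (y.1 (σ, some (2 * m)) ≠ 0 ∧ y.2 (σ, some (2 * m + 1)) ≠ 0))}

theorem isClosed_FF : IsClosed FF := by
  have : FF = (⋂ l, (fun y => (y.1 l, y.2 l)) ⁻¹' {c : ZMod 2 × ZMod 2 | c.1 = 0 ∨ c.2 = 0}) ∩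
      ⋂ m, ⋃ σ ∈ {σ : List Bool | σ.length ≤ m}, (fun y => (y.1 (σ, some 0), y.2 (σ, some 0),
        y.1 (σ, some (2 * m)), y.2 (σ, some (2 * m + 1)))) ⁻¹'
        {c : ZMod 2 × ZMod 2 × ZMod 2 × ZMod 2 | (σ.length = m ∧ (c.1 ≠ 0 ∨ c.2.1 ≠ 0)) ∨
          (c.2.2.1 ≠ 0 ∧ c.2.2.2 ≠ 0)} := by
    ext y
    simp [FF]
  rw [this]
  refine (isClosed_iInter fun l => (isClosed_discrete _).preimage (by fun_prop)).inter
    (isClosed_iInter fun m => (List.finite_length_le Bool m).isClosed_biUnion fun σ _ =>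
      (isClosed_discrete _).preimage (by fun_prop))

theorem not_mem_FF : ∀ s ∈ H (List Bool), ∀ t ∈ H (List Bool), (s, t) ∉ FF := by
  rintro s ⟨h1, S, h2, h3⟩ t ⟨h4, T, h5, h6⟩ ⟨h7, h8⟩
  have e1 : ∀ᶠ m in atTop, ∀ σ ∈ S ∪ T, σ.length < m ∧ s (σ, some (2 * m)) = s (σ, none) ∧
      t (σ, some (2 * m + 1)) = t (σ, none) :=
    (eventually_all_finite (h2.union h5)).mpr fun σ _ => (eventually_gt_atTop _).and
      (((tendsto_atTop_mono (fun m => by simp only [id]; omega) tendsto_id).eventually (h1 σ)).and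
        ((tendsto_atTop_mono (fun m => by simp only [id]; omega) tendsto_id).eventually (h4 σ)))
  obtain ⟨m, hm⟩ := e1.exists
  obtain ⟨σ, -, ⟨e2, e3⟩ | ⟨e2, e3⟩⟩ := h8 m
  · have e4 : σ ∉ S ∪ T := fun h => (hm σ h).1.ne e2
    rcases e3 with e3 | e3
    · exact e3 (h3 _ fun h => e4 (Or.inl h))
    · exact e3 (h6 _ fun h => e4 (Or.inr h))
  · have e4 : σ ∈ S := by
      by_contra h
      exact e2 (h3 _ h)
    rcases h7 (σ, none) with h | h
    · exact e2 ((hm σ (Or.inl e4)).2.1.trans h)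
    · exact e3 ((hm σ (Or.inl e4)).2.2.trans h)

theorem comb_disj (x : ℕ → Bool) (s : ℕ → Col) (l : List Bool × Option ℕ) :
    comb x 1 0 s l = 0 ∨ comb x 0 1 s l = 0 := by
  simp only [comb, lift]
  split_ifs
  · simpa using (s l.1.length).2.2.2 l.2
  · exact Or.inl rfl

theorem mem_FF (x : ℕ → Bool) {s : ℕ → Col} (hs : s ∈ Sp) : (comb x 1 0 s, comb x 0 1 s) ∈ FF := by
  refine ⟨comb_disj x s, fun m => ?_⟩
  obtain ⟨n, h1, h2⟩ := hs m
  exact ⟨nd x n, by simpa using h1, by simpa [comb, lift_nd] using h2⟩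

theorem comb_lin (x : ℕ → Bool) (u v : ZMod 2) (s : ℕ → Col) :
    comb x u v s = u • comb x 1 0 s + v • comb x 0 1 s := by
  funext l
  simp only [comb, lift, Pi.add_apply, Pi.smul_apply]
  split_ifs <;> simp

theorem exists_fam {Ω : Type} [LinearOrder Ω] [WellFoundedLT Ω]
    (hseg : ∀ a : Ω, (Iic a).Countable) (x : Ω → ℕ → Bool) (hx : Function.Injective x)
    (e : Ω → Set (Finset (List Bool × Option ℕ) × Finset (List Bool × Option ℕ)))
    (he : Function.Surjective e) :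
    ∃ A : Fam (List Bool) (Ω × Bool), SC A ∧ ∀ α, (A.a (α, false), A.a (α, true)) ∈ FF := by
  classical
  let W : Ω → Set (List Bool × Option ℕ → ZMod 2) := fun ξ => ⋃ c ∈ e ξ, cyl c
  have hW : ∀ ξ, IsOpen (W ξ) := fun ξ => isOpen_biUnion fun c _ => isOpen_cyl c
  obtain ⟨s, hs⟩ := exists_rec (S := Ω) (α := ℕ → Col) (· < ·) wellFounded_lt
    (fun α f s => s ∈ Sp ∧ ∀ ξ ≤ α, ∀ y ∈ Submodule.span (ZMod 2)
      (range fun p : Iio α × ZMod 2 × ZMod 2 => comb (x p.1.1) p.2.1 p.2.2 (f p.1.1 p.1.2)),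
      (∀ h ∈ H (List Bool), y + h ∈ W ξ) → ∀ h ∈ H (List Bool), ∀ u v,
        y + comb (x α) u v s + h ∈ W ξ) (by
      intro α f
      have : Countable (Iio α) := ((hseg α).mono Iio_subset_Iic_self).to_subtype
      have : Countable (Iic α) := (hseg α).to_subtype
      have : Countable (H (List Bool)) := countable_H.to_subtype
      have : Countable (range fun p : Iio α × ZMod 2 × ZMod 2 =>
        comb (x p.1.1) p.2.1 p.2.2 (f p.1.1 p.1.2)) := (countable_range _).to_subtype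
      obtain ⟨s, h1, h2⟩ := fusion (x α) (T := Iic α × Submodule.span (ZMod 2)
        (range fun p : Iio α × ZMod 2 × ZMod 2 => comb (x p.1.1) p.2.1 p.2.2 (f p.1.1 p.1.2)) ×
          H (List Bool))
        (fun t => {z | (∀ h ∈ H (List Bool), t.2.1.1 + h ∈ W t.1.1) → t.2.1.1 + z + t.2.2.1 ∈ W t.1.1})
        (fun t => by
          by_cases h : ∀ h ∈ H (List Bool), t.2.1.1 + h ∈ W t.1.1
          · simp only [imp_iff_right h]
            exact (hW _).preimage (by fun_prop)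
          · simp only [iff_true_intro (fun h' => absurd h' h : _ → _)]
            exact isOpen_univ)
        (fun t z hz h => by
          rw [add_assoc]
          exact h _ (add_mem hz t.2.2.2))
      exact ⟨s, h1, fun ξ hξ y hy h3 h hh u v => h2 (⟨ξ, hξ⟩, ⟨y, hy⟩, ⟨h, hh⟩) u v h3⟩)
  let a : Ω × Bool → List Bool × Option ℕ → ZMod 2 := fun p =>
    if p.2 then comb (x p.1) 0 1 (s p.1) else comb (x p.1) 1 0 (s p.1)
  refine ⟨⟨a, fun p σ => ?_, fun p q hpq => ?_⟩, fun O hO hH => ?_, fun α => mem_FF _ (hs α).1⟩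
  · have h1 : ∀ u v, ∀ᶠ j in atTop, comb (x p.1) u v (s p.1) (σ, some j) =
        comb (x p.1) u v (s p.1) (σ, none) := fun u v =>
      lift_conv (x p.1) (B := fun m o => u * (s p.1 m).1.1 o + v * (s p.1 m).1.2 o)
        (comb_conv u v (s p.1)) σ
    rcases p with ⟨α, _ | _⟩
    exacts [h1 1 0, h1 0 1]
  · rcases p with ⟨α, b⟩
    rcases q with ⟨β, c⟩
    by_cases h : α = β
    · subst h
      refine ⟨∅, finite_empty, fun l _ => ?_⟩
      cases b <;> cases c
      · exact absurd rfl hpq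
      · exact comb_disj _ _ l
      · exact (comb_disj _ _ l).symm
      · exact absurd rfl hpq
    · have h1 : ∀ u v u' v', ∃ S : Set (List Bool), S.Finite ∧ ∀ l, l.1 ∉ S →
          comb (x α) u v (s α) l = 0 ∨ comb (x β) u' v' (s β) l = 0 :=
        fun _ _ _ _ => lift_ad (hx.ne h) _ _
      cases b <;> cases c
      exacts [h1 1 0 1 0, h1 1 0 0 1, h1 0 1 1 0, h1 0 1 0 1]
  obtain ⟨ξ, hξ⟩ := he {c | cyl c ⊆ O}
  have hWO : W ξ = O := by
    refine Subset.antisymm (iUnion₂_subset fun c hc => ?_) fun y hy => ?_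
    · rwa [hξ] at hc
    · obtain ⟨c, h1, h2⟩ := exists_cyl hO hy
      exact mem_iUnion₂.mpr ⟨c, by rw [hξ]; exact h2, h1⟩
  have key : ∀ (u v : Ω → ZMod 2) (I : Finset Ω), (∀ α ∈ I, ξ ≤ α) → ∀ h ∈ H (List Bool),
      ∑ α ∈ I, comb (x α) (u α) (v α) (s α) + h ∈ W ξ := by
    intro u v I
    induction I using Finset.induction_on_max with
    | empty => exact fun _ h hh => by simpa [hWO] using hH hh
    | insert α I hI ih =>
      intro h1 h hh
      rw [Finset.sum_insert fun h2 => lt_irrefl _ (hI α h2), add_comm (comb _ _ _ _)]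
      refine (hs α).2 ξ (h1 α (Finset.mem_insert_self _ _)) _ (sum_mem fun β hβ =>
        Submodule.subset_span ⟨(⟨β, hI β hβ⟩, u β, v β), rfl⟩)
        (ih fun β hβ => h1 β (Finset.mem_insert_of_mem hβ)) h hh _ _
  refine ⟨ξ, fun F hF => ?_⟩
  have h1 := key (fun α => if (α, false) ∈ F then 1 else 0) (fun α => if (α, true) ∈ F then 1 else 0)
    (F.image Prod.fst) (fun α hα => by
      obtain ⟨p, hp, rfl⟩ := Finset.mem_image.mp hα
      exact hF p hp) 0 (zero_mem _)
  rw [add_zero, hWO] at h1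
  convert h1 using 1
  have h2 : F = (F.image Prod.fst ×ˢ (Finset.univ : Finset Bool)) ∩ F :=
    (Finset.inter_eq_right.mpr fun p hp => Finset.mem_product.mpr
      ⟨Finset.mem_image_of_mem _ hp, Finset.mem_univ _⟩).symm
  conv_lhs => rw [h2, ← Finset.sum_ite_mem, Finset.sum_product]
  refine Finset.sum_congr rfl fun α _ => ?_
  rw [comb_lin, Fintype.sum_bool, add_comm]
  congr 1 <;> split_ifs <;> simp [a]

theorem main (hCH : aleph.{0} 1 = continuum) :
    ∃ (X : Type) (_ : TopologicalSpace X), CompactSpace X ∧ T2Space X ∧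
      TopologicalSpace.IsTopologicalBasis {s : Set X | IsClopen s} ∧
      LindelofSpace {f : X → ZMod 2 // Continuous f} ∧
      ¬ NormalSpace ({f : X → ZMod 2 // Continuous f} × {f : X → ZMod 2 // Continuous f}) := by
  let Om : Type := (ℵ₁ : Cardinal.{0}).ord.ToType
  have hmk : #Om = ℵ₁ := mk_ord_toType _
  have hseg : ∀ a : Om, (Iic a).Countable := by
    intro a
    have h1 : #(Iio a) < #Om := mk_Iio_lt a (by simp [Om])
    rw [hmk] at h1
    rw [← Iio_insert]
    exact ((countable_iff_lt_aleph_one _).mpr h1).insert a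
  have hunc : ¬ (univ : Set Om).Countable := by
    rw [countable_iff_lt_aleph_one, mk_univ, hmk]
    exact lt_irrefl _
  obtain ⟨x⟩ := Cardinal.eq.mp (show #Om = #(ℕ → Bool) by
    rw [hmk, hCH]
    simp)
  obtain ⟨e⟩ := Cardinal.eq.mp (show #Om =
      #(Set (Finset (List Bool × Option ℕ) × Finset (List Bool × Option ℕ))) by
    rw [hmk, hCH, mk_set, mk_eq_aleph0, two_power_aleph0])
  obtain ⟨A, h1, h2⟩ := exists_fam hseg x x.injective e e.surjective
  exact ⟨X A, inferInstance, inferInstance, inferInstance, isTopologicalBasis_isClopen,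
    lindelof A hseg hunc h1, not_normal A hunc isClosed_FF not_mem_FF h2⟩

end Pool.Agent.H706Z.Cpt
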