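import Mathlib
import Pool.Agent.H706Z.LsqB

set_option autoImplicit false

/-!
# Under CH, a Corson compactum whose space of measures is not countably tight at a Dirac measure
-/

namespace Pool.Agent.H706Z.Dirac

open Set Filter Topology Cardinal MeasureTheory Pool.Agent.H706Z.Sigma
open scoped CompactlySupported BoundedContinuousFunction

variable {Ω T : Type}

/-- the indicator functions of the subfamilies with a common point -/
def Cen (F : Ω → Set T) : Set (Ω → ZMod 2) := {x | ∃ t, ∀ b, x b ≠ 0 → t ∈ F b}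

theorem isClosed_Cen [TopologicalSpace T] [CompactSpace T] (F : Ω → Set T)
    (hF : ∀ b, IsClosed (F b)) : IsClosed (Cen F) := by
  classical
  rw [← isOpen_compl_iff, isOpen_iff_forall_mem_open]
  intro x hx
  obtain ⟨G, hG⟩ := isCompact_univ.elim_finite_subfamily_closed
    (fun b : {b // x b ≠ 0} => F b.1) (fun b => hF b.1) (by
      rw [univ_inter, eq_empty_iff_forall_notMem]
      exact fun t ht => hx ⟨t, fun b hb => mem_iInter.mp ht ⟨b, hb⟩⟩)
  refine ⟨cyl (G.image Subtype.val, G.image Subtype.val), ?_, isOpen_cyl _, ?_⟩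
  · rintro y hy ⟨t, ht⟩
    rw [univ_inter, eq_empty_iff_forall_notMem] at hG
    refine hG t (mem_iInter₂.mpr fun b hb => ht b.1 ?_)
    exact (hy b.1 (Finset.mem_image_of_mem _ hb)).mpr (Finset.mem_image_of_mem _ hb)
  · intro b hb
    obtain ⟨c, -, rfl⟩ := Finset.mem_image.mp hb
    exact ⟨fun _ => hb, fun _ => c.2⟩

theorem measurable_comp [MeasurableSpace T] {X : Set (Ω → ZMod 2)} [CompactSpace X] {φ : T → X}
    (hφ : ∀ b, MeasurableSet {t | (φ t).1 b ≠ 0}) {f : X → ℝ} (hf : Continuous f) :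
    Measurable (f ∘ φ) := by
  refine measurable_of_isOpen fun V hV => ?_
  have hL : IsLindelof (f ⁻¹' V) := by
    obtain ⟨K, hK1, hK2, hK3, -⟩ := hV.exists_iUnion_isClosed
    rw [← hK3, preimage_iUnion]
    exact isLindelof_iUnion fun n => ((hK1 n).preimage hf).isCompact.isLindelof
  have hc : ∀ x : f ⁻¹' V, ∃ s, x.1.1 ∈ cyl s ∧ ∀ y : X, y.1 ∈ cyl s → y ∈ f ⁻¹' V := by
    intro x
    obtain ⟨W, hW, h1⟩ := isOpen_induced_iff.mp (hV.preimage hf)
    obtain ⟨s, h2, h3⟩ := exists_cyl hW (h1.symm.subset x.2)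
    exact ⟨s, h2, fun y hy => h1.subset (h3 hy)⟩
  choose s hs1 hs2 using hc
  obtain ⟨D, hD1, hD2⟩ := hL.elim_countable_subcover (fun x => Subtype.val ⁻¹' cyl (s x))
    (fun x => (isOpen_cyl _).preimage continuous_subtype_val)
    (fun x hx => mem_iUnion.mpr ⟨⟨x, hx⟩, hs1 ⟨x, hx⟩⟩)
  have : (f ∘ φ) ⁻¹' V = ⋃ x ∈ D, ⋂ b ∈ (s x).1, {t | (φ t).1 b ≠ 0 ↔ b ∈ (s x).2} := by
    ext t
    simp only [mem_iUnion, mem_iInter]
    constructor
    · intro ht
      obtain ⟨x, h1, h2⟩ := mem_iUnion₂.mp (hD2 (show φ t ∈ f ⁻¹' V from ht))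
      exact ⟨x, h1, h2⟩
    · rintro ⟨x, -, h2⟩
      exact hs2 x (φ t) h2
  rw [this]
  refine MeasurableSet.biUnion hD1 fun x _ => Finset.measurableSet_biInter _ fun b _ => ?_
  by_cases h : b ∈ (s x).2
  · simpa [h] using hφ b
  · simpa [h, compl_def] using (hφ b).compl

theorem exists_law [MeasurableSpace T] (m : Measure T) [IsProbabilityMeasure m]
    {X : Set (Ω → ZMod 2)} [CompactSpace X] [MeasurableSpace X] [BorelSpace X] {φ : T → X}
    (hφ : ∀ b, MeasurableSet {t | (φ t).1 b ≠ 0}) :
    ∃ μ : ProbabilityMeasure X, (μ : Measure X).Regular ∧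
      ∀ f : X →ᵇ ℝ, ∫ x, f x ∂(μ : Measure X) = ∫ t, f (φ t) ∂m := by
  have hint : ∀ f : C_c(X, ℝ), Integrable (fun t => f (φ t)) m := fun f =>
    Integrable.of_bound (measurable_comp hφ f.continuous).aestronglyMeasurable
      ‖f.toBoundedContinuousFunction‖
      (Eventually.of_forall fun t => f.toBoundedContinuousFunction.norm_coe_le_norm (φ t))
  let Λ : C_c(X, ℝ) →ₚ[ℝ] ℝ := PositiveLinearMap.mk₀
    { toFun := fun f => ∫ t, f (φ t) ∂m
      map_add' := fun f g => integral_add (hint f) (hint g)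
      map_smul' := fun c f => integral_smul c fun t => f (φ t) }
    fun f hf => integral_nonneg fun t => hf (φ t)
  have h1 : ∀ f : X →ᵇ ℝ, ∫ x, f x ∂(RealRMK.rieszMeasure Λ) = ∫ t, f (φ t) ∂m := fun f =>
    RealRMK.integral_rieszMeasure Λ ⟨f.toContinuousMap, HasCompactSupport.of_compactSpace _⟩
  have : IsProbabilityMeasure (RealRMK.rieszMeasure Λ) := by
    have h2 := h1 1
    simp only [BoundedContinuousFunction.coe_one, Pi.one_apply, integral_const, probReal_univ,
      smul_eq_mul, mul_one] at h2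
    exact isProbabilityMeasure_iff_real.mpr h2
  exact ⟨⟨RealRMK.rieszMeasure Λ, this⟩, RealRMK.regular_rieszMeasure Λ, h1⟩

theorem main_of_surj [LinearOrder Ω] [WellFoundedLT Ω] (hseg : ∀ a : Ω, (Iic a).Countable)
    (hunc : ¬ (univ : Set Ω).Countable) (e : Ω → unitInterval) (he : Function.Surjective e) :
    ∃ (X : Type) (_ : TopologicalSpace X) (_ : MeasurableSpace X) (_ : BorelSpace X),
      CompactSpace X ∧ T2Space X ∧ FrechetUrysohnSpace X ∧
      ∃ (x : X) (A : Set (ProbabilityMeasure X)), (∀ μ ∈ A, (μ : Measure X).Regular) ∧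
        (⟨Measure.dirac x, inferInstance⟩ : ProbabilityMeasure X) ∈ closure A ∧
        ∀ B ⊆ A, B.Countable →
          (⟨Measure.dirac x, inferInstance⟩ : ProbabilityMeasure X) ∉ closure B := by
  classical
  have hF : ∀ b : Ω, ∃ K ⊆ (e '' Iic b)ᶜ, IsCompact K ∧ 0 < volume K := by
    intro b
    have h1 := (hseg b).image e
    refine h1.measurableSet.compl.exists_lt_isCompact_of_ne_top (measure_ne_top _ _) ?_
    rw [prob_compl_eq_one_sub h1.measurableSet, h1.measure_zero]
    simp
  choose F hF1 hF2 hF3 using hF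
  have hcl := isClosed_Cen F fun b => (hF2 b).isClosed
  have : CompactSpace (Cen F) := isCompact_iff_compactSpace.mp hcl.isCompact
  let : MeasurableSpace (Cen F) := borel _
  have : BorelSpace (Cen F) := ⟨rfl⟩
  have hsupp : ∀ x : Cen F, {b | x.1 b ≠ 0}.Countable := by
    intro x
    obtain ⟨t, ht⟩ := x.2
    obtain ⟨a, rfl⟩ := he t
    refine (hseg a).mono fun b hb => ?_
    by_contra h
    exact hF1 b (ht b hb) (mem_image_of_mem e (not_le.mp h).le)
  have hfu : FrechetUrysohnSpace (Cen F) := by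
    have := frechet (I := Ω)
    let j : Cen F → SigmaCube Ω := fun x => ⟨x.1, hsupp x⟩
    have hj : IsInducing j := IsInducing.of_comp (continuous_subtype_val.subtype_mk _)
      continuous_subtype_val IsInducing.subtypeVal
    exact hj.frechetUrysohnSpace
  let φ : Ω → unitInterval → Cen F := fun a t =>
    ⟨fun b => if a ≤ b ∧ t ∈ F b then 1 else 0, t, fun b hb => by
      by_contra h
      exact hb (if_neg fun h' => h h'.2)⟩
  have hφ : ∀ a t b, (φ a t).1 b ≠ 0 ↔ a ≤ b ∧ t ∈ F b := fun a t b => by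
    by_cases h : a ≤ b ∧ t ∈ F b <;> simp [φ, h]
  have hmeas : ∀ a b, MeasurableSet {t | (φ a t).1 b ≠ 0} := fun a b => by
    simp only [hφ]
    by_cases h : a ≤ b
    · simpa [h] using (hF2 b).measurableSet
    · simp [h]
  choose μ hμ1 hμ2 using fun a => exists_law volume (hmeas a)
  let o : Cen F := ⟨0, 0, fun b hb => absurd rfl hb⟩
  have hne : Nonempty Ω := by
    by_contra h
    rw [not_nonempty_iff] at h
    exact hunc (Set.toFinite _).countable
  refine ⟨Cen F, inferInstance, inferInstance, inferInstance, inferInstance, inferInstance, hfu, o,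
    range μ, forall_mem_range.mpr hμ1, ?_, fun B hB hBc hcl' => ?_⟩
  · refine mem_closure_of_tendsto (X := ProbabilityMeasure (Cen F)) (f := μ) (b := atTop) ?_
      (Eventually.of_forall mem_range_self)
    refine ProbabilityMeasure.tendsto_iff_forall_integral_tendsto.mpr fun f => ?_
    simp only [hμ2, ProbabilityMeasure.coe_mk, integral_dirac]
    rw [Metric.tendsto_atTop]
    intro ε hε
    obtain ⟨W, hW, h1⟩ := isOpen_induced_iff.mp
      ((Metric.isOpen_ball (x := f o) (ε := ε / 2)).preimage f.continuous)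
    obtain ⟨s, h2, h3⟩ := exists_cyl hW
      (h1.symm.subset (Metric.mem_ball_self (half_pos hε)) : o ∈ Subtype.val ⁻¹' W)
    obtain ⟨a₀, ha₀⟩ := Lsq.bdd hseg hunc s.1.finite_toSet.countable
    refine ⟨a₀, fun a ha => ?_⟩
    have h4 : ∀ t, ‖f (φ a t) - f o‖ ≤ ε / 2 := by
      intro t
      have h5 : φ a t ∈ Subtype.val ⁻¹' W := h3 (mem_cyl_congr (fun b hb => by
        exact (if_neg fun h => absurd ((ha₀ b hb).trans_le ha) (not_lt.mpr h.1)).symm) h2)
      exact (mem_ball_iff_norm.mp (h1.subset h5)).le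
    have hint : Integrable (fun t => f (φ a t)) volume :=
      Integrable.of_bound (measurable_comp (hmeas a) f.continuous).aestronglyMeasurable ‖f‖
        (Eventually.of_forall fun t => f.norm_coe_le_norm _)
    have h6 := norm_integral_le_of_norm_le_const (μ := volume) (Eventually.of_forall h4)
    rw [integral_sub hint (integrable_const _)] at h6
    simp only [integral_const, probReal_univ, smul_eq_mul, one_mul, mul_one] at h6
    rw [dist_eq_norm]
    linarith
  · choose! a ha using fun ν (hν : ν ∈ B) => hB hν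
    obtain ⟨b, hb⟩ := Lsq.bdd hseg hunc (hBc.image a)
    let f : Cen F →ᵇ ℝ := BoundedContinuousFunction.mkOfCompact
      ⟨fun x => if x.1 b ≠ 0 then 1 else 0,
        (continuous_of_discreteTopology (f := fun c : ZMod 2 => if c ≠ 0 then (1 : ℝ) else 0)).comp
          ((continuous_apply b).comp continuous_subtype_val)⟩
    have h1 : B ⊆ {ν : ProbabilityMeasure (Cen F) |
        ∫ x, f x ∂(ν : Measure (Cen F)) = volume.real (F b)} := by
      intro ν hν
      rw [← ha ν hν, mem_ofPred_eq, hμ2, ← integral_indicator_one (hF2 b).measurableSet]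
      refine integral_congr_ae (Eventually.of_forall fun t => ?_)
      have h2 := (hb _ (mem_image_of_mem a hν)).le
      by_cases h : t ∈ F b <;> simp [f, φ, h, h2]
    have h2 := closure_minimal h1 (isClosed_eq
      (ProbabilityMeasure.continuous_integral_boundedContinuousFunction f) continuous_const) hcl'
    simp only [mem_ofPred_eq, ProbabilityMeasure.coe_mk, integral_dirac] at h2
    have h3 : f o = 0 := by simp [f, o]
    rw [h3] at h2
    exact (ENNReal.toReal_pos (hF3 b).ne' (measure_ne_top _ _)).ne h2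

theorem main (hCH : aleph.{0} 1 = continuum) :
    ∃ (X : Type) (_ : TopologicalSpace X) (_ : MeasurableSpace X) (_ : BorelSpace X),
      CompactSpace X ∧ T2Space X ∧ FrechetUrysohnSpace X ∧
      ∃ (x : X) (A : Set (ProbabilityMeasure X)), (∀ μ ∈ A, (μ : Measure X).Regular) ∧
        (⟨Measure.dirac x, inferInstance⟩ : ProbabilityMeasure X) ∈ closure A ∧
        ∀ B ⊆ A, B.Countable →
          (⟨Measure.dirac x, inferInstance⟩ : ProbabilityMeasure X) ∉ closure B := by
  let Om : Type := (ℵ₁ : Cardinal.{0}).ord.ToType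
  have hmk : #Om = ℵ₁ := mk_ord_toType _
  have hseg : ∀ a : Om, (Iic a).Countable := by
    intro a
    have h1 : #(Iio a) < #Om := mk_Iio_lt a (by simp [Om])
    rw [hmk] at h1
    rw [← Iio_insert]
    exact ((countable_iff_lt_aleph_one _).mpr h1).insert a
  have hunc : ¬ (univ : Set Om).Countable := by
    rw [countable_iff_lt_aleph_one, mk_univ, hmk]
    exact lt_irrefl _
  obtain ⟨e⟩ := Cardinal.eq.mp (show #Om = Cardinal.mk unitInterval by
    rw [hmk, hCH]
    exact (mk_Icc_real zero_lt_one).symm)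
  exact main_of_surj hseg hunc e e.surjective

end Pool.Agent.H706Z.Dirac
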