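import Mathlib

/-!
Eilenberg's theorem on nonvanishing continuous functions on plane compacta, and the second theorem
of Janiszewski in the form needed here.
-/

set_option autoImplicit false

open Set Filter Topology Complex Metric

namespace Pool.Agent.H706Z.Pl

/-- `f` has a continuous logarithm on `X` -/
def HasLog (X : Set ℂ) (f : ℂ → ℂ) : Prop :=
  ∃ g : ℂ → ℂ, ContinuousOn g X ∧ ∀ z ∈ X, exp (g z) = f z

theorem HasLog.mul {X : Set ℂ} {f f' : ℂ → ℂ} (h : HasLog X f) (h' : HasLog X f') :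
    HasLog X (fun z => f z * f' z) := by
  obtain ⟨g, hg, hge⟩ := h
  obtain ⟨g', hg', hge'⟩ := h'
  exact ⟨fun z => g z + g' z, hg.add hg', fun z hz => by rw [exp_add, hge z hz, hge' z hz]⟩

theorem HasLog.zpow {X : Set ℂ} {f : ℂ → ℂ} (h : HasLog X f) (n : ℤ) :
    HasLog X (fun z => f z ^ n) := by
  obtain ⟨g, hg, hge⟩ := h
  exact ⟨fun z => n * g z, continuousOn_const.mul hg,
    fun z hz => by rw [Complex.exp_int_mul, hge z hz]⟩

theorem HasLog.congr {X : Set ℂ} {f f' : ℂ → ℂ} (h : HasLog X f) (h' : ∀ z ∈ X, f z = f' z) :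
    HasLog X f' := by
  obtain ⟨g, hg, hge⟩ := h
  exact ⟨g, hg, fun z hz => by rw [hge z hz, h' z hz]⟩

theorem hasLog_near {X : Set ℂ} {f : ℂ → ℂ} (hf : ContinuousOn f X)
    (h : ∀ z ∈ X, ‖f z - 1‖ < 1) : HasLog X f := by
  have hs : ∀ z ∈ X, f z ∈ slitPlane := by
    intro z hz
    have : f z = 1 + (f z - 1) := by ring
    rw [this]
    exact mem_slitPlane_of_norm_lt_one (h z hz)
  exact ⟨fun z => log (f z), hf.clog hs, fun z hz => exp_log (slitPlane_ne_zero (hs z hz))⟩

theorem hasLog_const {X : Set ℂ} {c : ℂ} (hc : c ≠ 0) : HasLog X (fun _ => c) :=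
  ⟨fun _ => log c, continuousOn_const, fun _ _ => exp_log hc⟩

theorem hasLog_far {X : Set ℂ} {b : ℂ} (hb : ∀ z ∈ X, ‖z‖ < ‖b‖) :
    HasLog X (fun z => z - b) := by
  rcases X.eq_empty_or_nonempty with rfl | ⟨x, hx⟩
  · exact ⟨fun _ => 0, continuousOn_const, fun z hz => hz.elim⟩
  have hb0 : b ≠ 0 := by
    have := lt_of_le_of_lt (norm_nonneg _) (hb x hx)
    exact norm_pos_iff.1 this
  have h1 : HasLog X (fun z => 1 - z / b) := by
    apply hasLog_near (by fun_prop)
    intro z hz
    have : 1 - z / b - 1 = -(z / b) := by ring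
    rw [this, norm_neg, norm_div, div_lt_one (norm_pos_iff.2 hb0)]
    exact hb z hz
  refine (h1.mul (hasLog_const (neg_ne_zero.2 hb0))).congr fun z _ => ?_
  field_simp
  ring

theorem hasLog_comp {X : Set ℂ} (hX : IsCompact X) {a b : ℂ} (ha : a ∉ X)
    (hab : b ∈ connectedComponentIn Xᶜ a) : HasLog X (fun z => (z - a) / (z - b)) := by
  have key : ∀ c ∈ connectedComponentIn Xᶜ a, ∀ c' ∈ connectedComponentIn Xᶜ a,
      c' ∉ X ∧ c ∉ X ∧ HasLog X (fun z => (z - c) / (z - c')) := by
    intro c0 hc0 c1 hc1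
    refine IsPreconnected.induction₂ (s := connectedComponentIn Xᶜ a)
      isPreconnected_connectedComponentIn
      (fun c c' => c' ∉ X ∧ c ∉ X ∧ HasLog X (fun z => (z - c) / (z - c'))) ?_ ?_ ?_ hc0 hc1
    · intro c hc
      have hcY : c ∈ Xᶜ := connectedComponentIn_subset _ _ hc
      obtain ⟨δ, hδ, hball⟩ := Metric.isOpen_iff.1 hX.isClosed.isOpen_compl c hcY
      have : ∀ᶠ c' in 𝓝 c, dist c' c < δ / 2 := Metric.ball_mem_nhds c (by positivity)
      filter_upwards [nhdsWithin_le_nhds this] with c' hc'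
      have hc'X : c' ∉ X := hball (by rw [mem_ball]; linarith)
      refine ⟨hc'X, hcY, ?_⟩
      have hne : ∀ z ∈ X, z - c' ≠ 0 := fun z hz h => hc'X (by rw [← sub_eq_zero.1 h]; exact hz)
      apply hasLog_near
      · exact ContinuousOn.div (by fun_prop) (by fun_prop) hne
      · intro z hz
        have h1 : δ ≤ ‖z - c‖ := by
          by_contra hlt
          push Not at hlt
          exact hball (by rw [mem_ball, dist_eq_norm]; exact hlt) hz
        rw [dist_eq_norm] at hc'
        have h3 : ‖z - c‖ ≤ ‖z - c'‖ + ‖c' - c‖ := by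
          calc ‖z - c‖ = ‖(z - c') + (c' - c)‖ := by ring_nf
            _ ≤ _ := norm_add_le _ _
        have h4 : (z - c) / (z - c') - 1 = (c' - c) / (z - c') := by
          have := hne z hz
          field_simp
          ring
        rw [h4, norm_div, div_lt_one (norm_pos_iff.2 (hne z hz))]
        linarith
    · rintro x y z - - - ⟨h1, h2, h3⟩ ⟨h4, -, h6⟩
      refine ⟨h4, h2, (h3.mul h6).congr fun w hw => ?_⟩
      have : w - y ≠ 0 := fun h => h1 (by rw [← sub_eq_zero.1 h]; exact hw)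
      have : w - z ≠ 0 := fun h => h4 (by rw [← sub_eq_zero.1 h]; exact hw)
      field_simp
    · rintro x y - - ⟨h1, h2, h3⟩
      refine ⟨h2, h1, (h3.zpow (-1)).congr fun w _ => ?_⟩
      simp
  exact (key a (mem_connectedComponentIn ha) b hab).2.2

/-- a continuous function with values in `2πiℤ` on a preconnected set is constant -/
theorem const_of_exp_one {Y : Type*} [TopologicalSpace Y] {S : Set Y} (hS : IsPreconnected S)
    {g : Y → ℂ} (hg : ContinuousOn g S) (h : ∀ z ∈ S, exp (g z) = 1) {x y : Y} (hx : x ∈ S)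
    (hy : y ∈ S) : g x = g y := by
  have hd : IsDiscrete {w : ℂ | exp w = 1} := by
    have h1 : {w : ℂ | exp w = 1} = AddSubgroup.zmultiples (2 * Real.pi * I : ℂ) := by
      ext w
      simp only [mem_setOf_eq, Complex.exp_eq_one_iff, SetLike.mem_coe,
        AddSubgroup.mem_zmultiples_iff, zsmul_eq_mul]
      constructor
      · rintro ⟨n, rfl⟩; exact ⟨n, rfl⟩
      · rintro ⟨n, rfl⟩; exact ⟨n, rfl⟩
    rw [h1]
    exact ⟨NormedSpace.discreteTopology_zmultiples _⟩
  exact hS.constant_of_mapsTo hd hg (fun z hz => h z hz) hx hy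

theorem log_plane {F : ℂ → ℂ} (hF : Continuous F) (h0 : ∀ z, F z ≠ 0) :
    ∃ g : ℂ → ℂ, Continuous g ∧ ∀ z, exp (g z) = F z := by
  have hsc : IsSimplyConnected (Set.univ : Set ℂ) :=
    (Homeomorph.Set.univ ℂ).toHomotopyEquiv.simplyConnectedSpace_iff.2 inferInstance
  obtain ⟨g, hg, hge⟩ := Complex.exists_continuousOn_eqOn_exp_comp hsc isOpen_univ
    hF.continuousOn (by rintro ⟨z, -, hz⟩; exact h0 z hz)
  exact ⟨g, continuousOn_univ.1 hg, fun z => hge (mem_univ z)⟩

/-- degree on a circle -/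
theorem circle_log {F : ℂ → ℂ} (hF : Continuous F) (c : ℂ) {r : ℝ} (hr : 0 < r)
    (h0 : ∀ z ∈ sphere c r, F z ≠ 0) :
    ∃ n : ℤ, HasLog (sphere c r) (fun z => F z * (z - c) ^ n) := by
  have hmem : ∀ t : ℝ, circleMap c r t ∈ sphere c r := fun t => circleMap_mem_sphere c hr.le t
  obtain ⟨L, hL, hLe⟩ := log_plane (F := fun w => F (circleMap c r w.re))
    (hF.comp ((continuous_circleMap c r).comp continuous_re)) (fun w => h0 _ (hmem _))
  have hper : ∀ t : ℝ, exp (L ((t + 2 * Real.pi : ℝ) : ℂ) - L t) = 1 := by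
    intro t
    rw [exp_sub, hLe, hLe]
    simp only [ofReal_re]
    rw [periodic_circleMap c r t]
    exact div_self (h0 _ (hmem _))
  obtain ⟨n, hn⟩ := Complex.exp_eq_one_iff.1 (hper 0)
  have hconst : ∀ t : ℝ, L ((t + 2 * Real.pi : ℝ) : ℂ) - L t = n * (2 * Real.pi * I) := by
    intro t
    rw [← hn]
    exact const_of_exp_one (S := (univ : Set ℝ)) isPreconnected_univ
      (g := fun t : ℝ => L ((t + 2 * Real.pi : ℝ) : ℂ) - L t) (by fun_prop)
      (fun t _ => hper t) (mem_univ _) (mem_univ _)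
  set E : ℝ → ℂ := fun t => L t - n * (t * I) - n * (Real.log r : ℂ) with hE
  have hEc : Continuous E := by fun_prop
  have hEp : Function.Periodic E (2 * Real.pi) := by
    intro t
    simp only [hE]
    have := hconst t
    push_cast at this ⊢
    linear_combination this
  have hEe : ∀ t : ℝ, exp (E t) = F (circleMap c r t) * (circleMap c r t - c) ^ (-n) := by
    intro t
    simp only [hE]
    rw [exp_sub, exp_sub, hLe, Complex.exp_int_mul, Complex.exp_int_mul, circleMap_sub_center,
      circleMap_zero, ← ofReal_exp, Real.exp_log hr, zpow_neg, mul_zpow]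
    simp only [ofReal_re]
    have h1 : (r : ℂ) ^ n ≠ 0 := zpow_ne_zero _ (by exact_mod_cast hr.ne')
    have h2 : exp (t * I) ^ n ≠ 0 := zpow_ne_zero _ (exp_ne_zero _)
    field_simp
  refine ⟨-n, fun z => E (arg (z - c)), ?_, ?_⟩
  · -- continuity on the circle
    have hq : IsQuotientMap (fun t : Icc (-Real.pi) Real.pi =>
        (⟨circleMap c r t, hmem t⟩ : sphere c r)) := by
      apply IsClosedMap.isQuotientMap
      · exact Continuous.isClosedMap (by fun_prop)
      · fun_prop
      · rintro ⟨z, hz⟩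
        refine ⟨⟨arg (z - c), (neg_pi_lt_arg _).le, arg_le_pi _⟩, ?_⟩
        apply Subtype.ext
        simp only [circleMap]
        have h1 : ‖z - c‖ = r := by rwa [mem_sphere, dist_eq_norm] at hz
        rw [← h1, norm_mul_exp_arg_mul_I]
        ring
    rw [continuousOn_iff_continuous_domRestrict, hq.continuous_iff]
    have : ((sphere c r).domRestrict (fun z => E (arg (z - c)))) ∘
        (fun t : Icc (-Real.pi) Real.pi => (⟨circleMap c r t, hmem t⟩ : sphere c r)) =
        fun t : Icc (-Real.pi) Real.pi => E t := by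
      funext t
      show E (arg (circleMap c r t - c)) = E t
      rw [circleMap_sub_center, circleMap_zero, arg_real_mul _ hr, arg_exp_mul_I, toIocMod]
      have := hEp.sub_zsmul_eq (x := (t : ℝ)) (toIocDiv Real.two_pi_pos (-Real.pi) t)
      simpa using this
    rw [this]
    fun_prop
  · intro z hz
    rw [hEe]
    have h1 : ‖z - c‖ = r := by rwa [mem_sphere, dist_eq_norm] at hz
    have h2 : circleMap c r (arg (z - c)) = z := by
      simp only [circleMap]
      rw [← h1, norm_mul_exp_arg_mul_I]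
      ring
    rw [h2]

/-- removal of finitely many zeros -/
theorem remove_zeros {X : Set ℂ} (hX : IsClosed X) (a : ℂ)
    (hP : ∀ c, c ∉ X → ∃ m : ℤ, HasLog X (fun z => (z - c) * (z - a) ^ m)) (ha : a ∉ X)
    (Z : Finset ℂ) : ∀ F : ℂ → ℂ, Continuous F → (∀ z, F z = 0 → z ∈ Z) → (∀ z ∈ X, F z ≠ 0) →
      ∃ n : ℤ, HasLog X (fun z => F z * (z - a) ^ n) := by
  classical
  induction Z using Finset.induction_on with
  | empty =>
    intro F hF h0 _
    obtain ⟨g, hg, hge⟩ := log_plane hF (fun z hz => by simpa using h0 z hz)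
    exact ⟨0, g, hg.continuousOn, fun z _ => by simp [hge]⟩
  | insert c Z hc ih =>
    intro F hF h0 hX0
    by_cases hFc : F c = 0
    swap
    · refine ih F hF (fun z hz => ?_) hX0
      rcases Finset.mem_insert.1 (h0 z hz) with rfl | h
      · exact absurd hz hFc
      · exact h
    have hcX : c ∉ X := fun h => hX0 c h hFc
    have hcl : IsClosed (X ∪ (Z : Set ℂ)) := hX.union Z.finite_toSet.isClosed
    obtain ⟨δ, hδ, hball⟩ := Metric.isOpen_iff.1 hcl.isOpen_compl c (by
      rintro (h | h)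
      · exact hcX h
      · exact hc h)
    set r := δ / 2 with hr
    have hr0 : 0 < r := by positivity
    have hsub : closedBall c r ⊆ (X ∪ (Z : Set ℂ))ᶜ :=
      (closedBall_subset_ball (by linarith)).trans hball
    have hs0 : ∀ z ∈ sphere c r, F z ≠ 0 := by
      intro z hz hFz
      rcases Finset.mem_insert.1 (h0 z hFz) with rfl | h
      · simp at hz; linarith
      · exact hsub (sphere_subset_closedBall hz) (Or.inr h)
    obtain ⟨n, g, hg, hge⟩ := circle_log hF c hr0 hs0
    obtain ⟨G, hG⟩ := ContinuousMap.exists_restrict_eq (isClosed_sphere (x := c) (ε := r))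
      (⟨(sphere c r).domRestrict g, continuousOn_iff_continuous_domRestrict.1 hg⟩ : C(sphere c r, ℂ))
    have hGe : ∀ z ∈ sphere c r, G z = g z := fun z hz => by
      have := congrArg (fun f : C(sphere c r, ℂ) => f ⟨z, hz⟩) hG
      simpa using this
    set F' : ℂ → ℂ := fun z => if z ∈ closedBall c r then exp (G z) else F z * (z - c) ^ n
      with hF'
    have hF'c : Continuous F' := by
      rw [← continuousOn_univ]
      have hu : (univ : Set ℂ) = closedBall c r ∪ (ball c r)ᶜ := by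
        ext z
        simp only [mem_univ, mem_union, mem_closedBall, mem_compl_iff, mem_ball, true_iff]
        rcases le_or_gt (dist z c) r with h | h
        · exact Or.inl h
        · exact Or.inr (not_lt.2 h.le)
      rw [hu]
      refine ContinuousOn.union_of_isClosed ?_ ?_ isClosed_closedBall isOpen_ball.isClosed_compl
      · refine ContinuousOn.congr (f := fun z => exp (G z)) (by fun_prop) fun z hz => ?_
        simp only [hF', if_pos hz]
      · refine ContinuousOn.congr (f := fun z => F z * (z - c) ^ n) ?_ fun z hz => ?_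
        · refine hF.continuousOn.mul (ContinuousOn.zpow₀ (by fun_prop) n fun z hz => Or.inl ?_)
          intro h
          apply hz
          rw [sub_eq_zero.1 h]
          exact mem_ball_self hr0
        · by_cases hz' : z ∈ closedBall c r
          · have hzs : z ∈ sphere c r := by
              rw [mem_sphere]
              exact le_antisymm hz' (not_lt.1 hz)
            simp only [hF', if_pos hz']
            rw [hGe z hzs, hge z hzs]
          · simp only [hF', if_neg hz']
    have hFX : ∀ z ∈ X, F' z = F z * (z - c) ^ n := fun z hz => by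
      simp only [hF', if_neg (fun h => hsub h (Or.inl hz))]
    have hzc : ∀ z ∈ X, z - c ≠ 0 := fun z hz h => hcX (by rw [← sub_eq_zero.1 h]; exact hz)
    have hza : ∀ z ∈ X, z - a ≠ 0 := fun z hz h => ha (by rw [← sub_eq_zero.1 h]; exact hz)
    obtain ⟨k, hk⟩ := ih F' hF'c (fun z hz => by
      by_cases hz' : z ∈ closedBall c r
      · simp only [hF', if_pos hz'] at hz
        exact absurd hz (exp_ne_zero _)
      · simp only [hF', if_neg hz'] at hz
        have hzc' : z ≠ c := by
          rintro rfl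
          exact hz' (mem_closedBall_self hr0.le)
        rcases mul_eq_zero.1 hz with h | h
        · rcases Finset.mem_insert.1 (h0 z h) with h' | h'
          · exact absurd h' hzc'
          · exact h'
        · exact absurd h (zpow_ne_zero _ (sub_ne_zero.2 hzc'))) (fun z hz => by
      rw [hFX z hz]
      exact mul_ne_zero (hX0 z hz) (zpow_ne_zero _ (hzc z hz)))
    obtain ⟨m, hm⟩ := hP c hcX
    refine ⟨k + m * (-n), (hk.mul (hm.zpow (-n))).congr fun z hz => ?_⟩
    rw [hFX z hz, mul_zpow, ← zpow_mul, zpow_add₀ (hza z hz), zpow_neg]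
    have := zpow_ne_zero n (hzc z hz)
    field_simp

/-- approximation by a function with finitely many zeros -/
theorem approx {X : Set ℂ} (hX : IsCompact X) {f : ℂ → ℂ} (hf : ContinuousOn f X)
    (h0 : ∀ z ∈ X, f z ≠ 0) :
    ∃ F : ℂ → ℂ, Continuous F ∧ {z | F z = 0}.Finite ∧ ∀ z ∈ X, ‖F z / f z - 1‖ < 1 := by
  classical
  obtain ⟨R, hR⟩ := hX.isBounded.subset_ball (0 : ℂ)
  obtain ⟨m, hm0, hm1, hm⟩ : ∃ m : ℝ, 0 < m ∧ m ≤ 1 ∧ ∀ z ∈ X, m ≤ ‖f z‖ := by
    rcases X.eq_empty_or_nonempty with rfl | hne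
    · exact ⟨1, one_pos, le_rfl, fun z hz => hz.elim⟩
    obtain ⟨x, hx, hxm⟩ := hX.exists_isMinOn hne hf.norm
    exact ⟨min 1 ‖f x‖, lt_min one_pos (norm_pos_iff.2 (h0 x hx)), min_le_left _ _,
      fun z hz => (min_le_right _ _).trans (hxm hz)⟩
  have hcl : IsClosed (X ∪ (ball (0 : ℂ) R)ᶜ) := hX.isClosed.union isOpen_ball.isClosed_compl
  have hc1 : ContinuousOn (fun z => if z ∈ X then f z else 1) (X ∪ (ball (0 : ℂ) R)ᶜ) := by
    refine ContinuousOn.union_of_isClosed ?_ ?_ hX.isClosed isOpen_ball.isClosed_compl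
    · exact hf.congr fun z hz => by simp only [if_pos hz]
    · exact (continuousOn_const (c := (1 : ℂ))).congr fun z hz => by
        simp only [if_neg (fun h => hz (hR h))]
  obtain ⟨F0, hF0⟩ := ContinuousMap.exists_restrict_eq hcl
    (⟨_, continuousOn_iff_continuous_domRestrict.1 hc1⟩ : C(↥(X ∪ (ball (0 : ℂ) R)ᶜ), ℂ))
  have hF0e : ∀ z ∈ X ∪ (ball (0 : ℂ) R)ᶜ, F0 z = if z ∈ X then f z else 1 := fun z hz => by
    have := congrArg (fun g : C(↥(X ∪ (ball (0 : ℂ) R)ᶜ), ℂ) => g ⟨z, hz⟩) hF0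
    simpa using this
  have hF0X : ∀ z ∈ X, F0 z = f z := fun z hz => by rw [hF0e z (Or.inl hz), if_pos hz]
  have hF0o : ∀ z, z ∉ ball (0 : ℂ) R → F0 z = 1 := fun z hz => by
    rw [hF0e z (Or.inr hz), if_neg (fun h => hz (hR h))]
  have huc : UniformContinuous (fun z => F0 z - 1) := by
    apply HasCompactSupport.uniformContinuous_of_continuous _ (by fun_prop)
    refine HasCompactSupport.intro (isCompact_closedBall (0 : ℂ) R) fun z hz => ?_
    rw [hF0o z (fun h => hz (ball_subset_closedBall h)), sub_self]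
  obtain ⟨G, hGc, hG⟩ := huc.exists_contDiff_dist_le (ε := m / 4) (by positivity)
  have hGd : ∀ z, HasFDerivAt G (fderiv ℝ G z) z := fun z =>
    (hGc.differentiable (by simp) z).hasFDerivAt
  have hnull : MeasureTheory.volume (G '' {z | (fderiv ℝ G z).det = 0}) = 0 :=
    MeasureTheory.addHaar_image_eq_zero_of_det_fderivWithin_eq_zero MeasureTheory.volume
      (f' := fun z => fderiv ℝ G z) (fun z _ => (hGd z).hasFDerivWithinAt) (fun z hz => hz)
  obtain ⟨c, hc1, hc2⟩ : ∃ c ∈ ball (-1 : ℂ) (m / 4), c ∉ G '' {z | (fderiv ℝ G z).det = 0} := by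
    by_contra hcon
    push Not at hcon
    have := MeasureTheory.measure_mono_null hcon hnull
    exact (Metric.measure_ball_pos MeasureTheory.volume (-1 : ℂ) (by positivity : 0 < m / 4)).ne'
      this
  have hclose : ∀ z, ‖G z - c - F0 z‖ < m / 2 := by
    intro z
    have h1 := hG z
    rw [dist_eq_norm] at h1
    rw [mem_ball, dist_eq_norm] at hc1
    calc ‖G z - c - F0 z‖ = ‖(G z - (F0 z - 1)) - (c - -1)‖ := by ring_nf
      _ ≤ _ := norm_sub_le _ _
      _ < m / 2 := by linarith
  refine ⟨fun z => G z - c, hGc.continuous.sub continuous_const, ?_, ?_⟩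
  · apply IsCompact.finite
    · refine (isCompact_closedBall (0 : ℂ) R).of_isClosed_subset
        (isClosed_eq (hGc.continuous.sub continuous_const) continuous_const) fun z hz => ?_
      by_contra hzR
      have h1 := hclose z
      rw [show G z - c = 0 from hz, hF0o z (fun h => hzR (ball_subset_closedBall h))] at h1
      simp at h1
      linarith
    · rw [isDiscrete_iff_nhdsNE]
      intro z hz
      have hz' : G z = c := sub_eq_zero.1 hz
      have hdet : (fderiv ℝ G z).det ≠ 0 := fun h => hc2 ⟨z, h, hz'⟩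
      have h1 := (hGd z).eventually_ne (c := c)
        ⟨_, ((fderiv ℝ G z).toContinuousLinearEquivOfDetNeZero hdet).antilipschitz⟩
      rw [inf_principal_eq_bot]
      filter_upwards [h1] with w hw hw'
      exact hw (sub_eq_zero.1 hw')
  · intro z hz
    have h1 := hclose z
    rw [hF0X z hz] at h1
    have h2 : (G z - c) / f z - 1 = (G z - c - f z) / f z := by
      have := h0 z hz
      field_simp
    rw [h2, norm_div, div_lt_one (norm_pos_iff.2 (h0 z hz))]
    linarith [hm z hz]

/-- Eilenberg's theorem for compacta with at most two complementary components -/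
theorem eilenberg {X : Set ℂ} (hX : IsCompact X) {a b : ℂ} (ha : a ∉ X)
    (hb : ∀ z ∈ X, ‖z‖ < ‖b‖)
    (hab : ∀ c, c ∉ X → a ∈ connectedComponentIn Xᶜ c ∨ b ∈ connectedComponentIn Xᶜ c)
    {f : ℂ → ℂ} (hf : ContinuousOn f X) (h0 : ∀ z ∈ X, f z ≠ 0) :
    ∃ n : ℤ, HasLog X (fun z => f z * (z - a) ^ n) := by
  obtain ⟨F, hF, hfin, hFf⟩ := approx hX hf h0
  have hbX : b ∉ X := fun h => lt_irrefl _ (hb b h)
  have hF0 : ∀ z ∈ X, F z ≠ 0 := by
    intro z hz h
    have := hFf z hz
    simp [h] at this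
  obtain ⟨n, hn⟩ := remove_zeros hX.isClosed a (fun c hc => by
    rcases hab c hc with h | h
    · exact ⟨-1, (hasLog_comp hX hc h).congr fun z _ => by simp [div_eq_mul_inv]⟩
    · refine ⟨0, ((hasLog_comp hX hc h).mul (hasLog_far hb)).congr fun z hz => ?_⟩
      have : z - b ≠ 0 := fun h => hbX (by rw [← sub_eq_zero.1 h]; exact hz)
      field_simp) ha hfin.toFinset F hF (fun z hz => by simpa using hz) hF0
  have h1 : HasLog X (fun z => F z / f z) := hasLog_near (hF.continuousOn.div hf h0) hFf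
  refine ⟨n, (hn.mul (h1.zpow (-1))).congr fun z hz => ?_⟩
  have := hF0 z hz
  have := h0 z hz
  simp only [zpow_neg, zpow_one]
  field_simp

/-- the twisted function attached to a pair of closed sets -/
noncomputable def tw (K : Set ℂ) (u : ℂ → ℂ) : ℂ → ℂ := by
  classical exact fun z => if z ∈ K then exp (u z) else exp (-u z)

theorem tw_left {K : Set ℂ} (u : ℂ → ℂ) {z : ℂ} (hz : z ∈ K) : tw K u z = exp (u z) := by
  simp only [tw, if_pos hz]

theorem tw_right {K L : Set ℂ} {u : ℂ → ℂ} (h : ∀ z ∈ K ∩ L, exp (u z) = exp (-u z)) {z : ℂ}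
    (hz : z ∈ L) : tw K u z = exp (-u z) := by
  by_cases hK : z ∈ K
  · rw [tw_left u hK, h z ⟨hK, hz⟩]
  · simp only [tw, if_neg hK]

theorem tw_cont {K L : Set ℂ} (hK : IsClosed K) (hL : IsClosed L) {u : ℂ → ℂ} (hu : Continuous u)
    (h : ∀ z ∈ K ∩ L, exp (u z) = exp (-u z)) : ContinuousOn (tw K u) (K ∪ L) := by
  refine ContinuousOn.union_of_isClosed ?_ ?_ hK hL
  · exact ContinuousOn.congr (f := fun z => exp (u z)) (by fun_prop) fun z hz => tw_left u hz
  · exact ContinuousOn.congr (f := fun z => exp (-u z)) (by fun_prop) fun z hz => tw_right h hz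

theorem tw_ne (K : Set ℂ) (u : ℂ → ℂ) (z : ℂ) : tw K u z ≠ 0 := by
  by_cases hK : z ∈ K
  · rw [tw_left u hK]; exact exp_ne_zero _
  · simp only [tw, if_neg hK]; exact exp_ne_zero _

theorem nolog {K L : Set ℂ} (hK : IsPreconnected K) (hL : IsPreconnected L) {u f : ℂ → ℂ}
    (hu : Continuous u) (hfK : ∀ z ∈ K, f z = exp (u z)) (hfL : ∀ z ∈ L, f z = exp (-u z))
    (h : HasLog (K ∪ L) f) {x y : ℂ} (hx : x ∈ K ∩ L) (hy : y ∈ K ∩ L) : u x = u y := by
  obtain ⟨g, hg, hge⟩ := h
  have h1 : g x - u x = g y - u y :=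
    const_of_exp_one hK (g := fun z => g z - u z)
      ((hg.mono subset_union_left).sub hu.continuousOn) (fun z hz => by
        rw [exp_sub, hge z (Or.inl hz), hfK z hz, div_self (exp_ne_zero _)]) hx.1 hy.1
  have h2 : g x + u x = g y + u y :=
    const_of_exp_one hL (g := fun z => g z + u z)
      ((hg.mono subset_union_right).add hu.continuousOn) (fun z hz => by
        rw [exp_add, hge z (Or.inr hz), hfL z hz, ← exp_add, neg_add_cancel, exp_zero]) hx.2 hy.2
  linear_combination (h2 - h1) / 2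

theorem urysohn {A B : Set ℂ} (hA : IsClosed A) (hB : IsClosed B) (hd : Disjoint A B) :
    ∃ u : ℂ → ℂ, Continuous u ∧ (∀ z ∈ A, u z = Real.pi * I) ∧ ∀ z ∈ B, u z = 0 := by
  obtain ⟨v, hv0, hv1, -⟩ := exists_continuous_zero_one_of_isClosed hB hA hd.symm
  refine ⟨fun z => (v z : ℂ) * (Real.pi * I), by fun_prop, fun z hz => ?_, fun z hz => ?_⟩
  · simp [hv1 hz]
  · simp [hv0 hz]

theorem exp_pi_neg : exp (Real.pi * I) = exp (-(Real.pi * I)) := by
  rw [exp_neg, exp_pi_mul_I]
  norm_num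

theorem far_point {X : Set ℂ} (hX : IsCompact X) : ∃ b : ℂ, ∀ z ∈ X, ‖z‖ < ‖b‖ := by
  obtain ⟨R, hR⟩ := hX.isBounded.subset_ball (0 : ℂ)
  refine ⟨(R : ℂ), fun z hz => ?_⟩
  have := hR hz
  rw [mem_ball_zero_iff] at this
  rw [Complex.norm_real]
  exact this.trans_le (le_abs_self R)

/-- second theorem of Janiszewski -/
theorem two_piece {K L : Set ℂ} (hK : IsCompact K) (hL : IsCompact L) (hKc : IsPreconnected K)
    (hLc : IsPreconnected L) (hc : IsPreconnected (K ∪ L)ᶜ) : IsPreconnected (K ∩ L) := by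
  rw [isPreconnected_iff_subset_of_fully_disjoint_closed (hK.inter_right hL.isClosed).isClosed]
  intro A B hA hB hAB hd
  by_contra hcon
  rw [not_or, not_subset, not_subset] at hcon
  obtain ⟨⟨y, hy, hyA⟩, ⟨x, hx, hxB⟩⟩ := hcon
  have hxA : x ∈ A := (hAB hx).resolve_right hxB
  have hyB : y ∈ B := (hAB hy).resolve_left hyA
  obtain ⟨u, hu, huA, huB⟩ := urysohn hA hB hd
  have hint : ∀ z ∈ K ∩ L, exp (u z) = exp (-u z) := by
    intro z hz
    rcases hAB hz with h | h
    · rw [huA z h]; exact exp_pi_neg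
    · rw [huB z h, neg_zero]
  obtain ⟨b, hb⟩ := far_point (hK.union hL)
  have hbX : b ∉ K ∪ L := fun h => lt_irrefl _ (hb b h)
  obtain ⟨n, hn⟩ := eilenberg (hK.union hL) hbX hb
    (fun c hc' => Or.inl (hc.subset_connectedComponentIn hc' Subset.rfl hbX))
    (tw_cont hK.isClosed hL.isClosed hu hint) (fun z _ => tw_ne K u z)
  have h1 : HasLog (K ∪ L) (tw K u) := by
    refine (hn.mul ((hasLog_far hb).zpow (-n))).congr fun z hz => ?_
    have : z - b ≠ 0 := fun h => hbX (by rw [← sub_eq_zero.1 h]; exact hz)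
    have := zpow_ne_zero n this
    rw [zpow_neg]
    field_simp
  have h2 := nolog hKc hLc hu (fun z hz => tw_left u hz) (fun z hz => tw_right hint hz) h1 hx hy
  rw [huA x hxA, huB y hyB] at h2
  simp at h2

/-- three pieces in the intersection give three complementary components of the union -/
theorem three_piece {K L A B C : Set ℂ} (hK : IsCompact K) (hL : IsCompact L)
    (hKc : IsPreconnected K) (hLc : IsPreconnected L) (hA : IsClosed A) (hB : IsClosed B)
    (hC : IsClosed C) (hAB : Disjoint A B) (hAC : Disjoint A C) (hBC : Disjoint B C)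
    (hcov : K ∩ L ⊆ A ∪ B ∪ C) {x y w : ℂ} (hx : x ∈ K ∩ L) (hy : y ∈ K ∩ L) (hw : w ∈ K ∩ L)
    (hxA : x ∈ A) (hyB : y ∈ B) (hwC : w ∈ C) :
    ∃ p q r : ℂ, p ∉ K ∪ L ∧ q ∉ K ∪ L ∧ r ∉ K ∪ L ∧ q ∉ connectedComponentIn (K ∪ L)ᶜ p ∧
      r ∉ connectedComponentIn (K ∪ L)ᶜ p ∧ r ∉ connectedComponentIn (K ∪ L)ᶜ q := by
  by_contra hcon
  push Not at hcon
  obtain ⟨b, hb⟩ := far_point (hK.union hL)
  have hbX : b ∉ K ∪ L := fun h => lt_irrefl _ (hb b h)
  obtain ⟨a, ha, hab⟩ : ∃ a, a ∉ K ∪ L ∧ ∀ c, c ∉ K ∪ L →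
      a ∈ connectedComponentIn (K ∪ L)ᶜ c ∨ b ∈ connectedComponentIn (K ∪ L)ᶜ c := by
    by_cases h : ∃ a, a ∉ K ∪ L ∧ b ∉ connectedComponentIn (K ∪ L)ᶜ a
    · obtain ⟨a, ha, hab⟩ := h
      refine ⟨a, ha, fun c hc => ?_⟩
      by_contra h'
      rw [not_or] at h'
      exact hab (hcon c a b hc ha hbX h'.1 h'.2)
    · push Not at h
      exact ⟨b, hbX, fun c hc => Or.inr (h c hc)⟩
  obtain ⟨u, hu, huA, huB⟩ := urysohn hA (hB.union hC) (disjoint_union_right.2 ⟨hAB, hAC⟩)
  obtain ⟨v, hv, hvB, hvA⟩ := urysohn hB (hA.union hC) (disjoint_union_right.2 ⟨hAB.symm, hBC⟩)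
  have hui : ∀ z ∈ K ∩ L, exp (u z) = exp (-u z) := by
    intro z hz
    rcases hcov hz with (h | h) | h
    · rw [huA z h]; exact exp_pi_neg
    · rw [huB z (Or.inl h), neg_zero]
    · rw [huB z (Or.inr h), neg_zero]
  have hvi : ∀ z ∈ K ∩ L, exp (v z) = exp (-v z) := by
    intro z hz
    rcases hcov hz with (h | h) | h
    · rw [hvA z (Or.inl h), neg_zero]
    · rw [hvB z h]; exact exp_pi_neg
    · rw [hvA z (Or.inr h), neg_zero]
  obtain ⟨n, hn⟩ := eilenberg (hK.union hL) ha hb hab
    (tw_cont hK.isClosed hL.isClosed hu hui) (fun z _ => tw_ne K u z)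
  obtain ⟨m, hm⟩ := eilenberg (hK.union hL) ha hb hab
    (tw_cont hK.isClosed hL.isClosed hv hvi) (fun z _ => tw_ne K v z)
  have hza : ∀ z ∈ K ∪ L, z - a ≠ 0 := fun z hz h => ha (by rw [← sub_eq_zero.1 h]; exact hz)
  have h1 : HasLog (K ∪ L) (fun z => tw K u z ^ m * tw K v z ^ (-n)) := by
    refine ((hn.zpow m).mul (hm.zpow (-n))).congr fun z hz => ?_
    rw [mul_zpow, mul_zpow, ← zpow_mul, ← zpow_mul, mul_neg, mul_comm m n, zpow_neg (z - a)]
    have := zpow_ne_zero (n * m) (hza z hz)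
    field_simp
  have h2 := nolog hKc hLc (u := fun z => m * u z + (-n : ℤ) * v z) (by fun_prop)
    (fun z hz => by
      simp only [tw_left u hz, tw_left v hz]
      rw [exp_add, Complex.exp_int_mul, Complex.exp_int_mul])
    (fun z hz => by
      simp only [tw_right hui hz, tw_right hvi hz]
      rw [← Complex.exp_int_mul, ← Complex.exp_int_mul, ← exp_add]
      congr 1
      ring) h1 hy hw
  simp only [huB y (Or.inl hyB), hvB y hyB, huB w (Or.inr hwC), hvA w (Or.inr hwC)] at h2
  have hn0 : n = 0 := by simpa using h2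
  subst hn0
  have h3 := nolog hKc hLc hu (fun z hz => tw_left u hz) (fun z hz => tw_right hui hz)
    (hn.congr fun z _ => by simp) hx hw
  rw [huA x hxA, huB w (Or.inr hwC)] at h3
  simp at h3

end Pool.Agent.H706Z.Pl
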