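import Mathlib

/-!
Continuum theory: separation, boundary bumping, irreducible continua, and the binary tree of
subcontinua attached to a partition into closed sets.
-/

set_option autoImplicit false

open Set Filter Topology Metric

namespace Pool.Agent.H706Z.Pl

variable {X : Type*} [MetricSpace X]

theorem closed_cases {A P Q : Set X} (hA : IsPreconnected A) (hP : IsClosed P)
    (hQ : IsClosed Q) (hAPQ : A ⊆ P ∪ Q) (hd : Disjoint P Q) : A ⊆ P ∨ A ⊆ Q :=
  (isPreconnected_iff_subset_of_disjoint_closed.1 hA) P Q hP hQ hAPQ (by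
    rw [hd.inter_eq, Set.inter_empty])

theorem iInter_preconn {ι : Type*} [Nonempty ι]
    (K : ι → Set X) (hdir : Directed (· ⊇ ·) K) (hc : ∀ i, IsCompact (K i))
    (hconn : ∀ i, IsPreconnected (K i)) : IsPreconnected (⋂ i, K i) := by
  have hcl : IsClosed (⋂ i, K i) := isClosed_iInter fun i => (hc i).isClosed
  rw [isPreconnected_iff_subset_of_fully_disjoint_closed hcl]
  intro a b ha hb hab habd
  rcases normal_separation ha hb habd with ⟨u, v, hu, hv, hau, hbv, huv⟩
  obtain ⟨i, hi⟩ : ∃ i, K i ⊆ u ∪ v :=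
    exists_subset_nhds_of_isCompact' hdir hc (fun i => (hc i).isClosed)
      (fun x hx => (hu.union hv).mem_nhds ((hab.trans (Set.union_subset_union hau hbv)) hx))
  rcases (hconn i).subset_or_subset hu hv huv hi with h | h
  · left
    intro x hx
    rcases hab hx with h1 | h1
    · exact h1
    · exact absurd (hbv h1) (fun h2 => Set.disjoint_left.1 huv (h (Set.mem_iInter.1 hx i)) h2)
  · right
    intro x hx
    rcases hab hx with h1 | h1
    · exact absurd (hau h1) (fun h2 => Set.disjoint_left.1 huv h2 (h (Set.mem_iInter.1 hx i)))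
    · exact h1

theorem sep {K C : Set X} (hK : IsCompact K) (hC : IsClosed C) {x : X} (hx : x ∈ K)
    (h : ∀ z ∈ connectedComponentIn K x, z ∉ C) :
    ∃ N M : Set X, IsClosed N ∧ IsClosed M ∧ N ∪ M = K ∧ Disjoint N M ∧ x ∈ N ∧ Disjoint N C := by
  have : CompactSpace K := isCompact_iff_compactSpace.1 hK
  set x' : K := ⟨x, hx⟩ with hx'
  have hcomp := connectedComponent_eq_iInter_isClopen x'
  have hin := connectedComponentIn_eq_image (F := K) hx
  obtain ⟨Z, hZ1, hZ2, hZ3⟩ : ∃ Z : Set K, IsClopen Z ∧ x' ∈ Z ∧ Z ∩ ((↑) ⁻¹' C) = ∅ := by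
    by_contra hcon
    push Not at hcon
    have : Nonempty { s : Set K // IsClopen s ∧ x' ∈ s } := ⟨⟨univ, isClopen_univ, mem_univ _⟩⟩
    have hCc : IsClosed ((↑) ⁻¹' C : Set K) := hC.preimage continuous_subtype_val
    have := IsCompact.nonempty_iInter_of_directed_nonempty_isCompact_isClosed
      (fun s : { s : Set K // IsClopen s ∧ x' ∈ s } => (s : Set K) ∩ ((↑) ⁻¹' C))
      (fun s t => ⟨⟨s.1 ∩ t.1, s.2.1.inter t.2.1, s.2.2, t.2.2⟩,
        Set.inter_subset_inter_left _ Set.inter_subset_left,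
        Set.inter_subset_inter_left _ Set.inter_subset_right⟩)
      (fun s => hcon s.1 s.2.1 s.2.2)
      (fun s => (s.2.1.1.inter hCc).isCompact)
      (fun s => s.2.1.1.inter hCc)
    obtain ⟨z, hz⟩ := this
    have hz1 : z ∈ connectedComponent x' := by
      rw [hcomp]
      exact Set.mem_iInter.2 fun s => (Set.mem_iInter.1 hz s).1
    have hz2 : (z : X) ∈ C := (Set.mem_iInter.1 hz (Classical.arbitrary _)).2
    refine h z ?_ hz2
    rw [hin]
    exact ⟨z, hz1, rfl⟩
  refine ⟨(↑) '' Z, (↑) '' Zᶜ, ?_, ?_, ?_, ?_, ⟨x', hZ2, rfl⟩, ?_⟩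
  · exact hK.isClosed.isClosedMap_subtype_val _ hZ1.1
  · exact hK.isClosed.isClosedMap_subtype_val _ hZ1.2.isClosed_compl
  · rw [← Set.image_union, Set.union_compl_self, Set.image_univ, Subtype.range_coe]
  · rw [Set.disjoint_image_iff Subtype.val_injective]
    exact disjoint_compl_right
  · rw [Set.disjoint_left]
    rintro _ ⟨z, hz, rfl⟩ hzC
    have : z ∈ Z ∩ ((↑) ⁻¹' C) := ⟨hz, hzC⟩
    rw [hZ3] at this
    exact this

theorem closed_comp {F : Set X} (hF : IsClosed F) (x : X) :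
    IsClosed (connectedComponentIn F x) := by
  by_cases hx : x ∈ F
  · have h1 : closure (connectedComponentIn F x) ⊆ connectedComponentIn F x := by
      apply IsPreconnected.subset_connectedComponentIn
      · exact isPreconnected_connectedComponentIn.closure
      · exact subset_closure (mem_connectedComponentIn hx)
      · exact closure_minimal (connectedComponentIn_subset _ _) hF
    exact isClosed_of_closure_subset h1
  · rw [connectedComponentIn_eq_empty hx]
    exact isClosed_empty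

theorem compact_comp {F : Set X} (hF : IsCompact F) (x : X) :
    IsCompact (connectedComponentIn F x) :=
  hF.of_isClosed_subset (closed_comp hF.isClosed x) (connectedComponentIn_subset _ _)

/-- boundary bumping -/
theorem touch {A V : Set X} (hA : IsCompact A)
    (hAc : IsPreconnected A) (hV : IsOpen V) {x : X} (hx : x ∈ A) (hxV : x ∉ V)
    (hAV : (A ∩ V).Nonempty) :
    (connectedComponentIn (A \ V) x ∩ closure V).Nonempty := by
  by_contra hcon
  obtain ⟨N, M, hN, hM, hNM, hd, hxN, hNC⟩ := sep (hA.diff hV) isClosed_closure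
    (⟨hx, hxV⟩ : x ∈ A \ V) (C := closure V) (fun z hz hz' => hcon ⟨z, hz, hz'⟩)
  have hcov : A ⊆ N ∪ (M ∪ closure V) := by
    intro y hy
    by_cases hyV : y ∈ V
    · exact Or.inr (Or.inr (subset_closure hyV))
    · have : y ∈ N ∪ M := by rw [hNM]; exact ⟨hy, hyV⟩
      rcases this with h | h
      · exact Or.inl h
      · exact Or.inr (Or.inl h)
  have hdis : Disjoint N (M ∪ closure V) := Set.disjoint_union_right.2 ⟨hd, hNC⟩
  rcases closed_cases hAc hN (hM.union isClosed_closure) hcov hdis with h | h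
  · obtain ⟨y, hy, hyV⟩ := hAV
    exact Set.disjoint_left.1 hNC (h hy) (subset_closure hyV)
  · exact Set.disjoint_left.1 hdis hxN (h hx)

/-- a component of `K ∩ N` can be slightly enlarged inside `N` so as to leave `K` -/
theorem expand {N K U : Set X} (hN : IsCompact N) (hNc : IsPreconnected N) (hK : IsClosed K)
    {a : X} (haN : a ∈ N) (haK : a ∈ K) (hNK : ¬ N ⊆ K) (hU : IsOpen U)
    (hQ : connectedComponentIn (K ∩ N) a ⊆ U) :
    ∃ N', N' ⊆ N ∧ N' ⊆ U ∧ IsCompact N' ∧ IsPreconnected N' ∧ a ∈ N' ∧ ¬ N' ⊆ K := by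
  obtain ⟨A, B, hA, hB, hAB, hd, haA, hAU⟩ := sep (hN.inter_left hK) hU.isClosed_compl
    (⟨haK, haN⟩ : a ∈ K ∩ N) (fun z hz hz' => hz' (hQ hz))
  obtain ⟨V, hV, hAV, hVc⟩ := normal_exists_closure_subset hA (hU.inter hB.isOpen_compl)
    (subset_inter (fun z hz => by_contra fun h => disjoint_left.1 hAU hz h)
      (fun z hz h => disjoint_left.1 hd hz h))
  by_cases hNV : N ⊆ closure V
  · exact ⟨N, Subset.rfl, fun z hz => (hVc (hNV hz)).1, hN, hNc, haN, hNK⟩
  obtain ⟨y, hyN, hyV⟩ := not_subset.1 hNV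
  have hW : IsOpen (closure V)ᶜ := isClosed_closure.isOpen_compl
  obtain ⟨z, hz1, hz2⟩ := touch hN hNc hW haN (fun h => h (subset_closure (hAV haA)))
    ⟨y, hyN, hyV⟩
  have hsub := connectedComponentIn_subset (N \ (closure V)ᶜ) a
  refine ⟨connectedComponentIn (N \ (closure V)ᶜ) a, fun w hw => (hsub hw).1,
    fun w hw => (hVc (not_not.1 (hsub hw).2)).1, compact_comp (hN.diff hW) a,
    isPreconnected_connectedComponentIn,
    mem_connectedComponentIn ⟨haN, fun h => h (subset_closure (hAV haA))⟩, fun h => ?_⟩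
  have hzAB : z ∈ A ∪ B := by rw [hAB]; exact ⟨h hz1, (hsub hz1).1⟩
  rcases hzAB with h' | h'
  · obtain ⟨w, hw1, hw2⟩ := mem_closure_iff.1 hz2 V hV (hAV h')
    exact hw2 (subset_closure hw1)
  · exact (hVc (not_not.1 (hsub hz1).2)).2 h'

/-- irreducible continua -/
theorem irreducible {N : Set X} (hN : IsCompact N) (hNc : IsPreconnected N) {a b : X}
    (ha : a ∈ N) (hb : b ∈ N) :
    ∃ I, I ⊆ N ∧ IsCompact I ∧ IsPreconnected I ∧ a ∈ I ∧ b ∈ I ∧
      ∀ J, J ⊆ I → IsCompact J → IsPreconnected J → a ∈ J → b ∈ J → I ⊆ J := by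
  obtain ⟨I, hIN, hI⟩ := zorn_superset_nonempty
    {J : Set X | IsCompact J ∧ IsPreconnected J ∧ a ∈ J ∧ b ∈ J} (by
      intro c hc hch hne
      have : Nonempty c := hne.to_subtype
      refine ⟨⋂ s : c, s, ⟨?_, ?_, ?_, ?_⟩, fun s hs => iInter_subset_of_subset ⟨s, hs⟩ Subset.rfl⟩
      · obtain ⟨s, hs⟩ := hne
        exact (hc hs).1.of_isClosed_subset (isClosed_iInter fun t => (hc t.2).1.isClosed)
          (iInter_subset_of_subset ⟨s, hs⟩ Subset.rfl)
      · refine iInter_preconn _ ?_ (fun t => (hc t.2).1) (fun t => (hc t.2).2.1)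
        intro s t
        rcases hch.total s.2 t.2 with h | h
        · exact ⟨s, Subset.rfl, h⟩
        · exact ⟨t, h, Subset.rfl⟩
      · exact mem_iInter.2 fun t => (hc t.2).2.2.1
      · exact mem_iInter.2 fun t => (hc t.2).2.2.2) N ⟨hN, hNc, ha, hb⟩
  exact ⟨I, hIN, hI.prop.1, hI.prop.2.1, hI.prop.2.2.1, hI.prop.2.2.2,
    fun J hJ h1 h2 h3 h4 => hI.le_of_le (show J ∈ {J : Set X | IsCompact J ∧ IsPreconnected J ∧
      a ∈ J ∧ b ∈ J} from ⟨h1, h2, h3, h4⟩) hJ⟩

/-- `k x` is the member containing `x` of a partition into closed sets -/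
structure Part (k : X → Set X) : Prop where
  mem : ∀ x, x ∈ k x
  cls : ∀ x y, y ∈ k x → k y = k x
  cl : ∀ x, IsClosed (k x)

theorem Part.disj {k : X → Set X} (h : Part k) {x y : X} (hxy : k x ≠ k y) :
    Disjoint (k x) (k y) :=
  disjoint_left.2 fun z h1 h2 => hxy ((h.cls x z h1).symm.trans (h.cls y z h2))

theorem Part.disj' {k : X → Set X} (h : Part k) {x y : X} (hxy : y ∉ k x) :
    Disjoint (k x) (k y) :=
  h.disj fun e => hxy (e ▸ h.mem y)

/-- continua not contained in one member -/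
def Node (k : X → Set X) (N : Set X) : Prop :=
  IsCompact N ∧ IsPreconnected N ∧ N.Nonempty ∧ ∀ a, ¬ N ⊆ k a

theorem Part.node {k : X → Set X} (h : Part k) {N : Set X} (h1 : IsCompact N)
    (h2 : IsPreconnected N) {a : X} (ha : a ∈ N) (h3 : ¬ N ⊆ k a) : Node k N :=
  ⟨h1, h2, ⟨a, ha⟩, fun c hc => h3 (by rw [h.cls c a (hc ha)]; exact hc)⟩

theorem shrink {k : X → Set X} (h : Part k) {N : Set X} (hN : Node k N) (c : X) :
    ∃ N', N' ⊆ N ∧ Node k N' ∧ Disjoint N' (k c) := by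
  obtain ⟨a, haN, hac⟩ := not_subset.1 (hN.2.2.2 c)
  obtain ⟨N', h1, h2, h3, h4, h5, h6⟩ := expand hN.1 hN.2.1 (h.cl a) haN (h.mem a) (hN.2.2.2 a)
    (h.cl c).isOpen_compl (fun z hz hz' => disjoint_left.1 (h.disj' hac) hz'
      (connectedComponentIn_subset _ _ hz).1)
  exact ⟨N', h1, h.node h3 h4 h5 h6, disjoint_left.2 fun z hz => h2 hz⟩

theorem split {k : X → Set X} (h : Part k) {L : Set X}
    (hu : ∀ A B, A ⊆ L → B ⊆ L → IsCompact A → IsCompact B → IsPreconnected A →
      IsPreconnected B → IsPreconnected (A ∩ B))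
    {N : Set X} (hNL : N ⊆ L) (hN : Node k N) :
    ∃ N₀ N₁, N₀ ⊆ N ∧ N₁ ⊆ N ∧ Node k N₀ ∧ Node k N₁ ∧ ∀ c Q, Q ⊆ k c → Q ⊆ L → IsCompact Q →
      IsPreconnected Q → (Q ∩ N₀).Nonempty → (Q ∩ N₁).Nonempty → False := by
  obtain ⟨a, haN⟩ := hN.2.2.1
  obtain ⟨b, hbN, hba⟩ := not_subset.1 (hN.2.2.2 a)
  have hab : a ∉ k b := fun h' => disjoint_left.1 (h.disj' hba) (h.mem a) h'
  obtain ⟨I, hIN, hI, hIc, haI, hbI, hmin⟩ := irreducible hN.1 hN.2.1 haN hbN
  have hex : ∀ (a b : X), a ∈ I → b ∈ I → b ∉ k a → ∀ n : ℕ, ∃ N', N' ⊆ I ∧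
      N' ⊆ thickening (1 / (n + 1 : ℝ)) (connectedComponentIn (k a ∩ I) a) ∧
      a ∈ N' ∧ Node k N' := by
    intro a b ha hb hba n
    obtain ⟨N', h1, h2, h3, h4, h5, h6⟩ := expand hI hIc (h.cl a) ha (h.mem a)
      (fun h' => hba (h' hb)) (isOpen_thickening (δ := 1 / (n + 1 : ℝ)))
      (self_subset_thickening (by positivity) _)
    exact ⟨N', h1, h2, h5, h.node h3 h4 h5 h6⟩
  choose A hAI hAt haA hA using hex a b haI hbI hba
  choose B hBI hBt hbB hB using hex b a hbI haI hab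
  by_contra hcon
  push Not at hcon
  have h1 : ∀ n : ℕ, ∃ c, I ⊆ A n ∪ k c ∪ B n := by
    intro n
    obtain ⟨c, Q, hQc, hQL, hQ, hQp, ⟨x, hxQ, hxA⟩, ⟨y, hyQ, hyB⟩, -⟩ :=
      hcon (A n) (B n) ((hAI n).trans hIN) ((hBI n).trans hIN) (hA n) (hB n)
    have hQI : IsPreconnected (Q ∩ I) := hu Q I hQL (hIN.trans hNL) hQ hI hQp hIc
    refine ⟨c, (hmin (A n ∪ (Q ∩ I) ∪ B n) ?_ ?_ ?_ (Or.inl (Or.inl (haA n)))
      (Or.inr (hbB n))).trans ?_⟩
    · exact union_subset (union_subset (hAI n) inter_subset_right) (hBI n)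
    · exact ((hA n).1.union (hQ.inter_right hI.isClosed)).union (hB n).1
    · exact IsPreconnected.union y (Or.inr ⟨hyQ, hBI n hyB⟩) hyB
        (IsPreconnected.union x hxA ⟨hxQ, hAI n hxA⟩ (hA n).2.1 hQI) (hB n).2.1
    · exact union_subset_union_left _
        (union_subset_union_right _ (inter_subset_left.trans hQc))
  choose c hc using h1
  have hout : ∀ (a y : X), y ∉ k a → ∀ᶠ n : ℕ in atTop,
      y ∉ thickening (1 / (n + 1 : ℝ)) (connectedComponentIn (k a ∩ I) a) := by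
    intro a y hy
    obtain ⟨ε, hε, hb⟩ := Metric.isOpen_iff.1 (h.cl a).isOpen_compl y hy
    filter_upwards [(tendsto_one_div_add_atTop_nhds_zero_nat (𝕜 := ℝ)).eventually
      (gt_mem_nhds hε)] with n hn hy'
    obtain ⟨z, hz, hd⟩ := mem_thickening_iff.1 hy'
    exact hb (show z ∈ ball y ε by rw [mem_ball, dist_comm]; exact hd.trans hn)
      (connectedComponentIn_subset _ _ hz).1
  have hev : ∀ y ∈ I, y ∉ k a → y ∉ k b → ∀ᶠ n : ℕ in atTop, y ∈ k (c n) := by
    intro y hy hya hyb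
    filter_upwards [hout a y hya, hout b y hyb] with n h1 h2
    rcases hc n hy with (h3 | h3) | h3
    · exact absurd (hAt n h3) h1
    · exact h3
    · exact absurd (hBt n h3) h2
  by_cases hy : ∃ y ∈ I, y ∉ k a ∧ y ∉ k b
  · obtain ⟨y, hyI, hya, hyb⟩ := hy
    have hcov : I ⊆ k a ∪ (k b ∪ k y) := by
      intro z hz
      by_cases hza : z ∈ k a
      · exact Or.inl hza
      by_cases hzb : z ∈ k b
      · exact Or.inr (Or.inl hzb)
      obtain ⟨n, h1, h2⟩ := ((hev y hyI hya hyb).and (hev z hz hza hzb)).exists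
      exact Or.inr (Or.inr (by rw [h.cls _ _ h1]; exact h2))
    rcases closed_cases hIc (h.cl a) ((h.cl b).union (h.cl y)) hcov
      (disjoint_union_right.2 ⟨h.disj' hba, h.disj' hya⟩) with h' | h'
    · exact hba (h' hbI)
    · rcases h' haI with h'' | h''
      · exact hab h''
      · exact disjoint_left.1 (h.disj' hya) (h.mem a) h''
  · push Not at hy
    have hcov : I ⊆ k a ∪ k b := fun z hz => by
      by_cases hza : z ∈ k a
      · exact Or.inl hza
      · exact Or.inr (hy z hz hza)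
    rcases closed_cases hIc (h.cl a) (h.cl b) hcov (h.disj' hba) with h' | h'
    · exact hba (h' hbI)
    · exact hab (h' haI)

theorem nested {N : ℕ → Set X} (hs : ∀ n, N (n + 1) ⊆ N n) (hc : ∀ n, IsCompact (N n))
    (hne : ∀ n, (N n).Nonempty) : ∃ y, ∀ n, y ∈ N n := by
  obtain ⟨y, hy⟩ := IsCompact.nonempty_iInter_of_sequence_nonempty_isCompact_isClosed N hs hne
    (hc 0) (fun n => (hc n).isClosed)
  exact ⟨y, mem_iInter.1 hy⟩

/-- Sierpinski's theorem -/
theorem sierpinski {k : X → Set X} (h : Part k) {N : Set X} (hN : Node k N) (c : ℕ → X) :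
    ∃ y ∈ N, ∀ n, y ∉ k (c n) := by
  choose f hf1 hf2 hf3 using fun (M : {M // Node k M}) (n : ℕ) => shrink h M.2 (c n)
  let T : ℕ → {M // Node k M} := fun n => Nat.rec ⟨N, hN⟩ (fun n M => ⟨f M n, hf2 M n⟩) n
  obtain ⟨y, hy⟩ := nested (N := fun n => (T n).1) (fun n => hf1 (T n) n) (fun n => (T n).2.1)
    (fun n => (T n).2.2.2.1)
  exact ⟨y, hy 0, fun n => disjoint_left.1 (hf3 (T n) n) (hy (n + 1))⟩

/-- the binary tree of subcontinua -/
theorem tree {k : X → Set X} (h : Part k) {L : Set X}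
    (hu : ∀ A B, A ⊆ L → B ⊆ L → IsCompact A → IsCompact B → IsPreconnected A →
      IsPreconnected B → IsPreconnected (A ∩ B))
    (hL : Node k L) (c : ℕ → X) :
    ∃ y : (ℕ → Bool) → X, (∀ s, y s ∈ L) ∧ (∀ s n, y s ∉ k (c n)) ∧
      ∀ s t, s ≠ t → ∀ a, y t ∉ connectedComponentIn (k a ∩ L) (y s) := by
  have step : ∀ (M : {M // M ⊆ L ∧ Node k M}) (n : ℕ), ∃ f : Bool → {M // M ⊆ L ∧ Node k M},
      (∀ i, (f i).1 ⊆ M.1) ∧ (∀ i, Disjoint (f i).1 (k (c n))) ∧
      ∀ i j, i ≠ j → ∀ a Q, Q ⊆ k a → Q ⊆ L → IsCompact Q →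
        IsPreconnected Q → (Q ∩ (f i).1).Nonempty → (Q ∩ (f j).1).Nonempty → False := by
    intro M n
    obtain ⟨M', h1, h2, h3⟩ := shrink h M.2.2 (c n)
    obtain ⟨N₀, N₁, h4, h5, h6, h7, h8⟩ := split h hu (h1.trans M.2.1) h2
    refine ⟨fun i => if i then ⟨N₀, (h4.trans h1).trans M.2.1, h6⟩
      else ⟨N₁, (h5.trans h1).trans M.2.1, h7⟩, ?_, ?_, ?_⟩
    · rintro (_ | _)
      · exact h5.trans h1
      · exact h4.trans h1
    · rintro (_ | _)
      · exact h3.mono_left h5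
      · exact h3.mono_left h4
    · rintro (_ | _) (_ | _) hij a Q q1 q2 q3 q4 q5 q6
      · exact hij rfl
      · exact h8 a Q q1 q2 q3 q4 q6 q5
      · exact h8 a Q q1 q2 q3 q4 q5 q6
      · exact hij rfl
  choose f hf1 hf2 hf3 using step
  let T : (ℕ → Bool) → ℕ → {M // M ⊆ L ∧ Node k M} := fun s n =>
    Nat.rec ⟨L, Subset.rfl, hL⟩ (fun n M => f M n (s n)) n
  have hT : ∀ s n, T s (n + 1) = f (T s n) n (s n) := fun s n => rfl
  choose y hy using fun s => nested (N := fun n => (T s n).1) (fun n => hf1 (T s n) n (s n))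
    (fun n => (T s n).2.2.1) (fun n => (T s n).2.2.2.2.1)
  refine ⟨y, fun s => hy s 0, fun s n => disjoint_left.1 (hf2 (T s n) n (s n)) (hy s (n + 1)),
    fun s t hst a hmem => ?_⟩
  classical
  have hex : ∃ n, s n ≠ t n := Function.ne_iff.1 hst
  have hlt : ∀ m, m ≤ Nat.find hex → T s m = T t m := by
    intro m
    induction m with
    | zero => intro _; rfl
    | succ m ih =>
      intro hm
      have h1 : s m = t m := not_not.1 (Nat.find_min hex (Nat.lt_of_succ_le hm))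
      rw [hT, hT, ih (Nat.le_of_succ_le hm), h1]
  have hsub := connectedComponentIn_subset (k a ∩ L) (y s)
  have hys : y s ∈ k a ∩ L := by
    by_contra h'
    rw [connectedComponentIn_eq_empty h'] at hmem
    exact hmem
  refine hf3 (T s (Nat.find hex)) (Nat.find hex) _ _ (Nat.find_spec hex) a
    (connectedComponentIn (k a ∩ L) (y s)) (fun z hz => (hsub hz).1) (fun z hz => (hsub hz).2)
    (compact_comp (hL.1.inter_left (h.cl a)) _) isPreconnected_connectedComponentIn
    ⟨y s, mem_connectedComponentIn hys, hy s (Nat.find hex + 1)⟩ ⟨y t, hmem, ?_⟩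
  have := hy t (Nat.find hex + 1)
  rw [hT, ← hlt _ le_rfl] at this
  exact this

end Pool.Agent.H706Z.Pl
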