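import Pool.Agent.H706Z.PlA
import Pool.Agent.H706Z.PlB

/-!
Partitions of the plane into fewer than continuum many continua: separating members and
nonseparating continua.
-/

set_option autoImplicit false

open Set Filter Topology Metric

namespace Pool.Agent.H706Z.Pl

theorem fiber_uncountable {k : ℂ → Set ℂ} (hcard : Cardinal.mk (range k) < Cardinal.continuum)
    (y : (ℕ → Bool) → ℂ) (hy : ∀ K, {s | k (y s) = K}.Countable) : False := by
  have h1 := Cardinal.mk_le_mk_mul_of_mk_preimage_le (c := Cardinal.aleph0)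
    (fun s : ℕ → Bool => (⟨k (y s), y s, rfl⟩ : range k)) (fun K => by
      rw [Cardinal.le_aleph0_iff_set_countable]
      refine (hy K.1).mono fun s hs => ?_
      exact congrArg Subtype.val hs)
  have h2 : Cardinal.mk (ℕ → Bool) = Cardinal.continuum := by simp
  rw [h2] at h1
  exact absurd h1 (not_le.2 (Cardinal.mul_lt_of_lt Cardinal.aleph0_le_continuum hcard
    Cardinal.aleph0_lt_continuum))

/-- `N` separates `p` from `q` -/
def Sep (N : Set ℂ) (p q : ℂ) : Prop := p ∉ N ∧ q ∉ N ∧ q ∉ connectedComponentIn Nᶜ p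

theorem Sep.symm {N : Set ℂ} {p q : ℂ} (h : Sep N p q) : Sep N q p :=
  ⟨h.2.1, h.1, fun h' => h.2.2 (by
    rw [← connectedComponentIn_eq h']; exact mem_connectedComponentIn h.2.1)⟩

theorem Sep.move {N : Set ℂ} {p q p' q' : ℂ} (h : Sep N p q)
    (hp : p' ∈ connectedComponentIn Nᶜ p) (hq : q' ∈ connectedComponentIn Nᶜ q) : Sep N p' q' :=
  ⟨connectedComponentIn_subset _ _ hp, connectedComponentIn_subset _ _ hq, fun h' => h.2.2 (by
    rw [connectedComponentIn_eq hp, connectedComponentIn_eq h', ← connectedComponentIn_eq hq]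
    exact mem_connectedComponentIn h.2.1)⟩

theorem near_dense {N D : Set ℂ} (hN : IsClosed N) (hD : Dense D) {p : ℂ} (hp : p ∉ N) :
    ∃ p' ∈ D, p' ∈ connectedComponentIn Nᶜ p :=
  hD.exists_mem_open hN.isOpen_compl.connectedComponentIn ⟨p, mem_connectedComponentIn hp⟩

theorem bd {N L : Set ℂ} (hN : IsClosed N) (hL : IsPreconnected Lᶜ) {p q : ℂ} (hp : p ∉ N)
    (hpL : p ∉ L) (hqL : q ∉ L) (hq : q ∉ connectedComponentIn Nᶜ p) :
    ∃ z ∈ closure (connectedComponentIn Nᶜ p), z ∈ N ∧ z ∉ L := by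
  by_contra hcon
  push Not at hcon
  have hW : IsOpen (connectedComponentIn Nᶜ p) := hN.isOpen_compl.connectedComponentIn
  have hcl : ∀ z ∈ closure (connectedComponentIn Nᶜ p), z ∉ L →
      z ∈ connectedComponentIn Nᶜ p := by
    intro z hz hzL
    have hzN : z ∉ N := fun h => hzL (hcon z hz h)
    have h1 : IsPreconnected (insert z (connectedComponentIn Nᶜ p)) :=
      isPreconnected_connectedComponentIn.subset_closure (subset_insert _ _)
        (insert_subset hz subset_closure)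
    exact h1.subset_connectedComponentIn (Or.inr (mem_connectedComponentIn hp))
      (insert_subset hzN (connectedComponentIn_subset _ _)) (mem_insert _ _)
  rcases hL.subset_or_subset hW (isClosed_closure (s := connectedComponentIn Nᶜ p)).isOpen_compl
    (disjoint_left.2 fun z hz hz' => hz' (subset_closure hz)) (fun z hz => by
      by_cases h : z ∈ closure (connectedComponentIn Nᶜ p)
      · exact Or.inl (hcl z h hz)
      · exact Or.inr h) with h | h
  · exact hq (h hqL)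
  · exact h hpL (subset_closure (mem_connectedComponentIn hp))

/-- a component together with a boundary point, inside the complement of another set -/
theorem join {N N' : Set ℂ} {p z : ℂ} (hp : p ∉ N)
    (hz : z ∈ closure (connectedComponentIn Nᶜ p)) (hzN : z ∉ N')
    (hd : Disjoint (connectedComponentIn Nᶜ p) N') : p ∈ connectedComponentIn N'ᶜ z := by
  have h1 : IsPreconnected (insert z (connectedComponentIn Nᶜ p)) :=
    isPreconnected_connectedComponentIn.subset_closure (subset_insert _ _)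
      (insert_subset hz subset_closure)
  exact h1.subset_connectedComponentIn (mem_insert _ _)
    (insert_subset hzN (fun w hw hw' => disjoint_left.1 hd hw hw'))
    (Or.inr (mem_connectedComponentIn hp))

theorem anti {K K' : Set ℂ} (hK : IsClosed K) (hKc : IsPreconnected K) (hK'c : IsPreconnected K')
    (hd : Disjoint K K') {p q x : ℂ} (h : Sep K p q) (h' : Sep K' p q) (hx : x ∈ K)
    (hxW : x ∈ connectedComponentIn K'ᶜ p) : Disjoint K' (connectedComponentIn Kᶜ p) := by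
  rw [disjoint_left]
  intro y hy hyW
  have h1 : K' ⊆ connectedComponentIn Kᶜ p := by
    rw [connectedComponentIn_eq hyW]
    exact hK'c.subset_connectedComponentIn hy (fun w hw hw' => disjoint_left.1 hd hw' hw)
  have h2 : K ⊆ connectedComponentIn K'ᶜ p := by
    rw [connectedComponentIn_eq hxW]
    exact hKc.subset_connectedComponentIn hx (fun w hw hw' => disjoint_left.1 hd hw hw')
  obtain ⟨z, hz, hzK, -⟩ := bd (L := ∅) hK (by rw [compl_empty]; exact isPreconnected_univ)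
    h.2.1 (notMem_empty _) (notMem_empty p) h.symm.2.2
  have h3 := join h.2.1 hz (disjoint_left.1 hd hzK) (disjoint_left.2 fun w hw hw' =>
    h.2.2 (by
      rw [connectedComponentIn_eq (h1 hw'), ← connectedComponentIn_eq hw]
      exact mem_connectedComponentIn h.2.1))
  exact h'.2.2 (by rw [connectedComponentIn_eq (h2 hzK)]; exact h3)

section

variable {k : ℂ → Set ℂ} (h : Part k) (hp : ∀ x, IsPreconnected (k x))
  (hcard : Cardinal.mk (range k) < Cardinal.continuum)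

include h hp hcard

theorem sep_countable (p q : ℂ) : {K | K ∈ range k ∧ Sep K p q}.Countable := by
  by_contra hunc
  set S := {K | K ∈ range k ∧ Sep K p q} with hS
  set J : ℝ → ℂ := fun t => p + t * (q - p) with hJ
  have hJc : Continuous J := by fun_prop
  have hJ0 : J 0 = p := by simp [hJ]
  have hJ1 : J 1 = q := by simp [hJ]
  have hcl : ∀ K : S, IsClosed K.1 := by
    rintro ⟨_, ⟨x, rfl⟩, -⟩
    exact h.cl x
  have hpc : ∀ K : S, IsPreconnected K.1 := by
    rintro ⟨_, ⟨x, rfl⟩, -⟩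
    exact hp x
  have hk : ∀ (K : S) z, z ∈ K.1 → k z = K.1 := by
    rintro ⟨K, ⟨x, hx⟩, hK⟩ z hz
    subst hx
    exact h.cls x z hz
  have hseg : ∀ (K : Set ℂ) (t : ℝ), 0 ≤ t → (∀ u ∈ Icc 0 t, J u ∉ K) →
      J t ∈ connectedComponentIn Kᶜ p := by
    intro K t ht hK
    refine (isPreconnected_Icc.image J hJc.continuousOn).subset_connectedComponentIn
      (s := J '' Icc 0 t) ⟨0, ⟨le_rfl, ht⟩, hJ0⟩ ?_ ⟨t, ⟨ht, le_rfl⟩, rfl⟩
    rintro _ ⟨u, hu, rfl⟩
    exact hK u hu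
  have hτ : ∀ K : S, ∃ t ∈ Icc (0 : ℝ) 1, J t ∈ K.1 ∧ ∀ u, 0 ≤ u → u < t → J u ∉ K.1 := by
    intro K
    have h1 : IsCompact (Icc (0 : ℝ) 1 ∩ J ⁻¹' K.1) :=
      isCompact_Icc.inter_right ((hcl K).preimage hJc)
    have h2 : (Icc (0 : ℝ) 1 ∩ J ⁻¹' K.1).Nonempty := by
      by_contra hne
      have := hseg K.1 1 zero_le_one (fun u hu hK => hne ⟨u, hu, hK⟩)
      rw [hJ1] at this
      exact K.2.2.2.2 this
    obtain ⟨t, ht, htm⟩ := h1.exists_isLeast h2
    exact ⟨t, ht.1, ht.2, fun u hu hut hK =>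
      absurd (htm ⟨⟨hu, hut.le.trans ht.1.2⟩, hK⟩) (not_le.2 hut)⟩
  choose τ hτ1 hτ2 hτ3 using hτ
  have hinj : Function.Injective τ := fun K K' e =>
    Subtype.ext ((hk K _ (hτ2 K)).symm.trans (by rw [e]; exact hk K' _ (hτ2 K')))
  have hbefore : ∀ (K : S) t, 0 ≤ t → t < τ K → J t ∈ connectedComponentIn K.1ᶜ p :=
    fun K t ht htK => hseg K.1 t ht fun u hu => hτ3 K u hu.1 (hu.2.trans_lt htK)
  have hTu : ¬ (closure (range τ)).Countable := by
    intro hc
    apply hunc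
    have : Countable S := by
      have h1 : (range τ).Countable := hc.mono subset_closure
      have := h1.to_subtype
      exact (Set.rangeFactorization_injective.2 hinj).countable
    exact Set.countable_coe_iff.1 this
  obtain ⟨f, hf, -, hfi⟩ := isClosed_closure.exists_nat_bool_injection_of_not_countable hTu
  have hf0 : ∀ s, 0 ≤ f s := fun s =>
    (closure_minimal (range_subset_iff.2 hτ1) isClosed_Icc (hf ⟨s, rfl⟩)).1
  set LL : Set ℝ := {t | ∀ s < t, ∃ K : S, s < τ K ∧ τ K < t} with hLL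
  have hiso : (closure (range τ) \ LL).Countable := by
    refine (countable_setOfPred_isolated_left_within (s := closure (range τ))).mono ?_
    rintro t ⟨ht, htL⟩
    refine ⟨ht, ?_⟩
    rw [← notMem_closure_iff_nhdsWithin_eq_bot]
    intro hcl'
    apply htL
    intro s hs
    obtain ⟨w, hw1, hw2, hw3⟩ := _root_.mem_closure_iff.1 hcl' (Ioi s) isOpen_Ioi hs
    obtain ⟨_, hu, K, rfl⟩ := _root_.mem_closure_iff.1 hw2 (Ioo s t) isOpen_Ioo ⟨hw1, hw3⟩
    exact ⟨K, hu⟩
  have key : ∀ t s : ℝ, 0 ≤ t → t < s → s ∈ LL → k (J t) ≠ k (J s) := by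
    intro t s ht hts hs e
    obtain ⟨K, hK1, hK2⟩ := hs t hts
    have h1 := hbefore K t ht hK1
    have hW : IsOpen (connectedComponentIn K.1ᶜ p) := (hcl K).isOpen_compl.connectedComponentIn
    have h2 : J s ∉ connectedComponentIn K.1ᶜ p := by
      intro hs'
      obtain ⟨ε, hε, hb⟩ := Metric.isOpen_iff.1 (hW.preimage hJc) s hs'
      obtain ⟨K', h3, h4⟩ := hs (max (τ K) (s - ε)) (max_lt hK2 (by linarith))
      have h5 : τ K < τ K' := (le_max_left _ _).trans_lt h3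
      have hne : K.1 ≠ K'.1 := fun e' => by
        rw [Subtype.ext e'] at h5
        exact lt_irrefl _ h5
      have hd : Disjoint K.1 K'.1 :=
        disjoint_left.2 fun z hz hz' => hne ((hk K z hz).symm.trans (hk K' z hz'))
      have h6 := anti (hcl K) (hpc K) (hpc K') hd K.2.2 K'.2.2 (hτ2 K)
        (hbefore K' _ (hτ1 K).1 h5)
      refine disjoint_left.1 h6 (hτ2 K') (hb ?_)
      rw [mem_ball, Real.dist_eq, abs_lt]
      have := (le_max_right _ _).trans_lt h3
      constructor <;> linarith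
    apply h2
    rw [connectedComponentIn_eq h1]
    refine (hp (J t)).subset_connectedComponentIn (F := K.1ᶜ) (h.mem _) (fun z hz hzK => ?_)
      (e ▸ h.mem (J s))
    have h3 : J t ∈ K.1 := by
      rw [← hk K z hzK, h.cls _ _ hz]
      exact h.mem _
    exact connectedComponentIn_subset _ _ h1 h3
  refine fiber_uncountable hcard (fun s => J (f s)) fun K => ?_
  have hsub : {s | k (J (f s)) = K} ⊆ f ⁻¹' (closure (range τ) \ LL) ∪
      {s | k (J (f s)) = K ∧ f s ∈ LL} := by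
    intro s hs
    by_cases hL : f s ∈ LL
    · exact Or.inr ⟨hs, hL⟩
    · exact Or.inl ⟨hf ⟨s, rfl⟩, hL⟩
  refine Set.Countable.mono hsub ((hiso.preimage hfi).union (Set.Subsingleton.countable ?_))
  intro s hs t ht
  apply hfi
  rcases lt_trichotomy (f s) (f t) with h1 | h1 | h1
  · exact absurd (hs.1.trans ht.1.symm) (key _ _ (hf0 s) h1 ht.2)
  · exact h1
  · exact absurd (ht.1.trans hs.1.symm) (key _ _ (hf0 t) h1 hs.2)

theorem separating_countable : {K | K ∈ range k ∧ ¬ IsPreconnected Kᶜ}.Countable := by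
  obtain ⟨D, hDc, hD⟩ := TopologicalSpace.exists_countable_dense ℂ
  refine Set.Countable.mono ?_ (hDc.biUnion fun p _ => hDc.biUnion fun q _ =>
    sep_countable h hp hcard p q)
  rintro _ ⟨⟨x, rfl⟩, hK⟩
  obtain ⟨p, q, hpq⟩ : ∃ p q, Sep (k x) p q := by
    by_contra hcon
    push Not at hcon
    refine hK (isPreconnected_of_forall_pair fun p hp' q hq => ⟨connectedComponentIn (k x)ᶜ p,
      connectedComponentIn_subset _ _, mem_connectedComponentIn hp', ?_,
      isPreconnected_connectedComponentIn⟩)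
    by_contra h'
    exact hcon p q ⟨hp', hq, h'⟩
  obtain ⟨p', hp'D, hp'⟩ := near_dense (h.cl x) hD hpq.1
  obtain ⟨q', hq'D, hq'⟩ := near_dense (h.cl x) hD hpq.2.1
  simp only [mem_iUnion]
  exact ⟨p', hp'D, q', hq'D, ⟨x, rfl⟩, hpq.move hp' hq'⟩

end

theorem enum {k : ℂ → Set ℂ} {S : Set (Set ℂ)} (hS : S.Countable) (hk : S ⊆ range k) :
    ∃ c : ℕ → ℂ, ∀ K ∈ S, ∃ n, K = k (c n) := by
  obtain ⟨f, hf⟩ := (hS.insert (k 0)).exists_eq_range ⟨_, mem_insert _ _⟩
  have h1 : ∀ n, ∃ x, k x = f n := by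
    intro n
    have : f n ∈ insert (k 0) S := by rw [hf]; exact ⟨n, rfl⟩
    rcases this with h | h
    · exact ⟨0, h.symm⟩
    · exact hk h
  choose c hc using h1
  refine ⟨c, fun K hK => ?_⟩
  have : K ∈ range f := by rw [← hf]; exact mem_insert_of_mem _ hK
  obtain ⟨n, rfl⟩ := this
  exact ⟨n, (hc n).symm⟩

/-- the members `k (c n)` approximate all members -/
def Appr (k : ℂ → Set ℂ) (c : ℕ → ℂ) : Prop :=
  ∀ x U V, IsOpen U → IsOpen V → (k x ∩ U).Nonempty → (k x ∩ V).Nonempty →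
    ∃ n, (k (c n) ∩ U).Nonempty ∧ (k (c n) ∩ V).Nonempty

theorem exists_appr {k : ℂ → Set ℂ} {S : Set (Set ℂ)} (hS : S.Countable) (hk : S ⊆ range k) :
    ∃ c : ℕ → ℂ, Appr k c ∧ ∀ K ∈ S, ∃ n, K = k (c n) := by
  have h1 : ∀ U V : Set ℂ, ∃ x, ∀ y, (k y ∩ U).Nonempty → (k y ∩ V).Nonempty →
      (k x ∩ U).Nonempty ∧ (k x ∩ V).Nonempty := by
    intro U V
    by_cases hex : ∃ y, (k y ∩ U).Nonempty ∧ (k y ∩ V).Nonempty
    · obtain ⟨y, hy⟩ := hex
      exact ⟨y, fun _ _ _ => hy⟩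
    · exact ⟨0, fun y h1 h2 => absurd ⟨y, h1, h2⟩ hex⟩
  choose g hg using h1
  have hB := TopologicalSpace.countable_countableBasis ℂ
  obtain ⟨c, hc⟩ := enum (k := k) (hS.union ((hB.prod hB).image (fun p => k (g p.1 p.2))))
    (union_subset hk (by rintro _ ⟨p, -, rfl⟩; exact ⟨_, rfl⟩))
  refine ⟨c, ?_, fun K hK => hc K (Or.inl hK)⟩
  rintro x U V hU hV ⟨u, hu1, hu2⟩ ⟨v, hv1, hv2⟩
  obtain ⟨U', hU', huU', hUU'⟩ :=
    (TopologicalSpace.isBasis_countableBasis ℂ).exists_subset_of_mem_open hu2 hU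
  obtain ⟨V', hV', hvV', hVV'⟩ :=
    (TopologicalSpace.isBasis_countableBasis ℂ).exists_subset_of_mem_open hv2 hV
  obtain ⟨n, hn⟩ := hc (k (g U' V')) (Or.inr ⟨(U', V'), ⟨hU', hV'⟩, rfl⟩)
  obtain ⟨h2, h3⟩ := hg U' V' x ⟨u, hu1, huU'⟩ ⟨v, hv1, hvV'⟩
  exact ⟨n, hn ▸ h2.mono (inter_subset_inter_right _ hUU'),
    hn ▸ h3.mono (inter_subset_inter_right _ hVV')⟩

theorem Appr.same {k : ℂ → Set ℂ} {c : ℕ → ℂ} (ha : Appr k c) (hp : ∀ x, IsPreconnected (k x))
    {N : Set ℂ} (hN : IsClosed N) (hd : ∀ n, Disjoint N (k (c n))) {x z z' : ℂ} (hz : z ∈ k x)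
    (hz' : z' ∈ k x) (hzN : z ∉ N) (hz'N : z' ∉ N) : z' ∈ connectedComponentIn Nᶜ z := by
  obtain ⟨n, ⟨u, hu1, hu2⟩, ⟨v, hv1, hv2⟩⟩ := ha x _ _
    (hN.isOpen_compl.connectedComponentIn (x := z)) (hN.isOpen_compl.connectedComponentIn (x := z'))
    ⟨z, hz, mem_connectedComponentIn hzN⟩ ⟨z', hz', mem_connectedComponentIn hz'N⟩
  have h1 : v ∈ connectedComponentIn Nᶜ u := (hp (c n)).subset_connectedComponentIn hu1
    (fun w hw hw' => disjoint_left.1 (hd n) hw' hw) hv1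
  rw [connectedComponentIn_eq hu2, connectedComponentIn_eq h1, ← connectedComponentIn_eq hv2]
  exact mem_connectedComponentIn hz'N

theorem two_not {N N' L : Set ℂ} (hN : IsClosed N) (hLc : IsPreconnected Lᶜ) (hLN : L ⊆ N)
    (hNN : N ∩ N' ⊆ L)
    (hs : ∀ z z', z ∈ N → z' ∈ N → z ∉ N' → z' ∉ N' → z' ∈ connectedComponentIn N'ᶜ z)
    {p q : ℂ} (h : Sep N p q) (h' : Sep N' p q)
    (hdp : Disjoint (connectedComponentIn Nᶜ p) N')
    (hdq : Disjoint (connectedComponentIn Nᶜ q) N') : False := by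
  have hpL : p ∉ L := fun e => h.1 (hLN e)
  have hqL : q ∉ L := fun e => h.2.1 (hLN e)
  obtain ⟨z, hz1, hz2, hz3⟩ := bd hN hLc h.1 hpL hqL h.2.2
  obtain ⟨w, hw1, hw2, hw3⟩ := bd hN hLc h.2.1 hqL hpL h.symm.2.2
  have hz4 : z ∉ N' := fun e => hz3 (hNN ⟨hz2, e⟩)
  have hw4 : w ∉ N' := fun e => hw3 (hNN ⟨hw2, e⟩)
  have h1 := join h.1 hz1 hz4 hdp
  have h2 := join h.2.1 hw1 hw4 hdq
  apply h'.2.2
  rw [← connectedComponentIn_eq h1, connectedComponentIn_eq (hs z w hz2 hw2 hz4 hw4)]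
  exact h2

/-- nonseparating continua missing the approximating members lie in a single member -/
theorem single {k : ℂ → Set ℂ} (h : Part k) (hc : ∀ x, IsCompact (k x))
    (hp : ∀ x, IsPreconnected (k x)) (hcard : Cardinal.mk (range k) < Cardinal.continuum)
    {c : ℕ → ℂ} (ha : Appr k c) {L : Set ℂ} (hLc : IsPreconnected Lᶜ)
    (hd : ∀ n, Disjoint L (k (c n))) : ¬ Node k L := by
  intro hL
  have hdense : Dense Lᶜ := by
    intro z
    rw [_root_.mem_closure_iff]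
    intro U hU hz
    obtain ⟨n, ⟨u, hu1, hu2⟩, -⟩ := ha z U U hU hU ⟨z, h.mem z, hz⟩ ⟨z, h.mem z, hz⟩
    exact ⟨u, hu2, fun h' => disjoint_left.1 (hd n) h' hu1⟩
  have hu : ∀ A B, A ⊆ L → B ⊆ L → IsCompact A → IsCompact B → IsPreconnected A →
      IsPreconnected B → IsPreconnected (A ∩ B) := by
    intro A B hA hB h1 h2 h3 h4
    exact two_piece h1 h2 h3 h4 (hLc.subset_closure (compl_subset_compl.2 (union_subset hA hB))
      (fun z _ => hdense z))
  have hsame : ∀ x, (k x ∩ L).Nonempty → ∀ y z z', z ∈ k y → z' ∈ k y → z ∉ k x ∪ L →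
      z' ∉ k x ∪ L → z' ∈ connectedComponentIn (k x ∪ L)ᶜ z := by
    rintro x ⟨w, hw1, hw2⟩ y z z' hz hz' h1 h2
    refine ha.same hp ((h.cl x).union hL.1.isClosed) (fun n => disjoint_union_left.2
      ⟨h.disj fun e => disjoint_left.1 (hd n) hw2 (e ▸ hw1), hd n⟩) hz hz' h1 h2
  have huniq : ∀ p q r : ℂ, {K | K ∈ range k ∧ (K ∩ L).Nonempty ∧ Sep (K ∪ L) p q ∧
      Sep (K ∪ L) p r ∧ Sep (K ∪ L) q r}.Subsingleton := by
    rintro p q r _ ⟨⟨x, rfl⟩, hx, h1, h2, h3⟩ _ ⟨⟨y, rfl⟩, hy, h4, h5, h6⟩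
    by_contra hne
    have hxy := h.disj hne
    have hN : IsClosed (k x ∪ L) := (h.cl x).union hL.1.isClosed
    have hNN : (k x ∪ L) ∩ (k y ∪ L) ⊆ L := by
      rintro z ⟨h7 | h7, h8 | h8⟩
      · exact absurd h8 (disjoint_left.1 hxy h7)
      all_goals assumption
    have hs : ∀ z z', z ∈ k x ∪ L → z' ∈ k x ∪ L → z ∉ k y ∪ L → z' ∉ k y ∪ L →
        z' ∈ connectedComponentIn (k y ∪ L)ᶜ z := fun z z' hz hz' h7 h8 =>
      hsame y hy x z z' (hz.resolve_right fun e => h7 (Or.inr e))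
        (hz'.resolve_right fun e => h8 (Or.inr e)) h7 h8
    have hone : ∀ a b, Sep (k x ∪ L) a b →
        Disjoint (connectedComponentIn (k x ∪ L)ᶜ a) (k y ∪ L) ∨
        Disjoint (connectedComponentIn (k x ∪ L)ᶜ b) (k y ∪ L) := by
      intro a b hab
      by_contra hcon
      rw [not_or, not_disjoint_iff, not_disjoint_iff] at hcon
      obtain ⟨⟨u, hu1, hu2⟩, ⟨v, hv1, hv2⟩⟩ := hcon
      have hu3 : u ∉ k x ∪ L := connectedComponentIn_subset _ _ hu1
      have hv3 : v ∉ k x ∪ L := connectedComponentIn_subset _ _ hv1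
      exact (hab.move hu1 hv1).2.2 (hsame x hx y u v (hu2.resolve_right fun e => hu3 (Or.inr e))
        (hv2.resolve_right fun e => hv3 (Or.inr e)) hu3 hv3)
    have tn := fun {a b : ℂ} => two_not (p := a) (q := b) hN hLc subset_union_right hNN hs
    rcases hone p q h1 with e1 | e1
    · rcases hone q r h3 with e2 | e2
      · exact tn h1 h4 e1 e2
      · exact tn h2 h5 e1 e2
    · rcases hone p r h2 with e2 | e2
      · exact tn h1 h4 e2 e1
      · exact tn h3 h6 e1 e2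
  obtain ⟨D, hDc, hD⟩ := TopologicalSpace.exists_countable_dense ℂ
  obtain ⟨d, hdS⟩ := enum (k := k) (hDc.biUnion fun p _ => hDc.biUnion fun q _ =>
    hDc.biUnion fun r _ => (huniq p q r).countable) (by
      intro K hK
      simp only [mem_iUnion] at hK
      obtain ⟨_, _, _, _, _, _, hK, -⟩ := hK
      exact hK)
  obtain ⟨y, hyL, hyd, hy⟩ := tree h hu hL d
  refine fiber_uncountable hcard y fun K => ?_
  by_contra hunc
  have hpick : ∀ F : Set (ℕ → Bool), F.Finite → ∃ s, k (y s) = K ∧ s ∉ F := by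
    intro F hF
    by_contra hcon
    push Not at hcon
    exact hunc (hF.countable.mono hcon)
  obtain ⟨s₁, e₁, -⟩ := hpick ∅ finite_empty
  obtain ⟨s₂, e₂, n₂⟩ := hpick {s₁} (finite_singleton _)
  obtain ⟨s₃, e₃, n₃⟩ := hpick {s₁, s₂} (toFinite _)
  subst e₁
  have n12 : s₁ ≠ s₂ := fun e => n₂ e.symm
  have n13 : s₁ ≠ s₃ := fun e => n₃ (Or.inl e.symm)
  have n23 : s₂ ≠ s₃ := fun e => n₃ (Or.inr e.symm)
  have m₁ : y s₁ ∈ k (y s₁) ∩ L := ⟨h.mem _, hyL _⟩
  have m₂ : y s₂ ∈ k (y s₁) ∩ L := ⟨e₂ ▸ h.mem _, hyL _⟩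
  have m₃ : y s₃ ∈ k (y s₁) ∩ L := ⟨e₃ ▸ h.mem _, hyL _⟩
  have hC : IsCompact (k (y s₁) ∩ L) := hL.1.inter_left (h.cl _)
  obtain ⟨A, M, hA, hM, hAM, hdAM, hxA, hA23⟩ := sep hC (C := {y s₂, y s₃})
    (toFinite _).isClosed m₁ (by
      rintro z hz (rfl | rfl)
      · exact hy s₁ s₂ n12 _ hz
      · exact hy s₁ s₃ n13 _ hz)
  have hMs : M ⊆ k (y s₁) ∩ L := hAM ▸ subset_union_right
  have hM2 : y s₂ ∈ M := by
    have : y s₂ ∈ A ∪ M := hAM ▸ m₂
    exact this.resolve_left fun e => disjoint_left.1 hA23 e (Or.inl rfl)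
  have hM3 : y s₃ ∈ M := by
    have : y s₃ ∈ A ∪ M := hAM ▸ m₃
    exact this.resolve_left fun e => disjoint_left.1 hA23 e (Or.inr rfl)
  obtain ⟨B, C, hB, hC', hBC, hdBC, hyB, hB3⟩ := sep (hC.of_isClosed_subset hM hMs)
    (C := {y s₃}) isClosed_singleton hM2 (by
      rintro z hz rfl
      exact hy s₂ s₃ n23 _ (connectedComponentIn_mono _ hMs hz))
  have hC3 : y s₃ ∈ C := by
    have : y s₃ ∈ B ∪ C := hBC ▸ hM3
    exact this.resolve_left fun e => disjoint_left.1 hB3 e rfl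
  obtain ⟨p, q, r, hp', hq', hr', hpq, hpr, hqr⟩ := three_piece (hc (y s₁)) hL.1 (hp _) hL.2.1
    hA hB hC' (hdAM.mono_right (hBC ▸ subset_union_left))
    (hdAM.mono_right (hBC ▸ subset_union_right)) hdBC
    (by rw [union_assoc, hBC, hAM]) m₁ m₂ m₃ hxA hyB hC3
  have hN : IsClosed (k (y s₁) ∪ L) := (h.cl _).union hL.1.isClosed
  obtain ⟨p', hpD, hpp⟩ := near_dense hN hD hp'
  obtain ⟨q', hqD, hqq⟩ := near_dense hN hD hq'
  obtain ⟨r', hrD, hrr⟩ := near_dense hN hD hr'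
  obtain ⟨n, hn⟩ := hdS (k (y s₁)) (by
    simp only [mem_iUnion]
    exact ⟨p', hpD, q', hqD, r', hrD, ⟨_, rfl⟩, ⟨_, m₁⟩, Sep.move ⟨hp', hq', hpq⟩ hpp hqq,
      Sep.move ⟨hp', hr', hpr⟩ hpp hrr, Sep.move ⟨hq', hr', hqr⟩ hqq hrr⟩)
  exact hyd s₁ n (hn ▸ h.mem _)

end Pool.Agent.H706Z.Pl
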