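import Pool.Agent.H706Z.PlC
import Pool.Agent.H566W.Ana

/-!
The plane is not partitioned into fewer than continuum many continua.
-/

set_option autoImplicit false

open Set Filter Topology Metric TopologicalSpace

namespace Pool.Agent.H706Z.Pl

theorem polish_of_Gδ {X : Type*} [TopologicalSpace X] [PolishSpace X] {s : Set X}
    (hs : IsGδ s) : PolishSpace s := by
  obtain ⟨f, hf, rfl⟩ := isGδ_iff_eq_iInter_nat.1 hs
  have : ∀ n, PolishSpace (f n) := fun n => (hf n).polishSpace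
  let e : (⋂ n, f n : Set X) → (∀ n, f n) := fun x n => ⟨x.1, mem_iInter.1 x.2 n⟩
  have hc : Continuous e := continuous_pi fun n => continuous_subtype_val.subtype_mk _
  have hp : Continuous fun y : (∀ n, f n) => (y 0).1 :=
    continuous_subtype_val.comp (continuous_apply 0)
  have he : IsEmbedding e := IsEmbedding.of_comp hc hp IsEmbedding.subtypeVal
  refine IsClosedEmbedding.polishSpace (f := e) ⟨he, ?_⟩
  have : range e = ⋂ n, {y : (∀ n, f n) | (y n).1 = (y 0).1} := by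
    ext y
    simp only [mem_range, mem_iInter, mem_ofPred_eq]
    constructor
    · rintro ⟨x, rfl⟩ n
      rfl
    · intro h
      refine ⟨⟨(y 0).1, mem_iInter.2 fun n => h n ▸ (y n).2⟩, funext fun n => Subtype.ext ?_⟩
      exact (h n).symm
  rw [this]
  exact isClosed_iInter fun n => isClosed_eq
    (continuous_subtype_val.comp (continuous_apply n)) hp

theorem closed_mem : IsClosed {p : ℂ × NonemptyCompacts ℂ | p.1 ∈ (p.2 : Set ℂ)} := by
  have : {p : ℂ × NonemptyCompacts ℂ | p.1 ∈ (p.2 : Set ℂ)} =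
      {p | infDist p.1 (p.2 : Set ℂ) = 0} := by
    ext p
    exact p.2.isCompact.isClosed.mem_iff_infDist_zero p.2.nonempty
  rw [this]
  exact isClosed_eq lipschitz_infDist.continuous continuous_const

theorem closed_preconn : IsClosed {L : NonemptyCompacts ℂ | IsPreconnected (L : Set ℂ)} := by
  rw [← isOpen_compl_iff, isOpen_iff_forall_mem_open]
  intro L hL
  have hL' : ¬ IsPreconnected (L : Set ℂ) := hL
  rw [isPreconnected_iff_subset_of_fully_disjoint_closed L.isCompact.isClosed] at hL'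
  push Not at hL'
  obtain ⟨A, B, hA, hB, hAB, hd, h1, h2⟩ := hL'
  obtain ⟨U, V, hU, hV, hAU, hBV, hUV⟩ := normal_separation hA hB hd
  obtain ⟨y, hy, hyA⟩ := not_subset.1 h1
  obtain ⟨x, hx, hxB⟩ := not_subset.1 h2
  refine ⟨{M : NonemptyCompacts ℂ | (M : Set ℂ) ⊆ U ∪ V} ∩
    ({M : NonemptyCompacts ℂ | ((M : Set ℂ) ∩ U).Nonempty} ∩
      {M : NonemptyCompacts ℂ | ((M : Set ℂ) ∩ V).Nonempty}), ?_, ?_, ?_⟩
  · rintro M ⟨h3, ⟨u, hu1, hu2⟩, ⟨v, hv1, hv2⟩⟩ hM
    rcases IsPreconnected.subset_or_subset hU hV hUV h3 hM with h | h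
    · exact disjoint_left.1 hUV (h hv1) hv2
    · exact disjoint_left.1 hUV hu2 (h hu1)
  · exact (NonemptyCompacts.isOpen_subsets_of_isOpen (hU.union hV)).inter
      ((NonemptyCompacts.isOpen_inter_nonempty_of_isOpen hU).inter
        (NonemptyCompacts.isOpen_inter_nonempty_of_isOpen hV))
  · exact ⟨hAB.trans (union_subset_union hAU hBV), ⟨x, hx, hAU ((hAB hx).resolve_right hxB)⟩,
      ⟨y, hy, hBV ((hAB hy).resolve_left hyA)⟩⟩

theorem Gδ_nonsep : IsGδ {L : NonemptyCompacts ℂ | IsPreconnected (L : Set ℂ)ᶜ} := by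
  obtain ⟨D, hDc, hD⟩ := TopologicalSpace.exists_countable_dense ℂ
  have hmem : ∀ p : ℂ, IsClosed {L : NonemptyCompacts ℂ | p ∈ (L : Set ℂ)} := fun p =>
    closed_mem.preimage (f := fun L : NonemptyCompacts ℂ => (p, L)) (by fun_prop)
  have : {L : NonemptyCompacts ℂ | IsPreconnected (L : Set ℂ)ᶜ} = ⋂ p ∈ D, ⋂ q ∈ D,
      ({L : NonemptyCompacts ℂ | p ∈ (L : Set ℂ)} ∪ {L : NonemptyCompacts ℂ | q ∈ (L : Set ℂ)} ∪
        ⋃ C ∈ {C : Set ℂ | IsCompact C ∧ IsPreconnected C ∧ p ∈ C ∧ q ∈ C},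
          {L : NonemptyCompacts ℂ | (L : Set ℂ) ⊆ Cᶜ}) := by
    ext L
    simp only [mem_iInter, mem_union, mem_iUnion, mem_setOf_eq]
    constructor
    · intro hL p _ q _
      by_cases hp : p ∈ (L : Set ℂ)
      · exact Or.inl (Or.inl hp)
      by_cases hq : q ∈ (L : Set ℂ)
      · exact Or.inl (Or.inr hq)
      right
      have h1 : IsPathConnected (L : Set ℂ)ᶜ :=
        (L.isCompact.isClosed.isOpen_compl.isConnected_iff_isPathConnected).1 ⟨⟨p, hp⟩, hL⟩
      obtain ⟨γ, hγ⟩ := h1.joinedIn p hp q hq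
      refine ⟨range γ, ⟨isCompact_range γ.continuous, isPreconnected_range γ.continuous,
        ⟨0, γ.source⟩, ⟨1, γ.target⟩⟩, ?_⟩
      rintro z hz ⟨t, rfl⟩
      exact hγ t hz
    · intro h
      refine isPreconnected_of_forall_pair fun p hp q hq => ⟨connectedComponentIn (L : Set ℂ)ᶜ p,
        connectedComponentIn_subset _ _, mem_connectedComponentIn hp, ?_,
        isPreconnected_connectedComponentIn⟩
      by_contra h'
      obtain ⟨p', hp'D, hp'⟩ := near_dense L.isCompact.isClosed hD hp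
      obtain ⟨q', hq'D, hq'⟩ := near_dense L.isCompact.isClosed hD hq
      have hs := Sep.move ⟨hp, hq, h'⟩ hp' hq'
      rcases h p' hp'D q' hq'D with (h1 | h1) | ⟨C, ⟨-, h2, h3, h4⟩, h5⟩
      · exact hs.1 h1
      · exact hs.2.1 h1
      · exact hs.2.2 (h2.subset_connectedComponentIn h3 (fun z hz hz' => h5 hz' hz) h4)
  rw [this]
  refine IsGδ.biInter hDc fun p _ => IsGδ.biInter hDc fun q _ => ?_
  refine ((hmem p).isGδ.union (hmem q).isGδ).union (IsOpen.isGδ ?_)
  exact isOpen_biUnion fun C hC =>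
    NonemptyCompacts.isOpen_subsets_of_isOpen hC.1.isClosed.isOpen_compl

theorem main {k : ℂ → Set ℂ} (h : Part k) (hc : ∀ x, IsCompact (k x))
    (hp : ∀ x, IsPreconnected (k x)) (hcard : Cardinal.mk (range k) < Cardinal.continuum) :
    False := by
  obtain ⟨c, ha, hcS⟩ := exists_appr (separating_countable h hp hcard) (fun K hK => hK.1)
  set Y : Set ℂ := ⋂ n, (k (c n))ᶜ with hY
  have hYG : IsGδ Y := IsGδ.iInter_of_isOpen fun n => (h.cl _).isOpen_compl
  set B : Set (Set ℂ) := {U | U ∈ countableBasis ℂ ∧ (k '' (U ∩ Y)).Countable} with hB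
  have hBc : B.Countable := (countable_countableBasis ℂ).mono fun U hU => hU.1
  have hO : IsOpen (⋃₀ B) := isOpen_sUnion fun U hU => isOpen_of_mem_countableBasis hU.1
  have hOc : (k '' (⋃₀ B ∩ Y)).Countable := by
    refine (hBc.biUnion fun U hU => hU.2).mono ?_
    rintro _ ⟨x, ⟨⟨U, hU, hxU⟩, hxY⟩, rfl⟩
    exact mem_biUnion hU ⟨x, ⟨hxU, hxY⟩, rfl⟩
  set Z : Set ℂ := Y ∩ (⋃₀ B)ᶜ with hZ
  have hZG : IsGδ Z := hYG.inter hO.isClosed_compl.isGδ
  have hZne : Z.Nonempty := by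
    by_contra hne
    obtain ⟨d, hd⟩ := enum (k := k) (hOc.union (countable_range (fun n => k (c n))))
      (union_subset (image_subset_range _ _) (by rintro _ ⟨n, rfl⟩; exact ⟨_, rfl⟩))
    obtain ⟨b, hb⟩ := far_point (hc 0)
    have hbk : b ∉ k 0 := fun e => lt_irrefl _ (hb b e)
    have hN : Node k (segment ℝ (0 : ℂ) b) := by
      refine h.node ?_ (convex_segment _ _).isPreconnected (left_mem_segment _ _ _)
        fun e => hbk (e (right_mem_segment _ _ _))
      rw [segment_eq_image]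
      exact isCompact_Icc.image (by fun_prop)
    obtain ⟨y, -, hy⟩ := sierpinski h hN d
    by_cases hyY : y ∈ Y
    · have hyO : y ∈ ⋃₀ B := by
        by_contra h'
        exact hne ⟨y, hyY, h'⟩
      obtain ⟨n, hn⟩ := hd (k y) (Or.inl ⟨y, ⟨hyO, hyY⟩, rfl⟩)
      exact hy n (hn ▸ h.mem y)
    · simp only [hY, mem_iInter, mem_compl_iff, not_forall, not_not] at hyY
      obtain ⟨m, hm⟩ := hyY
      obtain ⟨n, hn⟩ := hd (k (c m)) (Or.inr ⟨m, rfl⟩)
      exact hy n (hn ▸ hm)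
  have : Nonempty Z := hZne.to_subtype
  have : PolishSpace Z := polish_of_Gδ hZG
  -- the witnesses
  set W : Set ((Z × Z) × NonemptyCompacts ℂ) := {p | (p.1.1 : ℂ) ∈ (p.2 : Set ℂ)} ∩
    ({p | (p.1.2 : ℂ) ∈ (p.2 : Set ℂ)} ∩ (Prod.snd ⁻¹'
      ({L : NonemptyCompacts ℂ | IsPreconnected (L : Set ℂ)} ∩
        ({L : NonemptyCompacts ℂ | IsPreconnected (L : Set ℂ)ᶜ} ∩
          ⋂ n, {L : NonemptyCompacts ℂ | (L : Set ℂ) ⊆ (k (c n))ᶜ})))) with hW
  have hWG : IsGδ W := by
    refine IsGδ.inter (IsClosed.isGδ ?_) (IsGδ.inter (IsClosed.isGδ ?_) (IsGδ.preimage ?_ ?_))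
    · exact closed_mem.preimage (f := fun p : (Z × Z) × NonemptyCompacts ℂ => ((p.1.1 : ℂ), p.2))
        (by fun_prop)
    · exact closed_mem.preimage (f := fun p : (Z × Z) × NonemptyCompacts ℂ => ((p.1.2 : ℂ), p.2))
        (by fun_prop)
    · exact continuous_snd
    · exact closed_preconn.isGδ.inter (Gδ_nonsep.inter (IsGδ.iInter_of_isOpen fun n =>
        NonemptyCompacts.isOpen_subsets_of_isOpen (h.cl _).isOpen_compl))
  have : PolishSpace W := polish_of_Gδ hWG
  have hR : range (fun w : W => w.1.1) = {p : Z × Z | k p.1 = k p.2} := by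
    ext p
    constructor
    · rintro ⟨⟨⟨p, L⟩, h1, h2, h3, h4, h5⟩, rfl⟩
      have h6 := single h hc hp hcard ha h4
        (fun n => disjoint_left.2 fun z hz => mem_iInter.1 h5 n hz)
      by_contra hne
      exact h6 (h.node L.isCompact h3 h1 fun e => hne (h.cls _ _ (e h2)).symm)
    · intro hp'
      have hp'' : k p.1 = k p.2 := hp'
      have hx : ∀ n, (p.1 : ℂ) ∉ k (c n) := fun n => mem_iInter.1 p.1.2.1 n
      refine ⟨⟨(p, ⟨⟨k p.1, hc _⟩, ⟨_, h.mem _⟩⟩), h.mem _, ?_, hp _, ?_, ?_⟩, rfl⟩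
      · show (p.2 : ℂ) ∈ k p.1
        rw [hp'']
        exact h.mem _
      · show IsPreconnected (k p.1)ᶜ
        by_contra hns
        obtain ⟨n, hn⟩ := hcS (k p.1) ⟨⟨_, rfl⟩, hns⟩
        exact hx n (hn ▸ h.mem _)
      · exact mem_iInter.2 fun n z hz hz' => disjoint_left.1 (h.disj' (hx n)) hz' hz
  have hA : MeasureTheory.AnalyticSet {p : Z × Z | k p.1 = k p.2} := by
    rw [← hR]
    exact MeasureTheory.analyticSet_range_of_polishSpace (by fun_prop)
  have hsec : ∀ x : Z, IsMeagre {y : Z | k x = k y} := by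
    intro x
    apply IsNowhereDense.isMeagre
    have hcl : IsClosed {y : Z | k x = k y} := by
      have : {y : Z | k x = k y} = Subtype.val ⁻¹' k x := by
        ext y
        exact ⟨fun e => (show k x = k y from e) ▸ h.mem _, fun e => (h.cls _ _ e).symm⟩
      rw [this]
      exact (h.cl _).preimage continuous_subtype_val
    rw [hcl.isNowhereDense_iff]
    by_contra hne
    obtain ⟨y, hy⟩ := Set.nonempty_iff_ne_empty.2 hne
    obtain ⟨V, hV, hVe⟩ := isOpen_induced_iff.1 (isOpen_interior (s := {y : Z | k x = k y}))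
    obtain ⟨U, hU, hyU, hUV⟩ := (isBasis_countableBasis ℂ).exists_subset_of_mem_open
      (show (y : ℂ) ∈ V by rw [← hVe] at hy; exact hy) hV
    refine y.2.2 ⟨U, ⟨hU, (hOc.insert (k x)).mono ?_⟩, hyU⟩
    rintro _ ⟨z, ⟨hzU, hzY⟩, rfl⟩
    by_cases hzO : z ∈ ⋃₀ B
    · exact Or.inr ⟨z, ⟨hzO, hzY⟩, rfl⟩
    · have : (⟨z, hzY, hzO⟩ : Z) ∈ interior {y : Z | k x = k y} := by
        rw [← hVe]
        exact hUV hzU
      exact Or.inl (interior_subset this).symm
  have hm : IsMeagre {p : Z × Z | k p.1 = k p.2} := by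
    rw [MeasureTheory.AnalyticSet] at hA
    rcases hA with e | ⟨f, hf, hfr⟩
    · rw [e]; exact IsMeagre.empty
    · rw [← hfr]
      apply Pool.Agent.H566W.meagre_of_sections hf
      intro x
      rw [hfr]
      exact hsec x
  obtain ⟨S, hSo, hSd, hSc, hSM⟩ := mem_residual_iff.1 hm
  obtain ⟨V, hV⟩ := (hSc.insert univ).exists_eq_range ⟨univ, mem_insert _ _⟩
  have hVS : ∀ n, V n = univ ∨ V n ∈ S := by
    intro n
    have : V n ∈ insert univ S := by rw [hV]; exact ⟨n, rfl⟩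
    exact this
  obtain ⟨g, -, hg⟩ := Pool.Agent.H565R2.FO2.mycielski' V (fun n => by
    rcases hVS n with e | e
    · rw [e]; exact isOpen_univ
    · exact hSo _ e) (fun n => by
    rcases hVS n with e | e
    · rw [e]; exact dense_univ
    · exact hSd _ e)
  refine fiber_uncountable hcard (fun s => g s) fun K => Set.Subsingleton.countable ?_
  intro s hs t ht
  by_contra hst
  refine hSM (a := (g s, g t)) (fun u hu => ?_) (hs.trans ht.symm)
  have : u ∈ range V := by rw [← hV]; exact mem_insert_of_mem _ hu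
  obtain ⟨n, rfl⟩ := this
  exact hg s t hst n

end Pool.Agent.H706Z.Pl
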