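import Mathlib
import Pool.Agent.H706Z.DSepDefs

set_option autoImplicit false

/-!
# A countable T1 Frechet space that is not D-separable; separable sequential Hausdorff spaces are
D-separable
-/

namespace Pool.Agent.H706Z.SeqEx

open Set Filter Topology

/-- pairs of naturals, to be given the level topology -/
def Lev : Type := ℕ × ℕ

instance : Countable Lev := inferInstanceAs (Countable (ℕ × ℕ))

instance : TopologicalSpace Lev where
  IsOpen U := ∀ x ∈ U, ∀ m, x.1 ≤ m → {k : ℕ | ((m, k) : ℕ × ℕ) ∉ U}.Finite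
  isOpen_univ := fun x _ m _ => finite_empty.subset fun _ hk => hk (mem_univ _)
  isOpen_inter := fun U V hU hV x hx m hm =>
    ((hU x hx.1 m hm).union (hV x hx.2 m hm)).subset fun k hk => by
      by_contra h
      simp only [mem_union, mem_ofPred_eq, not_or, not_not] at h
      exact hk ⟨h.1, h.2⟩
  isOpen_sUnion := fun S hS x hx m hm => by
    obtain ⟨U, hU, hxU⟩ := hx
    exact (hS U hU x hxU m hm).subset fun k hk h => hk ⟨U, hU, h⟩

theorem isOpen_iff (U : Set Lev) :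
    IsOpen U ↔ ∀ x ∈ U, ∀ m, x.1 ≤ m → {k : ℕ | ((m, k) : ℕ × ℕ) ∉ U}.Finite := Iff.rfl

theorem t1 : T1Space Lev := by
  refine ⟨fun x => ⟨(isOpen_iff _).mpr fun y _ m _ => ?_⟩⟩
  refine (Set.finite_singleton x.2).subset fun k hk => ?_
  have : ((m, k) : ℕ × ℕ) = x := not_not.mp hk
  rw [← this]
  rfl

theorem frechet : FrechetUrysohnSpace Lev := by
  refine ⟨fun A x hx => ?_⟩
  by_cases hxA : x ∈ A
  · exact ⟨fun _ => x, fun _ => hxA, tendsto_const_nhds⟩
  have : ∃ m, x.1 ≤ m ∧ {k : ℕ | ((m, k) : ℕ × ℕ) ∈ A}.Infinite := by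
    by_contra h
    push Not at h
    have hU : IsOpen {y : Lev | x.1 ≤ y.1 ∧ y ∉ A} := by
      refine (isOpen_iff _).mpr fun y hy m hm => (h m (hy.1.trans hm)).subset fun k hk => ?_
      by_contra hk'
      exact hk ⟨hy.1.trans hm, hk'⟩
    obtain ⟨y, hy1, hy2⟩ := mem_closure_iff.mp hx _ hU ⟨le_rfl, hxA⟩
    exact hy1.2 hy2
  obtain ⟨m, hm, hinf⟩ := this
  let e := hinf.natEmbedding
  refine ⟨fun j => ((m, (e j).1) : ℕ × ℕ), fun j => (e j).2, ?_⟩
  rw [tendsto_nhds]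
  intro U hU hxU
  have hfin := (isOpen_iff U).mp hU x hxU m hm
  have hinj : Function.Injective fun j => (e j).1 := Subtype.val_injective.comp e.injective
  rw [← Nat.cofinite_eq_atTop]
  exact hfin.preimage hinj.injOn

theorem not_bigD : ¬ BigDSeparable Lev := by
  intro h
  have hD : ∀ n : ℕ, Dense {x : Lev | n ≤ x.1} := by
    intro n
    rw [dense_iff_inter_open]
    rintro U hU ⟨x, hx⟩
    obtain ⟨k, hk⟩ := ((isOpen_iff U).mp hU x hx (max n x.1) (le_max_right _ _)).exists_notMem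
    exact ⟨((max n x.1, k) : ℕ × ℕ), not_not.mp hk, (le_max_left n x.1 :)⟩
  obtain ⟨F, hF, hd⟩ := h _ hD
  have hfin : ∀ n m, {k : ℕ | ((m, k) : ℕ × ℕ) ∈ F n}.Finite := by
    intro n m
    have hdisc := (hF n).2
    rw [← isDiscrete_iff_discreteTopology, isDiscrete_iff_forall_mem_exists_isOpen] at hdisc
    rcases {k : ℕ | ((m, k) : ℕ × ℕ) ∈ F n}.eq_empty_or_nonempty with h0 | ⟨k, hk⟩
    · rw [h0]
      exact finite_empty
    · obtain ⟨U, hU, hUF⟩ := hdisc _ hk
      have h1 := (isOpen_iff U).mp hU _ (hUF.symm.subset rfl).1 m le_rfl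
      refine (h1.union (Set.finite_singleton k)).subset fun j hj => ?_
      by_cases hjU : ((m, j) : ℕ × ℕ) ∈ U
      · exact Or.inr (congrArg Prod.snd (hUF.subset ⟨hjU, hj⟩))
      · exact Or.inl hjU
  have hfin2 : ∀ m, {k : ℕ | ((m, k) : ℕ × ℕ) ∈ ⋃ n, F n}.Finite := by
    intro m
    refine ((Set.finite_le_nat m).biUnion fun n _ => hfin n m).subset fun k hk => ?_
    obtain ⟨n, hn⟩ := mem_iUnion.mp hk
    exact mem_biUnion ((hF n).1 hn) hn
  have hopen : IsOpen (⋃ n, F n)ᶜ :=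
    (isOpen_iff _).mpr fun x _ m _ => (hfin2 m).subset fun k hk => not_not.mp hk
  obtain ⟨k, hk⟩ := (hfin2 0).exists_notMem
  obtain ⟨y, hy1, hy2⟩ := hd.inter_open_nonempty _ hopen ⟨((0, k) : ℕ × ℕ), hk⟩
  exact hy1 hy2

theorem discretely_generated {X : Type} [TopologicalSpace X] [T2Space X] [SequentialSpace X]
    (A : Set X) : closure A ⊆ {x | ∃ F ⊆ A, IsDiscrete F ∧ x ∈ closure F} := by
  refine closure_minimal (fun x hx => ⟨{x}, singleton_subset_iff.mpr hx,
    subsingleton_singleton.isDiscrete, subset_closure rfl⟩) (IsSeqClosed.isClosed ?_)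
  intro u x hu hux
  by_cases hx : ∃ n, u n = x
  · obtain ⟨n, rfl⟩ := hx
    exact hu n
  push Not at hx
  choose F hF1 hF2 hF3 using hu
  have hstep : ∀ (k : ℕ) (W : {W : Set X // IsOpen W ∧ x ∈ W}), ∃ n, k ≤ n ∧ ∃ U : Set X,
      ∃ W' : {W : Set X // IsOpen W ∧ x ∈ W}, IsOpen U ∧ u n ∈ U ∧ U ⊆ W.1 ∧ W'.1 ⊆ W.1 ∧
        Disjoint U W'.1 := by
    intro k W
    obtain ⟨n, hn1, hn2⟩ := ((eventually_ge_atTop k).and
      (hux.eventually (W.2.1.mem_nhds W.2.2))).exists
    obtain ⟨U, V, hU, hV, h1, h2, h3⟩ := t2_separation (hx n)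
    exact ⟨n, hn1, U ∩ W.1, ⟨V ∩ W.1, hV.inter W.2.1, h2, W.2.2⟩, hU.inter W.2.1, ⟨h1, hn2⟩,
      inter_subset_right, inter_subset_right, h3.mono inter_subset_left inter_subset_left⟩
  choose n hn U W' hU1 hU2 hU3 hU4 hU5 using hstep
  let W : ℕ → {W : Set X // IsOpen W ∧ x ∈ W} := fun k =>
    Nat.rec ⟨univ, isOpen_univ, mem_univ x⟩ (fun k W => W' k W) k
  have hW : Antitone fun k => (W k).1 := antitone_nat_of_succ_le fun k => hU4 k (W k)
  have hdisj : ∀ j k, j < k → Disjoint (U j (W j)) (U k (W k)) := fun j k hjk =>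
    (hU5 j (W j)).mono_right ((hU3 k (W k)).trans (hW (Nat.succ_le_of_lt hjk)))
  refine ⟨⋃ k, U k (W k) ∩ F (n k (W k)), iUnion_subset fun k => inter_subset_right.trans (hF1 _),
    ?_, ?_⟩
  · rw [isDiscrete_iff_forall_mem_exists_isOpen]
    intro y hy
    obtain ⟨k, hk⟩ := mem_iUnion.mp hy
    obtain ⟨O, hO, hOF⟩ := isDiscrete_iff_forall_mem_exists_isOpen.mp (hF2 _) y hk.2
    refine ⟨O ∩ U k (W k), hO.inter (hU1 _ _), ?_⟩
    ext z
    constructor
    · rintro ⟨⟨h1, h2⟩, h3⟩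
      obtain ⟨j, hj⟩ := mem_iUnion.mp h3
      rcases lt_trichotomy j k with h | h | h
      · exact absurd h2 (Set.disjoint_left.mp (hdisj j k h) hj.1)
      · subst h
        exact hOF.subset ⟨h1, hj.2⟩
      · exact absurd hj.1 (Set.disjoint_left.mp (hdisj k j h) h2)
    · rintro rfl
      exact ⟨⟨(hOF.symm.subset rfl).1, hk.1⟩, hy⟩
  · have ht : Tendsto (fun k => u (n k (W k))) atTop (𝓝 x) :=
      hux.comp (tendsto_atTop_mono (fun k => hn k (W k)) tendsto_id)
    refine isClosed_closure.mem_of_tendsto ht (Eventually.of_forall fun k => ?_)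
    exact closure_mono (subset_iUnion (fun k => U k (W k) ∩ F (n k (W k))) k)
      ((hU1 k (W k)).inter_closure ⟨hU2 k (W k), hF3 _⟩)

theorem bigD_of_separable (X : Type) [TopologicalSpace X] [T2Space X] [SequentialSpace X]
    [TopologicalSpace.SeparableSpace X] : BigDSeparable X := by
  intro D hD
  rcases isEmpty_or_nonempty X with h | h
  · exact ⟨fun _ => ∅, fun n => ⟨empty_subset _, inferInstance⟩, fun x => (h.false x).elim⟩
  obtain ⟨u, hu⟩ := TopologicalSpace.exists_dense_seq X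
  choose F hF1 hF2 hF3 using fun n => discretely_generated (D n) (hD n (u n))
  refine ⟨F, fun n => ⟨hF1 n, isDiscrete_iff_discreteTopology.mp (hF2 n)⟩, ?_⟩
  refine Dense.of_closure (hu.mono ?_)
  rintro _ ⟨n, rfl⟩
  exact closure_mono (subset_iUnion F n) (hF3 n)

end Pool.Agent.H706Z.SeqEx
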