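import Mathlib

set_option autoImplicit false

/-!
# Hilbert functions of complete intersections of quadrics
-/

namespace Pool.Agent.H706Z.Wat

open MvPolynomial Module

variable {F : Type*} [Field F] {σ : Type*}

theorem comp_mul {g : MvPolynomial σ F} {d : ℕ} (hg : g.IsHomogeneous d) (h : MvPolynomial σ F)
    (n : ℕ) : homogeneousComponent n (h * g) =
      if d ≤ n then homogeneousComponent (n - d) h * g else 0 := by
  induction h using MvPolynomial.induction_on' with
  | monomial u a =>
    have h1 : (monomial u a : MvPolynomial σ F).IsHomogeneous u.degree :=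
      isHomogeneous_monomial a rfl
    rw [homogeneousComponent_of_mem (h1.mul hg), homogeneousComponent_of_mem h1]
    by_cases h2 : d ≤ n
    · by_cases h3 : n = u.degree + d
      · rw [if_pos h3, if_pos h2, if_pos (by omega)]
      · rw [if_neg h3, if_pos h2, if_neg (by omega), zero_mul]
    · rw [if_neg h2, if_neg (by omega)]
  | add p q hp hq =>
    rw [add_mul, map_add, hp, hq]
    split_ifs
    · rw [map_add, add_mul]
    · rw [add_zero]

theorem comp_mem_span {s : Set (MvPolynomial σ F)} (hs : ∀ g ∈ s, ∃ d, g.IsHomogeneous d)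
    {p : MvPolynomial σ F} (hp : p ∈ Ideal.span s) (n : ℕ) :
    homogeneousComponent n p ∈ Ideal.span s := by
  obtain ⟨k, c, g, rfl⟩ := Submodule.mem_span_set'.mp hp
  rw [map_sum]
  refine Ideal.sum_mem _ fun i _ => ?_
  obtain ⟨d, hd⟩ := hs _ (g i).2
  rw [smul_eq_mul, comp_mul hd]
  split_ifs
  · exact Ideal.mul_mem_left _ _ (Ideal.subset_span (g i).2)
  · exact Ideal.zero_mem _

theorem exists_homog_comb {N : ℕ} {G : Fin N → MvPolynomial σ F}
    (hG : ∀ i, (G i).IsHomogeneous 2) {p : MvPolynomial σ F} {n : ℕ}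
    (hp : p ∈ Ideal.span (Set.range G)) (hn : p.IsHomogeneous (n + 2)) :
    ∃ c : Fin N → MvPolynomial σ F, (∀ i, (c i).IsHomogeneous n) ∧ p = ∑ i, c i * G i := by
  obtain ⟨c, hc⟩ := Ideal.mem_span_range_iff_exists_fun.mp hp
  refine ⟨fun i => homogeneousComponent n (c i),
    fun i => homogeneousComponent_isHomogeneous _ _, ?_⟩
  rw [← homogeneousComponent_eq_self hn, ← hc, map_sum]
  refine Finset.sum_congr rfl fun i _ => ?_
  rw [comp_mul (hG i), if_pos (by omega), Nat.add_sub_cancel]

/-- the ideal generated by the first `k` members -/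
noncomputable def ini {N : ℕ} (g : Fin N → MvPolynomial σ F) (k : ℕ) : Ideal (MvPolynomial σ F) :=
  Ideal.span (g '' {i | i.1 < k})

/-- each member is regular modulo the earlier ones -/
def Reg {N : ℕ} (g : Fin N → MvPolynomial σ F) : Prop :=
  ∀ (i : Fin N) (p : MvPolynomial σ F), g i * p ∈ ini g i → p ∈ ini g i

theorem ini_full {N : ℕ} (g : Fin N → MvPolynomial σ F) : ini g N = Ideal.span (Set.range g) := by
  rw [ini, ← Set.image_univ]
  congr 2
  ext i
  simp

theorem ofList_take {N : ℕ} (g : Fin N → MvPolynomial σ F) (k : ℕ) :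
    Ideal.ofList ((List.ofFn g).take k) = ini g k := by
  rw [ini, Ideal.ofList]
  congr 1
  ext x
  simp only [Set.mem_ofPred_eq, Set.mem_image, List.mem_take_iff_getElem, List.length_ofFn,
    List.getElem_ofFn]
  constructor
  · rintro ⟨j, hj, rfl⟩
    exact ⟨⟨j, by omega⟩, by simp only; omega, rfl⟩
  · rintro ⟨j, hj, rfl⟩
    exact ⟨j.1, by have := j.2; omega, rfl⟩

theorem weaklyRegular_iff {N : ℕ} (g : Fin N → MvPolynomial σ F) :
    RingTheory.Sequence.IsWeaklyRegular (MvPolynomial σ F) (List.ofFn g) ↔ Reg g := by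
  rw [RingTheory.Sequence.isWeaklyRegular_iff]
  constructor
  · intro h i p hp
    have := h i.1 (by simp)
    rw [isSMulRegular_quotient_iff_mem_of_smul_mem, ofList_take, smul_eq_mul,
      Ideal.mul_top] at this
    exact this p (by simpa using hp)
  · intro h i hi
    rw [isSMulRegular_quotient_iff_mem_of_smul_mem, ofList_take, smul_eq_mul, Ideal.mul_top]
    intro p hp
    exact h ⟨i, by simpa using hi⟩ p (by simpa using hp)

theorem ini_succ {N : ℕ} (g : Fin N → MvPolynomial σ F) (k : Fin N) :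
    ini g (k + 1) = ini g k ⊔ Ideal.span {g k} := by
  rw [ini, ini, ← Ideal.span_union]
  congr 1
  ext x
  simp only [Set.mem_image, Set.mem_ofPred_eq, Set.union_singleton, Set.mem_insert_iff]
  constructor
  · rintro ⟨j, hj, rfl⟩
    by_cases h : j = k
    · exact Or.inl (by rw [h])
    · exact Or.inr ⟨j, by have : j.1 ≠ k.1 := fun h' => h (Fin.ext h'); omega, rfl⟩
  · rintro (rfl | ⟨j, hj, rfl⟩)
    · exact ⟨k, by omega, rfl⟩
    · exact ⟨j, by omega, rfl⟩

/-- the degree `n` part of an ideal -/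
noncomputable def part (I : Ideal (MvPolynomial σ F)) (n : ℕ) : Submodule F (MvPolynomial σ F) :=
  homogeneousSubmodule σ F n ⊓ I.restrictScalars F

theorem mem_part {I : Ideal (MvPolynomial σ F)} {n : ℕ} {p : MvPolynomial σ F} :
    p ∈ part I n ↔ p.IsHomogeneous n ∧ p ∈ I := Iff.rfl

instance [Finite σ] (n : ℕ) : Module.Finite F (homogeneousSubmodule σ F n) :=
  Module.Finite.iff_fg.mpr (homogeneousSubmodule_fg σ F n)

instance [Finite σ] (I : Ideal (MvPolynomial σ F)) (n : ℕ) : Module.Finite F (part I n) :=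
  Submodule.finiteDimensional_of_le (inf_le_left (a := homogeneousSubmodule σ F n))

theorem one_notMem_span {s : Set (MvPolynomial σ F)} (hs : ∀ g ∈ s, ∃ d, d ≠ 0 ∧ g.IsHomogeneous d)
    {p : MvPolynomial σ F} (hp : p ∈ Ideal.span s) : constantCoeff p = 0 := by
  have : Ideal.span s ≤ RingHom.ker (constantCoeff (σ := σ) (R := F)) := by
    rw [Ideal.span_le]
    intro g hg
    obtain ⟨d, hd, hg⟩ := hs g hg
    exact hg.coeff_eq_zero (by simpa using hd.symm)
  exact this hp

theorem part_step [Finite σ] {N : ℕ} {g : Fin N → MvPolynomial σ F}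
    (hg : ∀ i, (g i).IsHomogeneous 2) (hr : Reg g) (k : Fin N) (n : ℕ) :
    finrank F (part (ini g (k + 1)) (n + 2)) + finrank F (part (ini g k) n) =
      finrank F (part (ini g k) (n + 2)) + finrank F (homogeneousSubmodule σ F n) := by
  have hs : ∀ x ∈ g '' {i | i.1 < k.1}, ∃ d, x.IsHomogeneous d := by
    rintro _ ⟨i, _, rfl⟩
    exact ⟨2, hg i⟩
  have hne : g k ≠ 0 := by
    intro h
    have h1 := hr k 1 (by rw [h, zero_mul]; exact Ideal.zero_mem _)
    have h2 := one_notMem_span (by rintro _ ⟨i, _, rfl⟩; exact ⟨2, by omega, hg i⟩) h1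
    simp at h2
  let μ : MvPolynomial σ F →ₗ[F] MvPolynomial σ F := LinearMap.mulRight F (g k)
  have hμ : Function.Injective μ := fun a b hab => mul_right_cancel₀ hne hab
  have h1 : part (ini g (k + 1)) (n + 2) =
      part (ini g k) (n + 2) ⊔ (homogeneousSubmodule σ F n).map μ := by
    apply le_antisymm
    · rintro p ⟨hp1, hp2⟩
      change p ∈ ini g (k + 1) at hp2
      rw [ini_succ] at hp2
      obtain ⟨q, hq, r, hr', rfl⟩ := Submodule.mem_sup.mp hp2
      obtain ⟨h, rfl⟩ := Ideal.mem_span_singleton'.mp hr'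
      rw [← homogeneousComponent_eq_self hp1, map_add, comp_mul (hg k), if_pos (by omega),
        Nat.add_sub_cancel]
      exact Submodule.add_mem_sup ⟨homogeneousComponent_isHomogeneous _ _, comp_mem_span hs hq _⟩
        ⟨_, homogeneousComponent_mem _ _, rfl⟩
    · refine sup_le (fun p hp => ⟨hp.1, ?_⟩) ?_
      · change p ∈ ini g (k + 1)
        rw [ini_succ]
        exact Ideal.mem_sup_left hp.2
      · rintro _ ⟨h, hh, rfl⟩
        refine ⟨IsHomogeneous.mul hh (hg k), ?_⟩
        change h * g k ∈ ini g (k + 1)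
        rw [ini_succ]
        exact Ideal.mem_sup_right (Ideal.mul_mem_left _ _ (Ideal.mem_span_singleton_self _))
  have h2 : part (ini g k) (n + 2) ⊓ (homogeneousSubmodule σ F n).map μ =
      (part (ini g k) n).map μ := by
    apply le_antisymm
    · rintro _ ⟨hp, h, hh, rfl⟩
      exact ⟨h, ⟨hh, hr k h (by rw [mul_comm]; exact hp.2)⟩, rfl⟩
    · rintro _ ⟨h, hh, rfl⟩
      exact ⟨⟨IsHomogeneous.mul hh.1 (hg k), Ideal.mul_mem_right _ _ hh.2⟩, h, hh.1, rfl⟩
  have h3 := Submodule.finrank_sup_add_finrank_inf_eq (part (ini g k) (n + 2))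
    ((homogeneousSubmodule σ F n).map μ)
  rw [← h1, h2, ← (Submodule.equivMapOfInjective μ hμ _).finrank_eq,
    ← (Submodule.equivMapOfInjective μ hμ _).finrank_eq] at h3
  exact h3

theorem part_low {N : ℕ} {g : Fin N → MvPolynomial σ F} (hg : ∀ i, (g i).IsHomogeneous 2)
    (k n : ℕ) (hn : n < 2) : part (ini g k) n = ⊥ := by
  rw [eq_bot_iff]
  rintro p ⟨hp1, hp2⟩
  obtain ⟨m, c, x, rfl⟩ := Submodule.mem_span_set'.mp hp2
  rw [Submodule.mem_bot, ← homogeneousComponent_eq_self hp1, map_sum]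
  refine Finset.sum_eq_zero fun i _ => ?_
  obtain ⟨j, _, hj⟩ := (x i).2
  rw [smul_eq_mul, ← hj, comp_mul (hg j), if_neg (by omega)]

theorem part_eq [Finite σ] {N : ℕ} {g g' : Fin N → MvPolynomial σ F}
    (hg : ∀ i, (g i).IsHomogeneous 2) (hr : Reg g) (hg' : ∀ i, (g' i).IsHomogeneous 2)
    (hr' : Reg g') (k : ℕ) (hk : k ≤ N) (n : ℕ) :
    finrank F (part (ini g k) n) = finrank F (part (ini g' k) n) := by
  induction k generalizing n with
  | zero =>
    have h0 : {i : Fin N | i.1 < 0} = ∅ := by ext i; simp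
    rw [ini, ini, h0, Set.image_empty, Set.image_empty]
  | succ k ih =>
    rcases lt_or_ge n 2 with hn | hn
    · rw [part_low hg _ _ hn, part_low hg' _ _ hn]
    · obtain ⟨m, rfl⟩ : ∃ m, n = m + 2 := ⟨n - 2, by omega⟩
      have h1 := part_step hg hr ⟨k, hk⟩ m
      have h2 := part_step hg' hr' ⟨k, hk⟩ m
      have h3 := ih (by omega) m
      have h4 := ih (by omega) (m + 2)
      simp only at h1 h2
      omega

theorem full_iff [Finite σ] {N : ℕ} {g g' : Fin N → MvPolynomial σ F}
    (hg : ∀ i, (g i).IsHomogeneous 2) (hr : Reg g) (hg' : ∀ i, (g' i).IsHomogeneous 2)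
    (hr' : Reg g') (n : ℕ) (h : ∀ p : MvPolynomial σ F, p.IsHomogeneous n → p ∈ ini g N) :
    ∀ p : MvPolynomial σ F, p.IsHomogeneous n → p ∈ ini g' N := by
  have h1 : part (ini g N) n = homogeneousSubmodule σ F n :=
    le_antisymm inf_le_left fun p hp => ⟨hp, h p hp⟩
  have h2 : part (ini g' N) n = homogeneousSubmodule σ F n := by
    refine Submodule.eq_of_le_of_finrank_eq inf_le_left ?_
    rw [← part_eq hg hr hg' hr' N le_rfl n, h1]
  intro p hp
  have : p ∈ part (ini g' N) n := by rw [h2]; exact hp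
  exact this.2

theorem mem_span_sq (s : Set σ) (p : MvPolynomial σ F) :
    p ∈ Ideal.span ((fun i => (X i : MvPolynomial σ F) ^ 2) '' s) ↔
      ∀ m ∈ p.support, ∃ i ∈ s, 2 ≤ m i := by
  have := @mem_ideal_span_monomial_image σ F _ p ((fun i => Finsupp.single i 2) '' s)
  rw [Set.image_image] at this
  simp only [X_pow_eq_monomial]
  refine this.trans ?_
  simp

theorem sq_reg (s : Set σ) (j : σ) (hj : j ∉ s) (p : MvPolynomial σ F)
    (h : X j ^ 2 * p ∈ Ideal.span ((fun i => (X i : MvPolynomial σ F) ^ 2) '' s)) :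
    p ∈ Ideal.span ((fun i => (X i : MvPolynomial σ F) ^ 2) '' s) := by
  rw [mem_span_sq] at h ⊢
  intro m hm
  obtain ⟨i, hi, h2⟩ := h (Finsupp.single j 2 + m) (by
    rw [MvPolynomial.mem_support_iff, X_pow_eq_monomial, coeff_monomial_mul, one_mul]
    exact MvPolynomial.mem_support_iff.mp hm)
  have : i ≠ j := fun h => hj (h ▸ hi)
  refine ⟨i, hi, ?_⟩
  simpa [Finsupp.single_eq_of_ne this] using h2

theorem reg_sq (N : ℕ) : Reg (fun i : Fin N => (X i : MvPolynomial (Fin N) F) ^ 2) :=
  fun i p hp => sq_reg _ i (by simp) p hp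

/-- a complete intersection of `N` quadrics in `N` variables vanishes exactly above degree `N` -/
theorem vanish_iff {N : ℕ} {G : Fin N → MvPolynomial (Fin N) F} (hG : ∀ i, (G i).IsHomogeneous 2)
    (hr : Reg G) (n : ℕ) :
    (∀ p : MvPolynomial (Fin N) F, p.IsHomogeneous n → p ∈ Ideal.span (Set.range G)) ↔ N < n := by
  have hX : ∀ i : Fin N, ((X i : MvPolynomial (Fin N) F) ^ 2).IsHomogeneous 2 :=
    fun i => isHomogeneous_X_pow i 2
  rw [← ini_full]
  constructor
  · intro h
    by_contra hn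
    have h1 := full_iff hG hr hX (reg_sq N) n h
    let m : Fin N →₀ ℕ := Finsupp.equivFunOnFinite.symm fun i => if i.1 < n then 1 else 0
    have hm : m.degree = n := by
      rw [Finsupp.degree_eq_sum]
      simp only [m, Finsupp.coe_equivFunOnFinite_symm]
      rw [Finset.sum_boole, Fin.card_filter_val_lt]
      simp only [Nat.cast_id]
      omega
    have h2 := (mem_span_sq _ _).mp (h1 _ (isHomogeneous_monomial (1 : F) hm)) m (by simp)
    obtain ⟨i, _, hi⟩ := h2
    simp only [m, Finsupp.coe_equivFunOnFinite_symm] at hi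
    split_ifs at hi <;> omega
  · intro hn
    refine full_iff hX (reg_sq N) hG hr n fun p hp => (mem_span_sq _ _).mpr fun m hm => ?_
    by_contra h
    push Not at h
    have h1 : m.degree = n := by
      by_contra h1
      exact MvPolynomial.mem_support_iff.mp hm (hp.coeff_eq_zero h1)
    rw [Finsupp.degree_eq_sum] at h1
    have h2 : ∑ i, m i ≤ ∑ _i : Fin N, 1 :=
      Finset.sum_le_sum fun i _ => Nat.lt_succ_iff.mp (h i i.2)
    simp only [Finset.sum_const, Finset.card_univ, Fintype.card_fin, smul_eq_mul, mul_one] at h2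
    omega

end Pool.Agent.H706Z.Wat
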