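import Mathlib
import Pool.Agent.H706Z.WatA

set_option autoImplicit false

/-!
# The complete intersection of four squares and one cubic in five variables
-/

namespace Pool.Agent.H706Z.Wat

open MvPolynomial

variable (F : Type*) [Field F]

/-- the cubic -/
noncomputable def cub : MvPolynomial (Fin 5) F := X 4 ^ 3 + X 0 * X 1 * (X 2 + X 3)

/-- the five generators -/
noncomputable def fam : Fin 5 → MvPolynomial (Fin 5) F :=
  ![X 0 ^ 2, X 1 ^ 2, X 2 ^ 2, X 3 ^ 2, cub F]

/-- the socle generator -/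
noncomputable def soc : MvPolynomial (Fin 5) F := X 4 ^ 2 * X 0 * X 1 * X 2 * X 3

theorem cub_hom : (cub F).IsHomogeneous 3 :=
  (isHomogeneous_X_pow 4 3).add (((isHomogeneous_X F 0).mul (isHomogeneous_X F 1)).mul
    ((isHomogeneous_X F 2).add (isHomogeneous_X F 3)))

theorem soc_hom : (soc F).IsHomogeneous 6 :=
  ((((isHomogeneous_X_pow 4 2).mul (isHomogeneous_X F 0)).mul (isHomogeneous_X F 1)).mul
    (isHomogeneous_X F 2)).mul (isHomogeneous_X F 3)

theorem fam_lt (i : Fin 5) (hi : i.1 < 4) : fam F i = X i ^ 2 := by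
  fin_cases i <;> first | rfl | simp at hi

theorem fam_hom (i : Fin 5) : ∃ d, d ≠ 0 ∧ (fam F i).IsHomogeneous d := by
  by_cases hi : i.1 < 4
  · exact ⟨2, by omega, by rw [fam_lt F i hi]; exact isHomogeneous_X_pow i 2⟩
  · have : i = 4 := Fin.ext (by have := i.2; simp; omega)
    subst this
    exact ⟨3, by omega, cub_hom F⟩

theorem ini_fam (k : ℕ) (hk : k ≤ 4) : ini (fam F) k =
    Ideal.span ((fun i => (X i : MvPolynomial (Fin 5) F) ^ 2) '' {i | i.1 < k}) := by
  rw [ini]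
  congr 1
  exact Set.image_congr fun i hi => fam_lt F i (lt_of_lt_of_le hi hk)

variable {F}

theorem key (h : MvPolynomial (Fin 5) F) (hh : h ∉ ini (fam F) 4) :
    ∃ m ∈ (cub F * h).support, (∀ i : Fin 5, i.1 < 4 → m i < 2) ∧ 3 ≤ m 4 := by
  classical
  rw [ini_fam F 4 le_rfl, mem_span_sq] at hh
  push Not at hh
  obtain ⟨m₀, hm₀, hm₀'⟩ := hh
  obtain ⟨m, hm, hmax⟩ := Finset.exists_max_image
    (h.support.filter (fun m => ∀ i : Fin 5, i.1 < 4 → m i < 2)) (fun m => m 4)
    ⟨m₀, Finset.mem_filter.mpr ⟨hm₀, hm₀'⟩⟩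
  obtain ⟨hm1, hm2⟩ := Finset.mem_filter.mp hm
  have hred : ∀ i : Fin 5, i.1 < 4 → (Finsupp.single (4 : Fin 5) 3 + m : Fin 5 →₀ ℕ) i < 2 := by
    intro i hi
    have : i ≠ 4 := by rintro rfl; simp at hi
    simpa [Finsupp.single_eq_of_ne this] using hm2 i hi
  have hz : ∀ a : Fin 5 →₀ ℕ, a 4 = 0 →
      coeff (Finsupp.single (4 : Fin 5) 3 + m) (monomial a (1 : F) * h) = 0 := by
    intro a ha
    rw [coeff_monomial_mul']
    split_ifs with h1
    · rw [one_mul]
      by_contra h2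
      have := hmax _ (Finset.mem_filter.mpr ⟨MvPolynomial.mem_support_iff.mpr h2, fun i hi =>
        lt_of_le_of_lt (by rw [Finsupp.tsub_apply]; exact Nat.sub_le _ _) (hred i hi)⟩)
      simp [ha] at this
    · rfl
  have hcub : cub F * h = monomial (Finsupp.single 4 3) 1 * h +
      monomial (Finsupp.single 0 1 + Finsupp.single 1 1 + Finsupp.single 2 1) 1 * h +
      monomial (Finsupp.single 0 1 + Finsupp.single 1 1 + Finsupp.single 3 1) 1 * h := by
    rw [monomial_add_single, monomial_add_single, monomial_add_single, monomial_add_single,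
      ← X_pow_eq_monomial, ← X_pow_eq_monomial, cub]
    ring
  refine ⟨Finsupp.single 4 3 + m, ?_, hred, by simp⟩
  rw [MvPolynomial.mem_support_iff, hcub, coeff_add, coeff_add, coeff_monomial_mul,
    hz _ (by simp), hz _ (by simp), one_mul, add_zero, add_zero]
  exact MvPolynomial.mem_support_iff.mp hm1

theorem reg_fam : Reg (fam F) := by
  intro i p hp
  by_cases hi : i.1 < 4
  · rw [ini_fam F _ hi.le] at hp ⊢
    rw [fam_lt F i hi] at hp
    exact sq_reg _ i (by simp) p hp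
  · have : i = 4 := Fin.ext (by have := i.2; simp; omega)
    subst this
    by_contra h
    obtain ⟨m, hm, h1, _⟩ := key p h
    change cub F * p ∈ ini (fam F) 4 at hp
    rw [ini_fam F 4 le_rfl, mem_span_sq] at hp
    obtain ⟨i, hi, h2⟩ := hp m hm
    exact absurd (h1 i hi) (not_lt.mpr h2)

theorem soc_eq : soc F = monomial (Finsupp.single 4 2 + Finsupp.single 0 1 + Finsupp.single 1 1 +
    Finsupp.single 2 1 + Finsupp.single 3 1) 1 := by
  rw [monomial_add_single, monomial_add_single, monomial_add_single, monomial_add_single,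
    ← X_pow_eq_monomial, soc]
  ring

theorem soc_notMem : soc F ∉ Ideal.span (Set.range (fam F)) := by
  classical
  intro hs
  rw [← ini_full] at hs
  have h5 := ini_succ (fam F) 4
  change ini (fam F) 5 = ini (fam F) 4 ⊔ Ideal.span {cub F} at h5
  rw [h5] at hs
  obtain ⟨q, hq, r, hr, hqr⟩ := Submodule.mem_sup.mp hs
  obtain ⟨h, rfl⟩ := Ideal.mem_span_singleton'.mp hr
  by_cases hh : h ∈ ini (fam F) 4
  · have : soc F ∈ ini (fam F) 4 := hqr ▸ Ideal.add_mem _ hq (Ideal.mul_mem_right _ _ hh)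
    rw [ini_fam F 4 le_rfl, mem_span_sq, soc_eq] at this
    rw [support_monomial, if_neg one_ne_zero] at this
    obtain ⟨i, hi, h2⟩ := this _ (Finset.mem_singleton_self _)
    fin_cases i <;> simp at hi h2
  · obtain ⟨m, hm, h1, h2⟩ := key h hh
    rw [ini_fam F 4 le_rfl, mem_span_sq] at hq
    have h3 : coeff m q = 0 := by
      by_contra h3
      obtain ⟨i, hi, h4⟩ := hq m (MvPolynomial.mem_support_iff.mpr h3)
      exact absurd (h1 i hi) (not_lt.mpr h4)
    have h4 : coeff m (soc F) = 0 := by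
      rw [soc_eq, coeff_monomial, if_neg]
      rintro rfl
      simp at h2
    rw [← hqr, coeff_add, h3, zero_add, mul_comm] at h4
    exact MvPolynomial.mem_support_iff.mp hm h4

theorem high_mem (p : MvPolynomial (Fin 5) F) {e : ℕ} (hp : p.IsHomogeneous e) (he : 7 ≤ e) :
    p ∈ Ideal.span (Set.range (fam F)) := by
  set I := Ideal.span (Set.range (fam F)) with hI
  have g0 : (X 0 : MvPolynomial (Fin 5) F) ^ 2 ∈ I := Ideal.subset_span ⟨0, rfl⟩
  have g1 : (X 1 : MvPolynomial (Fin 5) F) ^ 2 ∈ I := Ideal.subset_span ⟨1, rfl⟩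
  have g2 : (X 2 : MvPolynomial (Fin 5) F) ^ 2 ∈ I := Ideal.subset_span ⟨2, rfl⟩
  have g3 : (X 3 : MvPolynomial (Fin 5) F) ^ 2 ∈ I := Ideal.subset_span ⟨3, rfl⟩
  have g4 : cub F ∈ I := Ideal.subset_span ⟨4, rfl⟩
  have hdiv : ∀ (m a : Fin 5 →₀ ℕ) (c : F), a ≤ m → monomial a (1 : F) ∈ I → monomial m c ∈ I := by
    intro m a c ham ha
    obtain ⟨b, rfl⟩ := exists_add_of_le ham
    have : (monomial (a + b) c : MvPolynomial (Fin 5) F) = monomial a 1 * monomial b c := by
      rw [monomial_mul, one_mul]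
    rw [this]
    exact Ideal.mul_mem_right _ _ ha
  rw [p.as_sum]
  refine Ideal.sum_mem _ fun m hm => ?_
  have hdeg : m.degree = e := by
    by_contra h1
    exact MvPolynomial.mem_support_iff.mp hm (hp.coeff_eq_zero h1)
  rw [Finsupp.degree_eq_sum, Fin.sum_univ_five] at hdeg
  have hsq : ∀ i : Fin 5, (X i : MvPolynomial (Fin 5) F) ^ 2 ∈ I → 2 ≤ m i →
      monomial m (coeff m p) ∈ I := fun i h1 h2 =>
    hdiv m (Finsupp.single i 2) _ (Finsupp.single_le_iff.mpr h2) (by rwa [← X_pow_eq_monomial])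
  by_cases c0 : 2 ≤ m 0
  · exact hsq 0 g0 c0
  by_cases c1 : 2 ≤ m 1
  · exact hsq 1 g1 c1
  by_cases c2 : 2 ≤ m 2
  · exact hsq 2 g2 c2
  by_cases c3 : 2 ≤ m 3
  · exact hsq 3 g3 c3
  by_cases d0 : 1 ≤ m 0
  · refine hdiv m (Finsupp.single 4 3 + Finsupp.single 0 1) _ ?_ ?_
    · intro i
      fin_cases i <;> simp <;> omega
    · rw [monomial_add_single, ← X_pow_eq_monomial]
      have : (X 4 ^ 3 * X 0 ^ 1 : MvPolynomial (Fin 5) F) =
          X 0 * cub F - X 1 * (X 2 + X 3) * X 0 ^ 2 := by rw [cub]; ring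
      rw [this]
      exact Ideal.sub_mem _ (Ideal.mul_mem_left _ _ g4) (Ideal.mul_mem_left _ _ g0)
  by_cases d1 : 1 ≤ m 1
  · refine hdiv m (Finsupp.single 4 3 + Finsupp.single 1 1) _ ?_ ?_
    · intro i
      fin_cases i <;> simp <;> omega
    · rw [monomial_add_single, ← X_pow_eq_monomial]
      have : (X 4 ^ 3 * X 1 ^ 1 : MvPolynomial (Fin 5) F) =
          X 1 * cub F - X 0 * (X 2 + X 3) * X 1 ^ 2 := by rw [cub]; ring
      rw [this]
      exact Ideal.sub_mem _ (Ideal.mul_mem_left _ _ g4) (Ideal.mul_mem_left _ _ g1)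
  by_cases d2 : 6 ≤ m 4
  · refine hdiv m (Finsupp.single 4 6) _ (Finsupp.single_le_iff.mpr d2) ?_
    rw [← X_pow_eq_monomial]
    have : (X 4 ^ 6 : MvPolynomial (Fin 5) F) =
        (X 4 ^ 3 - X 0 * X 1 * (X 2 + X 3)) * cub F + (X 1 * (X 2 + X 3)) ^ 2 * X 0 ^ 2 := by
      rw [cub]; ring
    rw [this]
    exact Ideal.add_mem _ (Ideal.mul_mem_left _ _ g4) (Ideal.mul_mem_left _ _ g0)
  · refine hdiv m (Finsupp.single 4 3 + Finsupp.single 2 1 + Finsupp.single 3 1) _ ?_ ?_
    · intro i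
      fin_cases i <;> simp <;> omega
    · rw [monomial_add_single, monomial_add_single, ← X_pow_eq_monomial]
      have : (X 4 ^ 3 * X 2 ^ 1 * X 3 ^ 1 : MvPolynomial (Fin 5) F) =
          X 2 * X 3 * cub F - X 0 * X 1 * X 3 * X 2 ^ 2 - X 0 * X 1 * X 2 * X 3 ^ 2 := by
        rw [cub]; ring
      rw [this]
      exact Ideal.sub_mem _ (Ideal.sub_mem _ (Ideal.mul_mem_left _ _ g4)
        (Ideal.mul_mem_left _ _ g2)) (Ideal.mul_mem_left _ _ g3)

theorem regular_fam : RingTheory.Sequence.IsRegular (MvPolynomial (Fin 5) F) (List.ofFn (fam F)) := by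
  refine ⟨(weaklyRegular_iff _).mpr reg_fam, ?_⟩
  intro h
  have h1 := ofList_take (fam F) 5
  rw [List.take_of_length_le (by simp), ini_full] at h1
  rw [smul_eq_mul, Ideal.mul_top, h1] at h
  exact soc_notMem (h ▸ Submodule.mem_top)

end Pool.Agent.H706Z.Wat
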