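import Mathlib
import Pool.Agent.H706Z.WatB

set_option autoImplicit false

/-!
# No embedding into a complete intersection of six quadrics
-/

namespace Pool.Agent.H706Z.Wat

open MvPolynomial Module

universe u

variable {F : Type u} [Field F]

/-- no linear form divides the cubic modulo the four squares -/
theorem no_linear (l : MvPolynomial (Fin 5) F) (hl : l.IsHomogeneous 1)
    (h : ∀ (D : Type u) [CommRing D] [Algebra F D] (z : Fin 5 → D), z 0 ^ 2 = 0 → z 1 ^ 2 = 0 →
      z 2 ^ 2 = 0 → z 3 ^ 2 = 0 → aeval z l = 0 → aeval z (cub F) = 0) : False := by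
  have hl' : l ∈ homogeneousSubmodule (Fin 5) F 1 := hl
  rw [homogeneousSubmodule_one_eq_span_X, Submodule.mem_span_range_iff_exists_fun] at hl'
  obtain ⟨c, rfl⟩ := hl'
  by_cases hc : c 4 = 0
  · have := h F ![0, 0, 0, 0, 1] (by simp) (by simp) (by simp) (by simp)
      (by simp [Fin.sum_univ_five, hc])
    simp [cub] at this
  have hex : ∃ (D : Type u) (_ : CommRing D) (_ : Algebra F D) (ε : Fin 3 → D),
      (∀ i, ε i ^ 2 = 0) ∧ ε 0 * ε 1 * ε 2 ≠ 0 := by
    let J : Ideal (MvPolynomial (Fin 3) F) :=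
      Ideal.span ((fun i => (X i : MvPolynomial (Fin 3) F) ^ 2) '' Set.univ)
    refine ⟨MvPolynomial (Fin 3) F ⧸ J, inferInstance, inferInstance,
      fun i => Ideal.Quotient.mk J (X i), fun i => ?_, ?_⟩
    · rw [← map_pow, Ideal.Quotient.eq_zero_iff_mem]
      exact Ideal.subset_span ⟨i, trivial, rfl⟩
    · classical
      rw [← map_mul, ← map_mul, Ne, Ideal.Quotient.eq_zero_iff_mem, mem_span_sq]
      have : (X 0 * X 1 * X 2 : MvPolynomial (Fin 3) F) =
          monomial (Finsupp.single 0 1 + Finsupp.single 1 1 + Finsupp.single 2 1) 1 := by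
        rw [monomial_add_single, monomial_add_single, ← X_pow_eq_monomial]
        ring
      rw [this, support_monomial, if_neg one_ne_zero]
      intro h
      obtain ⟨i, _, h2⟩ := h _ (Finset.mem_singleton_self _)
      fin_cases i <;> simp at h2
  obtain ⟨D, _, _, ε, hε, hne⟩ := hex
  have hcan : ∀ a : F, a • (ε 0 * ε 1 * ε 2) = 0 → a = 0 := fun a ha =>
    (smul_eq_zero.mp ha).resolve_right hne
  have hcube : ∀ a b d : F, (a • ε 0 + b • ε 1 + d • ε 2) ^ 3 =
      (6 * a * b * d) • (ε 0 * ε 1 * ε 2) := by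
    intro a b d
    simp only [Algebra.smul_def, map_mul, map_ofNat]
    generalize algebraMap F D a = a'
    generalize algebraMap F D b = b'
    generalize algebraMap F D d = d'
    linear_combination (a' ^ 3 * ε 0 + 3 * a' ^ 2 * b' * ε 1 + 3 * a' ^ 2 * d' * ε 2) * hε 0 +
      (b' ^ 3 * ε 1 + 3 * b' ^ 2 * a' * ε 0 + 3 * b' ^ 2 * d' * ε 2) * hε 1 +
      (d' ^ 3 * ε 2 + 3 * d' ^ 2 * a' * ε 0 + 3 * d' ^ 2 * b' * ε 1) * hε 2
  let μ : Fin 5 → F := fun i => -c i / c 4
  have hμ : ∀ i, c i + c 4 * μ i = 0 := fun i => by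
    simp only [μ]
    field_simp
    ring
  have e1 := h _ ![ε 0, ε 1, ε 2, 0, μ 0 • ε 0 + μ 1 • ε 1 + μ 2 • ε 2] (hε 0) (hε 1) (hε 2)
    (by simp) (by
      simp only [Fin.sum_univ_five, map_add, map_smul, aeval_X, Matrix.cons_val]
      linear_combination (norm := module) hμ 0 • ε 0 + hμ 1 • ε 1 + hμ 2 • ε 2)
  have e2 := h _ ![ε 0, ε 1, 0, ε 2, μ 0 • ε 0 + μ 1 • ε 1 + μ 3 • ε 2] (hε 0) (hε 1) (by simp)
    (hε 2) (by
      simp only [Fin.sum_univ_five, map_add, map_smul, aeval_X, Matrix.cons_val]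
      linear_combination (norm := module) hμ 0 • ε 0 + hμ 1 • ε 1 + hμ 3 • ε 2)
  have e3 := h _ ![ε 0, 0, ε 1, ε 2, μ 0 • ε 0 + μ 2 • ε 1 + μ 3 • ε 2] (hε 0) (by simp) (hε 1)
    (hε 2) (by
      simp only [Fin.sum_univ_five, map_add, map_smul, aeval_X, Matrix.cons_val]
      linear_combination (norm := module) hμ 0 • ε 0 + hμ 2 • ε 1 + hμ 3 • ε 2)
  simp only [cub, map_add, map_mul, map_pow, aeval_X, Matrix.cons_val, hcube] at e1 e2 e3
  have f1 : 6 * μ 0 * μ 1 * μ 2 + 1 = 0 := hcan _ (by rw [add_smul, one_smul, ← e1, add_zero])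
  have f2 : 6 * μ 0 * μ 1 * μ 3 + 1 = 0 := hcan _ (by rw [add_smul, one_smul, ← e2, zero_add])
  have f3 : 6 * μ 0 * μ 2 * μ 3 = 0 := hcan _ (by rw [← e3, mul_zero, zero_mul, add_zero])
  have : (1 : F) = 0 := by
    linear_combination (6 * μ 0 * μ 1 ^ 2) * f3 - (6 * μ 0 * μ 1 * μ 3) * f1 + f2
  exact one_ne_zero this

section shape

variable {N : ℕ} (w : Fin N → MvPolynomial (Fin 5) F) (v : Fin N → F)

/-- the substitution `X j ↦ w j + v j Y` -/
noncomputable def sub : MvPolynomial (Fin N) F →ₐ[F] Polynomial (MvPolynomial (Fin 5) F) :=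
  aeval fun j => Polynomial.C (w j) + Polynomial.C (C (v j)) * Polynomial.X

theorem sub_one (hw : ∀ j, (w j).IsHomogeneous 1) {p : MvPolynomial (Fin N) F}
    (hp : p.IsHomogeneous 1) : ∃ m : MvPolynomial (Fin 5) F, m.IsHomogeneous 1 ∧
      sub w v p = Polynomial.C m + Polynomial.C (C (eval v p)) * Polynomial.X := by
  have hl' : p ∈ homogeneousSubmodule (Fin N) F 1 := hp
  rw [homogeneousSubmodule_one_eq_span_X] at hl'
  induction hl' using Submodule.span_induction with
  | mem x hx =>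
    obtain ⟨j, rfl⟩ := hx
    exact ⟨w j, hw j, by simp [sub]⟩
  | zero => exact ⟨0, isHomogeneous_zero _ _ _, by simp⟩
  | add x y hx hy ihx ihy =>
    rw [← homogeneousSubmodule_one_eq_span_X] at hx hy
    obtain ⟨m, h1, h2⟩ := ihx hx
    obtain ⟨m', h1', h2'⟩ := ihy hy
    refine ⟨m + m', h1.add h1', ?_⟩
    simp only [map_add, h2, h2']
    ring
  | smul a x hx ih =>
    rw [← homogeneousSubmodule_one_eq_span_X] at hx
    obtain ⟨m, h1, h2⟩ := ih hx
    refine ⟨C a * m, h1.C_mul a, ?_⟩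
    rw [map_smul, h2, smul_eval, Algebra.smul_def]
    simp only [map_mul, Polynomial.algebraMap_apply, algebraMap_eq]
    ring

theorem sub_two (hw : ∀ j, (w j).IsHomogeneous 1) {p : MvPolynomial (Fin N) F}
    (hp : p.IsHomogeneous 2) : ∃ q l : MvPolynomial (Fin 5) F, l.IsHomogeneous 1 ∧
      sub w v p = Polynomial.C q + Polynomial.C l * Polynomial.X +
        Polynomial.C (C (eval v p)) * Polynomial.X ^ 2 := by
  have hl' : p ∈ homogeneousSubmodule (Fin N) F 1 * homogeneousSubmodule (Fin N) F 1 := by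
    rw [← pow_two, homogeneousSubmodule_one_pow]
    exact hp
  clear hp
  induction hl' using Submodule.mul_induction_on' with
  | mem_mul_mem x hx y hy =>
    obtain ⟨m, h1, h2⟩ := sub_one w v hw hx
    obtain ⟨m', h1', h2'⟩ := sub_one w v hw hy
    refine ⟨m * m', C (eval v x) * m' + C (eval v y) * m, (h1'.C_mul _).add (h1.C_mul _), ?_⟩
    simp only [map_add, map_mul, h2, h2']
    ring
  | add x _ y _ ihx ihy =>
    obtain ⟨q, l, h1, h2⟩ := ihx
    obtain ⟨q', l', h1', h2'⟩ := ihy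
    refine ⟨q + q', l + l', h1.add h1', ?_⟩
    simp only [map_add, h2, h2']
    ring

end shape

theorem coeffs {D : Type*} [CommRing D] {f c0 c1 c2 c3 : D}
    (h : Polynomial.C f = Polynomial.C c0 + Polynomial.C c1 * Polynomial.X +
      Polynomial.C c2 * Polynomial.X ^ 2 + Polynomial.C c3 * Polynomial.X ^ 3) :
    f = c0 ∧ c1 = 0 ∧ c2 = 0 ∧ c3 = 0 := by
  have h0 := congrArg (fun p => Polynomial.coeff p 0) h
  have h1 := congrArg (fun p => Polynomial.coeff p 1) h
  have h2 := congrArg (fun p => Polynomial.coeff p 2) h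
  have h3 := congrArg (fun p => Polynomial.coeff p 3) h
  simp [Polynomial.coeff_X, Polynomial.coeff_C, Polynomial.coeff_X_pow] at h0 h1 h2 h3
  exact ⟨h0, h1.symm, h2.symm, h3.symm⟩

/-- the core: the cubic cannot be written with two further quadrics -/
theorem core {N : ℕ} (w : Fin N → MvPolynomial (Fin 5) F) (v : Fin N → F)
    (hw : ∀ j, (w j).IsHomogeneous 1) (l : Fin 5 → MvPolynomial (Fin N) F)
    (hl : ∀ i, sub w v (l i) = Polynomial.C (X i))
    (L1 L2 G1 G2 : MvPolynomial (Fin N) F) (hL1 : L1.IsHomogeneous 1) (hL2 : L2.IsHomogeneous 1)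
    (hG1 : G1.IsHomogeneous 2) (hG2 : G2.IsHomogeneous 2) (h1 : eval v G1 = 0)
    (h2 : eval v G2 = 1) (M : Fin 4 → MvPolynomial (Fin N) F)
    (h : l 4 ^ 3 + l 0 * l 1 * (l 2 + l 3) = L1 * G1 + L2 * G2 +
      (M 0 * l 0 ^ 2 + M 1 * l 1 ^ 2 + M 2 * l 2 ^ 2 + M 3 * l 3 ^ 2)) : False := by
  obtain ⟨m1, hm1, e1⟩ := sub_one w v hw hL1
  obtain ⟨m2, -, e2⟩ := sub_one w v hw hL2
  obtain ⟨q1, l1, hl1, e3⟩ := sub_two w v hw hG1
  obtain ⟨q2, l2, -, e4⟩ := sub_two w v hw hG2
  have h3 := congrArg (sub w v) h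
  simp only [map_add, map_mul, map_pow, hl, e1, e2, e3, e4, h1, h2, map_zero, map_one] at h3
  generalize eval v L1 = a at h3
  generalize eval v L2 = b at h3
  have hD : ∀ (D : Type u) [CommRing D] [Algebra F D] (z : Fin 5 → D), z 0 ^ 2 = 0 → z 1 ^ 2 = 0 →
      z 2 ^ 2 = 0 → z 3 ^ 2 = 0 →
      aeval z (cub F) = aeval z m1 * aeval z q1 + aeval z m2 * aeval z q2 ∧
      algebraMap F D a * aeval z q1 + aeval z m1 * aeval z l1 + aeval z m2 * aeval z l2 +
        algebraMap F D b * aeval z q2 = 0 ∧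
      algebraMap F D a * aeval z l1 + aeval z m2 + algebraMap F D b * aeval z l2 = 0 ∧
      algebraMap F D b = 0 := by
    intro D _ _ z z0 z1 z2 z3
    have h4 := congrArg (Polynomial.mapRingHom (aeval z : MvPolynomial (Fin 5) F →ₐ[F] D).toRingHom) h3
    simp only [map_add, map_mul, map_pow, map_zero, map_one, Polynomial.coe_mapRingHom,
      Polynomial.map_C, Polynomial.map_X, AlgHom.toRingHom_eq_coe, RingHom.coe_coe, aeval_X,
      algHom_C] at h4
    have y0 : (Polynomial.C (z 0)) ^ 2 = 0 := by rw [← map_pow, z0, map_zero]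
    have y1 : (Polynomial.C (z 1)) ^ 2 = 0 := by rw [← map_pow, z1, map_zero]
    have y2 : (Polynomial.C (z 2)) ^ 2 = 0 := by rw [← map_pow, z2, map_zero]
    have y3 : (Polynomial.C (z 3)) ^ 2 = 0 := by rw [← map_pow, z3, map_zero]
    rw [y0, y1, y2, y3] at h4
    apply coeffs
    simp only [cub, map_add, map_mul, map_pow, aeval_X]
    linear_combination h4
  by_cases ha : a = 0
  · refine no_linear m1 hm1 fun D _ _ z z0 z1 z2 z3 hz => ?_
    obtain ⟨c0, -, c2, c3⟩ := hD D z z0 z1 z2 z3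
    rw [ha, map_zero] at c2
    rw [c0, hz]
    linear_combination (aeval z q2) * c2 - (aeval z q2 * aeval z l2) * c3
  · refine no_linear l1 hl1 fun D _ _ z z0 z1 z2 z3 hz => ?_
    obtain ⟨c0, c1, c2, c3⟩ := hD D z z0 z1 z2 z3
    have hm2 : aeval z m2 = 0 := by
      linear_combination c2 - (algebraMap F D a) * hz - (aeval z l2) * c3
    have hq1 : algebraMap F D a * aeval z q1 = 0 := by
      linear_combination c1 - (aeval z m1) * hz - (aeval z l2) * hm2 - (aeval z q2) * c3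
    have hinv : algebraMap F D a⁻¹ * algebraMap F D a = 1 := by
      rw [← map_mul, inv_mul_cancel₀ ha, map_one]
    have hq1' : aeval z q1 = 0 := by
      linear_combination (algebraMap F D a⁻¹) * hq1 - (aeval z q1) * hinv
    rw [c0, hm2, hq1', mul_zero, zero_mul, add_zero]

end Pool.Agent.H706Z.Wat
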