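import Mathlib
import Pool.Agent.H706Z.WatC

set_option autoImplicit false

/-!
# Reduction of an arbitrary embedding to the core case
-/

namespace Pool.Agent.H706Z.Wat

open MvPolynomial Module

universe u

variable {F : Type u} [Field F]

section lead

variable {σ : Type*}

/-- `a'` is the degree `k` form with which `a` begins -/
def Lead (k : ℕ) (a a' : MvPolynomial σ F) : Prop :=
  a'.IsHomogeneous k ∧ a - a' ∈ idealOfVars σ F ^ (k + 1)

theorem hom_mem {k : ℕ} {a : MvPolynomial σ F} (h : a.IsHomogeneous k) :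
    a ∈ idealOfVars σ F ^ k :=
  (mem_pow_idealOfVars_iff' k a).mpr fun _ hx => h.coeff_eq_zero hx.ne

theorem Lead.mul {j k : ℕ} {a a' b b' : MvPolynomial σ F} (ha : Lead j a a') (hb : Lead k b b') :
    Lead (j + k) (a * b) (a' * b') := by
  refine ⟨ha.1.mul hb.1, ?_⟩
  have : a * b - a' * b' = (a - a') * b' + a' * (b - b') + (a - a') * (b - b') := by ring
  rw [this]
  refine Ideal.add_mem _ (Ideal.add_mem _ ?_ ?_) ?_
  · rw [show j + k + 1 = (j + 1) + k by omega, pow_add]
    exact Ideal.mul_mem_mul ha.2 (hom_mem hb.1)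
  · rw [add_assoc, pow_add]
    exact Ideal.mul_mem_mul (hom_mem ha.1) hb.2
  · refine Ideal.pow_le_pow_right (n := (j + 1) + (k + 1)) (by omega) ?_
    rw [pow_add]
    exact Ideal.mul_mem_mul ha.2 hb.2

theorem Lead.add {k : ℕ} {a a' b b' : MvPolynomial σ F} (ha : Lead k a a') (hb : Lead k b b') :
    Lead k (a + b) (a' + b') := by
  refine ⟨ha.1.add hb.1, ?_⟩
  have : a + b - (a' + b') = (a - a') + (b - b') := by ring
  rw [this]
  exact Ideal.add_mem _ ha.2 hb.2

theorem comp_zero {k n : ℕ} {a : MvPolynomial σ F} (h : a ∈ idealOfVars σ F ^ k) (hn : n < k) :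
    homogeneousComponent n a = 0 :=
  homogeneousComponent_eq_zero' _ _ fun d hd =>
    (hn.trans_le ((mem_pow_idealOfVars_iff k a).mp h d hd)).ne'

theorem Lead.comp {k : ℕ} {a a' : MvPolynomial σ F} (h : Lead k a a') :
    homogeneousComponent k a = a' := by
  have := comp_zero h.2 (Nat.lt_succ_self k)
  rwa [map_sub, homogeneousComponent_eq_self h.1, sub_eq_zero] at this

theorem lead_one {a : MvPolynomial σ F} (h : constantCoeff a = 0) :
    Lead 1 a (homogeneousComponent 1 a) := by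
  refine ⟨homogeneousComponent_isHomogeneous _ _, (mem_pow_idealOfVars_iff' _ _).mpr fun x hx => ?_⟩
  rw [coeff_sub, coeff_homogeneousComponent]
  split_ifs with h1
  · exact sub_self _
  · have : x = 0 := (Finsupp.degree_eq_zero_iff x).mp (by omega)
    rw [this, sub_zero]
    exact h

end lead

theorem graded_case (G : Fin 6 → MvPolynomial (Fin 6) F) (hG : ∀ i, (G i).IsHomogeneous 2)
    (h7 : ∀ j, (X j : MvPolynomial (Fin 6) F) ^ 7 ∈ Ideal.span (Set.range G))
    (l : Fin 5 → MvPolynomial (Fin 6) F) (hl : ∀ i, (l i).IsHomogeneous 1)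
    (hsq : ∀ i : Fin 5, i.1 < 4 → l i ^ 2 ∈ Ideal.span (Set.range G))
    (hcub : l 4 ^ 3 + l 0 * l 1 * (l 2 + l 3) ∈ Ideal.span (Set.range G))
    (hsoc : l 4 ^ 2 * l 0 * l 1 * l 2 * l 3 ∉ Ideal.span (Set.range G)) : False := by
  classical
  -- linear independence of the linear forms
  have hind : ∀ c : Fin 5 → F, ∑ i, c i • l i = 0 → c = 0 := by
    intro c hc
    let π := Ideal.Quotient.mkₐ F (Ideal.span (Set.range G))
    have y : ∀ i : Fin 5, i.1 < 4 → π (l i) ^ 2 = 0 := fun i hi => by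
      rw [← map_pow]
      exact Ideal.Quotient.eq_zero_iff_mem.mpr (hsq i hi)
    have hs : π (l 4) ^ 2 * π (l 0) * π (l 1) * π (l 2) * π (l 3) ≠ 0 := by
      rw [← map_pow, ← map_mul, ← map_mul, ← map_mul, ← map_mul]
      exact fun h => hsoc (Ideal.Quotient.eq_zero_iff_mem.mp h)
    have hc' := congrArg π hc
    simp only [Fin.sum_univ_five, Algebra.smul_def, map_add, map_mul, AlgHom.commutes,
      map_zero] at hc'
    have y0 := y 0 (by decide)
    have y1 := y 1 (by decide)
    have y2 := y 2 (by decide)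
    have y3 := y 3 (by decide)
    have hcan : ∀ a : F, algebraMap F _ a *
        (π (l 4) ^ 2 * π (l 0) * π (l 1) * π (l 2) * π (l 3)) = 0 → a = 0 := by
      intro a ha
      by_contra h
      have hinv : algebraMap F (MvPolynomial (Fin 6) F ⧸ Ideal.span (Set.range G)) a⁻¹ *
          algebraMap F _ a = 1 := by
        rw [← map_mul, inv_mul_cancel₀ h, map_one]
      apply hs
      linear_combination (algebraMap F _ a⁻¹) * ha -
        (π (l 4) ^ 2 * π (l 0) * π (l 1) * π (l 2) * π (l 3)) * hinv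
    generalize π (l 0) = z0 at *
    generalize π (l 1) = z1 at *
    generalize π (l 2) = z2 at *
    generalize π (l 3) = z3 at *
    generalize π (l 4) = z4 at *
    have c4 : c 4 = 0 := hcan _ (by
      linear_combination (z4 * z0 * z1 * z2 * z3) * hc' -
        (algebraMap F _ (c 0) * z4 * z1 * z2 * z3) * y0 -
        (algebraMap F _ (c 1) * z4 * z0 * z2 * z3) * y1 -
        (algebraMap F _ (c 2) * z4 * z0 * z1 * z3) * y2 -
        (algebraMap F _ (c 3) * z4 * z0 * z1 * z2) * y3)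
    rw [c4, map_zero] at hc'
    have c0 : c 0 = 0 := hcan _ (by
      linear_combination (z4 ^ 2 * z1 * z2 * z3) * hc' -
        (algebraMap F _ (c 1) * z4 ^ 2 * z2 * z3) * y1 -
        (algebraMap F _ (c 2) * z4 ^ 2 * z1 * z3) * y2 -
        (algebraMap F _ (c 3) * z4 ^ 2 * z1 * z2) * y3)
    rw [c0, map_zero] at hc'
    have c1 : c 1 = 0 := hcan _ (by
      linear_combination (z4 ^ 2 * z0 * z2 * z3) * hc' -
        (algebraMap F _ (c 2) * z4 ^ 2 * z0 * z3) * y2 -
        (algebraMap F _ (c 3) * z4 ^ 2 * z0 * z2) * y3)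
    rw [c1, map_zero] at hc'
    have c2 : c 2 = 0 := hcan _ (by
      linear_combination (z4 ^ 2 * z0 * z1 * z3) * hc' -
        (algebraMap F _ (c 3) * z4 ^ 2 * z0 * z1) * y3)
    rw [c2, map_zero] at hc'
    have c3 : c 3 = 0 := hcan _ (by linear_combination (z4 ^ 2 * z0 * z1 * z2) * hc')
    funext i
    fin_cases i
    exacts [c0, c1, c2, c3, c4]
  -- coordinates
  let A : (Fin 6 → F) →ₗ[F] MvPolynomial (Fin 6) F := Fintype.linearCombination F X
  have hL : ∀ i, ∃ c : Fin 6 → F, A c = l i := by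
    intro i
    have hl' : l i ∈ homogeneousSubmodule (Fin 6) F 1 := hl i
    rwa [homogeneousSubmodule_one_eq_span_X, Submodule.mem_span_range_iff_exists_fun] at hl'
  choose L hL using hL
  let ι : (Fin 5 → F) →ₗ[F] (Fin 6 → F) := Fintype.linearCombination F L
  have hι : ∀ i, ι (Pi.single i 1) = L i := fun i => by simp [ι]
  have hker : LinearMap.ker ι = ⊥ := by
    rw [LinearMap.ker_eq_bot']
    intro c hc
    apply hind
    have := congrArg A hc
    simpa only [ι, Fintype.linearCombination_apply, map_sum, map_smul, hL, map_zero] using this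
  obtain ⟨g, hg⟩ := ι.exists_leftInverse_of_injective hker
  have hgL : ∀ i, g (L i) = Pi.single i 1 := fun i => by
    rw [← hι]
    exact LinearMap.congr_fun hg _
  obtain ⟨η, hη0, hη⟩ := Submodule.exists_le_ker_of_lt_top (LinearMap.range ι) (by
    refine lt_top_iff_ne_top.mpr fun h => ?_
    have h1 := LinearMap.finrank_range_le ι
    rw [h] at h1
    simp at h1)
  have hηL : ∀ i, η (L i) = 0 := fun i => hη ⟨_, hι i⟩
  let w : Fin 6 → MvPolynomial (Fin 5) F := fun j =>
    Fintype.linearCombination F X (g (Pi.single j 1))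
  let v : Fin 6 → F := fun j => η (Pi.single j 1)
  have hw : ∀ j, (w j).IsHomogeneous 1 := fun j => by
    have : w j ∈ homogeneousSubmodule (Fin 5) F 1 := by
      rw [homogeneousSubmodule_one_eq_span_X, Submodule.mem_span_range_iff_exists_fun]
      exact ⟨_, rfl⟩
    exact this
  have hsub : ∀ i, sub w v (l i) = Polynomial.C (X i) := by
    have h1 : (sub w v).toLinearMap ∘ₗ A =
        (Polynomial.CAlgHom : MvPolynomial (Fin 5) F →ₐ[F] _).toLinearMap ∘ₗ
          (Fintype.linearCombination F X) ∘ₗ g +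
        (LinearMap.toSpanSingleton F _ Polynomial.X) ∘ₗ η := by
      refine (Pi.basisFun F (Fin 6)).ext fun j => ?_
      simp [A, sub, w, v, Algebra.smul_def]
    intro i
    have h2 := LinearMap.congr_fun h1 (L i)
    simpa [hL, hgL, hηL] using h2
  have hpt : ∀ θ : (Fin 6 → F) →ₗ[F] F, ∀ i,
      aeval (fun j => θ (Pi.single j 1)) (l i) = θ (L i) := by
    intro θ i
    have h1 : (aeval (fun j => θ (Pi.single j 1)) :
        MvPolynomial (Fin 6) F →ₐ[F] F).toLinearMap ∘ₗ A = θ := by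
      refine (Pi.basisFun F (Fin 6)).ext fun j => ?_
      simp [A]
    have h2 := LinearMap.congr_fun h1 (L i)
    simpa [hL] using h2
  obtain ⟨k₀, hk₀⟩ : ∃ k, eval v (G k) ≠ 0 := by
    by_contra h
    push Not at h
    have h1 : Ideal.span (Set.range G) ≤ RingHom.ker (eval v) := by
      rw [Ideal.span_le]
      rintro _ ⟨k, rfl⟩
      exact h k
    apply hη0
    refine (Pi.basisFun F (Fin 6)).ext fun j => ?_
    have h2 := h1 (h7 j)
    rw [RingHom.mem_ker, map_pow, eval_X] at h2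
    simpa using pow_eq_zero_iff (by omega) |>.mp h2
  let T : (Fin 6 → F) →ₗ[F] MvPolynomial (Fin 6) F := Fintype.linearCombination F G
  have hT : ∀ c, (T c).IsHomogeneous 2 := fun c => by
    have : T c ∈ homogeneousSubmodule (Fin 6) F 2 := by
      simp only [T, Fintype.linearCombination_apply]
      exact Submodule.sum_mem _ fun k _ => Submodule.smul_mem _ _ (hG k)
    exact this
  have hTG : ∀ k, T (Pi.single k 1) = G k := fun k => by simp [T]
  have hcc : ∀ i : Fin 5, ∃ c : Fin 6 → F, i.1 < 4 → T c = l i ^ 2 := by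
    intro i
    by_cases hi : i.1 < 4
    · obtain ⟨c, hc1, hc2⟩ := exists_homog_comb (n := 0) hG (hsq i hi) ((hl i).pow 2)
      refine ⟨fun k => coeff 0 (c k), fun _ => ?_⟩
      rw [hc2]
      simp only [T, Fintype.linearCombination_apply]
      refine Finset.sum_congr rfl fun k _ => ?_
      conv_rhs => rw [← homogeneousComponent_eq_self (hc1 k), homogeneousComponent_zero]
      rw [smul_eq_C_mul]
    · exact ⟨0, fun h => absurd h hi⟩
  choose cc hcc using hcc
  let θ : Fin 5 → (Fin 6 → F) →ₗ[F] F := fun i =>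
    if i = 4 then η else (LinearMap.proj i) ∘ₗ g
  let Φ : (Fin 6 → F) →ₗ[F] (Fin 5 → F) := LinearMap.pi fun i =>
    (aeval (fun j => θ i (Pi.single j 1)) : MvPolynomial (Fin 6) F →ₐ[F] F).toLinearMap ∘ₗ T
  have hΦ4 : ∀ c, Φ c 4 = eval v (T c) := fun c => by
    simp [Φ, θ, v, aeval_eq_eval]
  have hΦcc : ∀ i : Fin 5, i.1 < 4 → Φ (cc i) = Pi.single i 1 := by
    intro i hi
    funext k
    simp only [Φ, LinearMap.pi_apply, LinearMap.comp_apply, AlgHom.toLinearMap_apply, hcc i hi,
      map_pow, hpt]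
    by_cases hk : k = 4
    · have : k ≠ i := by rintro rfl; rw [hk] at hi; simp at hi
      simp [θ, hk, hηL, Pi.single_eq_of_ne (hk ▸ this)]
    · simp only [θ, if_neg hk, LinearMap.comp_apply, hgL, LinearMap.proj_apply]
      by_cases hki : k = i
      · simp [hki]
      · simp [Pi.single_eq_of_ne hki]
  let c2 : Fin 6 → F := (eval v (G k₀))⁻¹ • Pi.single k₀ 1
  have hc2 : eval v (T c2) = 1 := by
    simp only [c2, map_smul, hTG, smul_eval]
    exact inv_mul_cancel₀ hk₀
  have hc2' : Φ c2 4 = 1 := by rw [hΦ4, hc2]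
  have hsec : ∀ y : Fin 5 → F, Φ (y 4 • c2 + (y 0 - y 4 * Φ c2 0) • cc 0 +
      (y 1 - y 4 * Φ c2 1) • cc 1 + (y 2 - y 4 * Φ c2 2) • cc 2 +
      (y 3 - y 4 * Φ c2 3) • cc 3) = y := by
    intro y
    simp only [map_add, map_smul, hΦcc 0 (by decide), hΦcc 1 (by decide), hΦcc 2 (by decide),
      hΦcc 3 (by decide)]
    funext k
    fin_cases k <;> simp [hc2']
  have hrank : finrank F (LinearMap.ker Φ) ≤ 1 := by
    have h1 := LinearMap.finrank_range_add_finrank_ker Φ
    rw [LinearMap.range_eq_top.mpr fun y => ⟨_, hsec y⟩] at h1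
    simp at h1
    omega
  obtain ⟨c1, hc1⟩ := finrank_le_one_iff.mp hrank
  have hdec : ∀ k, ∃ α β : F, ∃ γ : Fin 4 → F, G k = α • T c1.1 + β • T c2 +
      (γ 0 • l 0 ^ 2 + γ 1 • l 1 ^ 2 + γ 2 • l 2 ^ 2 + γ 3 • l 3 ^ 2) := by
    intro k
    set y := Φ (Pi.single k 1) with hy
    obtain ⟨α, hα⟩ := hc1 ⟨Pi.single k 1 - (y 4 • c2 + (y 0 - y 4 * Φ c2 0) • cc 0 +
      (y 1 - y 4 * Φ c2 1) • cc 1 + (y 2 - y 4 * Φ c2 2) • cc 2 +
      (y 3 - y 4 * Φ c2 3) • cc 3), by rw [LinearMap.mem_ker, map_sub, hsec, sub_self]⟩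
    refine ⟨α, y 4, ![y 0 - y 4 * Φ c2 0, y 1 - y 4 * Φ c2 1, y 2 - y 4 * Φ c2 2,
      y 3 - y 4 * Φ c2 3], ?_⟩
    have h1 := congrArg (fun c : LinearMap.ker Φ => T c.1) hα
    simp only [Submodule.coe_smul, map_smul, map_sub, map_add, hTG, hcc 0 (by decide),
      hcc 1 (by decide), hcc 2 (by decide), hcc 3 (by decide)] at h1
    simp only [Matrix.cons_val]
    rw [h1]
    abel
  choose α β γ hdec using hdec
  obtain ⟨Λ, hΛ1, hΛ2⟩ := exists_homog_comb (n := 1) hG hcub
    (((hl 4).pow 3).add (((hl 0).mul (hl 1)).mul ((hl 2).add (hl 3))))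
  have hcomb : ∀ a : Fin 6 → F, (∑ k, a k • Λ k).IsHomogeneous 1 := fun a => by
    have : (∑ k, a k • Λ k) ∈ homogeneousSubmodule (Fin 6) F 1 :=
      Submodule.sum_mem _ fun k _ => Submodule.smul_mem _ _ (hΛ1 k)
    exact this
  refine core w v hw l hsub (∑ k, α k • Λ k) (∑ k, β k • Λ k) (T c1.1) (T c2) (hcomb _) (hcomb _)
    (hT _) (hT _) ?_ hc2 (fun i => ∑ k, γ k i • Λ k) ?_
  · rw [← hΦ4, LinearMap.mem_ker.mp c1.2]
    rfl
  · rw [hΛ2]
    simp only [Finset.sum_mul, ← Finset.sum_add_distrib]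
    refine Finset.sum_congr rfl fun k _ => ?_
    conv_lhs => rw [hdec k]
    simp only [smul_eq_C_mul]
    ring

theorem no_embedding {N : ℕ} (G : Fin N → MvPolynomial (Fin N) F)
    (hG : ∀ i, (G i).IsHomogeneous 2) (hr : Reg G)
    (h6 : ∃ p : MvPolynomial (Fin N) F, p.IsHomogeneous 6 ∧ p ∉ Ideal.span (Set.range G))
    (h7 : ∀ e, 7 ≤ e → ∀ p : MvPolynomial (Fin N) F, p.IsHomogeneous e →
      p ∈ Ideal.span (Set.range G))
    (φ : (MvPolynomial (Fin 5) F ⧸ Ideal.span (Set.range (fam F))) →ₐ[F]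
      (MvPolynomial (Fin N) F ⧸ Ideal.span (Set.range G))) : ¬ Function.Injective φ := by
  intro hφ
  have hN : N = 6 := by
    have h1 := (vanish_iff hG hr 7).mp (h7 7 le_rfl)
    have h2 : ¬ N < 6 := fun h => by
      obtain ⟨p, hp1, hp2⟩ := h6
      exact hp2 ((vanish_iff hG hr 6).mpr h p hp1)
    omega
  subst hN
  choose p hp using fun i : Fin 5 =>
    Ideal.Quotient.mk_surjective (φ (Ideal.Quotient.mk _ (X i)))
  have hψ : ∀ g : MvPolynomial (Fin 5) F,
      Ideal.Quotient.mk _ (aeval p g) = φ (Ideal.Quotient.mk _ g) := by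
    have h1 : (Ideal.Quotient.mkₐ F (Ideal.span (Set.range G))).comp (aeval p) =
        φ.comp (Ideal.Quotient.mkₐ F _) := by
      refine MvPolynomial.algHom_ext fun i => ?_
      simpa using hp i
    exact fun g => AlgHom.congr_fun h1 g
  have hmem : ∀ g : MvPolynomial (Fin 5) F,
      aeval p g ∈ Ideal.span (Set.range G) ↔ g ∈ Ideal.span (Set.range (fam F)) := by
    intro g
    rw [← Ideal.Quotient.eq_zero_iff_mem, ← Ideal.Quotient.eq_zero_iff_mem, hψ,
      map_eq_zero_iff φ hφ]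
  have hlead : ∀ i, Lead 1 (p i) (homogeneousComponent 1 (p i)) := by
    intro i
    refine lead_one ?_
    have h1 := (hmem _).mpr (high_mem _ (isHomogeneous_X_pow i 7) le_rfl)
    have h2 := one_notMem_span (by rintro _ ⟨k, rfl⟩; exact ⟨2, by omega, hG k⟩) h1
    rw [map_pow, aeval_X, map_pow] at h2
    exact pow_eq_zero_iff (by omega) |>.mp h2
  have hs : ∀ g ∈ Set.range G, ∃ d, g.IsHomogeneous d := by
    rintro _ ⟨k, rfl⟩
    exact ⟨2, hG k⟩
  refine graded_case G hG (fun j => h7 7 le_rfl _ (isHomogeneous_X_pow j 7))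
    (fun i => homogeneousComponent 1 (p i)) (fun i => (hlead i).1) ?_ ?_ ?_
  · intro i hi
    have h1 := (hmem _).mpr (Ideal.subset_span ⟨i, rfl⟩)
    rw [fam_lt F i hi, map_pow, aeval_X, pow_two] at h1
    have h2 := comp_mem_span hs h1 (1 + 1)
    rwa [((hlead i).mul (hlead i)).comp, ← pow_two] at h2
  · have h1 := (hmem (cub F)).mpr (Ideal.subset_span ⟨4, rfl⟩)
    simp only [cub, map_add, map_mul, map_pow, aeval_X] at h1
    rw [pow_three'] at h1 ⊢
    have h2 := comp_mem_span hs h1 (1 + 1 + 1)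
    rwa [((((hlead 4).mul (hlead 4)).mul (hlead 4)).add
      (((hlead 0).mul (hlead 1)).mul ((hlead 2).add (hlead 3)))).comp] at h2
  · intro h
    apply soc_notMem (F := F)
    rw [← hmem]
    simp only [soc, map_mul, map_pow, aeval_X]
    rw [pow_two] at h ⊢
    have h1 := (((((((hlead 4).mul (hlead 4)).mul (hlead 0)).mul (hlead 1)).mul (hlead 2)).mul
      (hlead 3))).2
    refine (Submodule.sub_mem_iff_left _ h).mp ?_
    rw [← sum_homogeneousComponent (_ - _)]
    refine Ideal.sum_mem _ fun e _ => ?_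
    rcases lt_or_ge e 7 with he | he
    · rw [comp_zero h1 he]
      exact Ideal.zero_mem _
    · exact h7 e he _ (homogeneousComponent_isHomogeneous _ _)

end Pool.Agent.H706Z.Wat
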